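import Pool.Agent.Work.MP_bc729a_al.CO.Wq

/-! # Module DgM (M): involutions preserving a family of solids

Write `f E` for `(f ⟨E, _⟩).1`, `E ∈ M` (a solid), and `g ℓ` for `(g ⟨ℓ, _⟩).1`, `ℓ` a line. `f` maps `M` onto `M` (`hf`, `ff`). For `E ∈ M` and a line `ℓ`: `ℓ ≤ E ↔ g ℓ ≤ f E` (`hI.inc`; `Ic E ℓ` means `ℓ ≤ E` for a solid). (a) For `E, F ∈ M`, `E ≠ F`, `E ⊓ F ≠ ⊥`: `E ⊓ F` is a line (`fam_two`), `g (E ⊓ F) ≤ f E ⊓ f F`, and `f E ≠ f F`, so `g (E ⊓ F) = f E ⊓ f F` (dimensions, `fam_two`). (b) `E ⊓ F ≠ ⊥ ↔ f E ⊓ f F ≠ ⊥` (also if `E = F`).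
(c) If `A, B, A', B' ∈ M` with `A ⊓ A' = ⊥`, `B ⊓ B' = ⊥`, `A ≠ B`, `A ⊓ B ≠ ⊥`, `A' ≠ B'`, `A' ⊓ B' ≠ ⊥`, `A' ≠ B`, `A' ⊓ B ≠ ⊥`, then `A ⊓ B`, `A' ⊓ B'` are lines and `(A' ⊓ B') ⊓ orth (A ⊓ B) = ⊥` (`sd_opp`): take `ℓ = A' ⊓ B'`, `m = A ⊓ B`.
Case 1: `F ⊓ f F ≠ ⊥` for all `F ∈ M`. 1a: `f F = F` for all `F ∈ M`: let `F ∈ M` (`hM.ne`) and `F' ∈ M`, `F ⊓ F' = ⊥` (`ext_sd` with `m = ⊥`, and `fam_even`); `fam_quad` and (c): by (a) `g` fixes both lines. 1b: some `F ∈ M` with `f F ≠ F`: `fam_sep` (`F`, `F₀ := f F`) gives `G ∈ M`, `G ⊓ f F ≠ ⊥`, `G ⊓ F = ⊥`. `f G ⊓ f F = ⊥` (b). Use (c) with `A = F`, `B = f F`, `A' = G`, `B' = f G` (`G ⊓ f G ≠ ⊥` by the case, `G ≠ f G` as `f G ⊓ F ≠ ⊥` by (b) and `ff`; `G ≠ f F`, as `G ⊓ F = ⊥` and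
`f F ⊓ F ≠ ⊥`). By (a) and `ff` `g` fixes both lines. Case 2: some `F ∈ M` with `F ⊓ f F = ⊥`, `F' = f F`. Let `W` be the set of the `G ∈ M` with `G ⊓ F ≠ ⊥`, `G ⊓ F' ≠ ⊥`; `f` maps `W` to `W` (b), `ff`. 2a: some `G ∈ W` with `G ⊓ f G = ⊥`: (c) with `A = F`, `B = G`, `A' = F'`, `B' = f G` (`G ≠ F`, `G ≠ F'`, `f G ≠ F'` as `F ⊓ F' = ⊥`); `g (F ⊓ G) = F' ⊓ f G`: the two lines are exchanged. 2b: `G ⊓ f G ≠ ⊥` for all `G ∈ W`. If `f G = G` for all `G ∈ W`: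
`fam_quad` (for `F, F'`) and (c), (a): both lines are fixed. Otherwise let `G ∈ W`, `f G ≠ G`; `fam_sep_in` (`G`, `G₀ := f G`): `G' ∈ W`, `G' ⊓ f G ≠ ⊥`, `G' ⊓ G = ⊥`; (c) with `A = G`, `B = f G`, `A' = G'`, `B' = f G'` as in 1b: both lines are fixed. -/

namespace Pool.Agent.Work.MP_bc729a_al.CG

open Module

universe u v

variable {K : Type u} {V : Type v} [Field K] [AddCommGroup V] [Module K V] [Finite K] [Finite V]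

namespace PS

variable {Φ : PS K V}

/-- involutions `φ` of the family `M` and `γ` of the lines preserving incidence -/
private structure Iv (Φ : PS K V) (M : Set (Submodule K V)) (φ γ : Submodule K V → Submodule K V) :
    Prop where
  m : ∀ E ∈ M, φ E ∈ M
  i : ∀ E ∈ M, φ (φ E) = E
  l : ∀ ℓ, Φ.IsLn ℓ → Φ.IsLn (γ ℓ)
  c : ∀ E ∈ M, ∀ ℓ, Φ.IsLn ℓ → (γ ℓ ≤ φ E ↔ ℓ ≤ E)

/-- the conclusion -/
private def Cn (Φ : PS K V) (γ : Submodule K V → Submodule K V) : Prop :=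
  ∃ ℓ m, Φ.IsLn ℓ ∧ Φ.IsLn m ∧ ℓ ⊓ Φ.orth m = ⊥ ∧
    ((γ ℓ = ℓ ∧ γ m = m) ∨ (γ ℓ = m ∧ γ m = ℓ))

private theorem dg_a (hn : finrank K V = 8) {D : Subgroup (V ≃ₗ[K] V)}
    {M : Set (Submodule K V)} (hM : Φ.Fam D M) {φ γ : Submodule K V → Submodule K V}
    (H : Iv Φ M φ γ) {E F : Submodule K V} (hE : E ∈ M) (hF : F ∈ M) (hne : E ≠ F)
    (h : E ⊓ F ≠ ⊥) : Φ.IsLn (E ⊓ F) ∧ φ E ⊓ φ F ≠ ⊥ ∧ γ (E ⊓ F) = φ E ⊓ φ F := by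
  have h1 : Φ.IsLn (E ⊓ F) := fam_two hn hM hE hF hne h
  have h2 : Φ.IsLn (γ (E ⊓ F)) := H.l _ h1
  have h3 : γ (E ⊓ F) ≤ φ E ⊓ φ F :=
    le_inf ((H.c E hE _ h1).2 inf_le_left) ((H.c F hF _ h1).2 inf_le_right)
  have h4 : φ E ≠ φ F := by
    intro he
    exact hne (by rw [← H.i E hE, he, H.i F hF])
  have h5 : φ E ⊓ φ F ≠ ⊥ := by
    intro hb
    rw [hb, le_bot_iff] at h3
    have h6 := h2.2
    rw [h3, finrank_bot] at h6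
    omega
  have h6 : Φ.IsLn (φ E ⊓ φ F) := fam_two hn hM (H.m E hE) (H.m F hF) h4 h5
  exact ⟨h1, h5, Submodule.eq_of_le_of_finrank_eq h3 (h2.2.trans h6.2.symm)⟩

private theorem dg_b (hn : finrank K V = 8) {D : Subgroup (V ≃ₗ[K] V)}
    {M : Set (Submodule K V)} (hM : Φ.Fam D M) {φ γ : Submodule K V → Submodule K V}
    (H : Iv Φ M φ γ) {E F : Submodule K V} (hE : E ∈ M) (hF : F ∈ M)
    (h : E ⊓ F ≠ ⊥) : φ E ⊓ φ F ≠ ⊥ := by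
  by_cases he : E = F
  · subst he
    rw [inf_idem]
    intro hb
    have h1 := (hM.sd _ (H.m E hE)).2
    rw [hb, finrank_bot] at h1
    omega
  · exact (dg_a hn hM H hE hF he h).2.1

private theorem dg_b' (hn : finrank K V = 8) {D : Subgroup (V ≃ₗ[K] V)}
    {M : Set (Submodule K V)} (hM : Φ.Fam D M) {φ γ : Submodule K V → Submodule K V}
    (H : Iv Φ M φ γ) {E F : Submodule K V} (hE : E ∈ M) (hF : F ∈ M)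
    (h : E ⊓ F = ⊥) : φ E ⊓ φ F = ⊥ := by
  by_contra hb
  have h1 := dg_b hn hM H (H.m E hE) (H.m F hF) hb
  rw [H.i E hE, H.i F hF] at h1
  exact h1 h

private theorem dg_c (hn : finrank K V = 8) {D : Subgroup (V ≃ₗ[K] V)}
    {M : Set (Submodule K V)} (hM : Φ.Fam D M) {φ γ : Submodule K V → Submodule K V}
    (H : Iv Φ M φ γ) {A B A' B' : Submodule K V} (hA : A ∈ M) (hB : B ∈ M) (hA' : A' ∈ M)
    (hB' : B' ∈ M) (h1 : A ⊓ A' = ⊥) (h2 : B ⊓ B' = ⊥) (h3 : A ≠ B) (h4 : A ⊓ B ≠ ⊥)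
    (h5 : A' ≠ B') (h6 : A' ⊓ B' ≠ ⊥) (h7 : A' ≠ B) (h8 : A' ⊓ B ≠ ⊥)
    (h9 : (φ A' ⊓ φ B' = A' ⊓ B' ∧ φ A ⊓ φ B = A ⊓ B) ∨
      (φ A' ⊓ φ B' = A ⊓ B ∧ φ A ⊓ φ B = A' ⊓ B')) : Cn Φ γ := by
  obtain ⟨a1, -, a3⟩ := dg_a hn hM H hA hB h3 h4
  obtain ⟨b1, -, b3⟩ := dg_a hn hM H hA' hB' h5 h6
  obtain ⟨c1, -, -⟩ := dg_a hn hM H hA' hB h7 h8
  refine ⟨A' ⊓ B', A ⊓ B, b1, a1, sd_opp hn (hM.sd A hA) (hM.sd B hB) (hM.sd A' hA')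
    (hM.sd B' hB') h1 h2 a1.2 c1.2, ?_⟩
  rw [a3, b3]
  exact h9

private theorem dg_d (hn : finrank K V = 8) {D : Subgroup (V ≃ₗ[K] V)}
    {M : Set (Submodule K V)} (hM : Φ.Fam D M) {φ γ : Submodule K V → Submodule K V}
    (H : Iv Φ M φ γ) {F G : Submodule K V} (hF : F ∈ M) (hG : G ∈ M) (h1 : F ≠ φ F)
    (h2 : F ⊓ φ F ≠ ⊥) (h3 : G ⊓ φ F ≠ ⊥) (h4 : G ⊓ F = ⊥) (h5 : G ⊓ φ G ≠ ⊥) : Cn Φ γ := by
  have h6 : φ G ⊓ F ≠ ⊥ := by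
    have h := dg_b hn hM H hG (H.m F hF) h3
    rw [H.i F hF] at h
    exact h
  have h7 : φ F ⊓ φ G = ⊥ := by
    rw [inf_comm]
    exact dg_b' hn hM H hG hF h4
  refine dg_c hn hM H hF (H.m F hF) hG (H.m G hG) (by rw [inf_comm]; exact h4) h7 h1 h2 ?_ h5 ?_ h3
    (Or.inl ⟨?_, ?_⟩)
  · intro he
    rw [← he] at h6
    exact h6 h4
  · intro he
    rw [he, inf_comm] at h4
    exact h2 h4
  · rw [H.i G hG, inf_comm]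
  · rw [H.i F hF, inf_comm]

omit [Finite K] [Finite V] in
private theorem dg_bot (Φ : PS K V) : Φ.TS (⊥ : Submodule K V) := by
  constructor
  · intro v hv
    rw [Submodule.mem_bot] at hv
    rw [hv]
    exact Φ.S_zero
  · exact bot_le

private theorem dg_opp (hn : finrank K V = 8) {D : Subgroup (V ≃ₗ[K] V)}
    {M : Set (Submodule K V)} (hM : Φ.Fam D M) {F : Submodule K V} (hF : F ∈ M) :
    ∃ F' ∈ M, F ⊓ F' = ⊥ := by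
  obtain ⟨G, hG, -, h⟩ := ext_sd (Φ := Φ) hn (hM.sd F hF) (dg_bot Φ) (bot_inf_eq F)
  refine ⟨G, ?_, by rw [inf_comm]; exact h⟩
  have h1 := fam_even hn hM hG (hM.sd F hF)
  rw [h, finrank_bot] at h1
  exact (h1.2 (by decide)).2 hF

private theorem dg_main (hn : finrank K V = 8) {D : Subgroup (V ≃ₗ[K] V)}
    {M : Set (Submodule K V)} (hM : Φ.Fam D M) {φ γ : Submodule K V → Submodule K V}
    (H : Iv Φ M φ γ) : Cn Φ γ := by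
  by_cases c1 : ∀ F ∈ M, F ⊓ φ F ≠ ⊥
  · by_cases c2 : ∀ F ∈ M, φ F = F
    · obtain ⟨F, hF⟩ := hM.ne
      obtain ⟨F', hF', h⟩ := dg_opp hn hM hF
      obtain ⟨A, B, A', B', hA, hB, hA', hB', q1, q2, q3, q4, q5⟩ := fam_quad hn hM hF hF' h
      refine dg_c hn hM H hA.1 hB.1 hA'.1 hB'.1 q1 q2 q3.1 q3.2 q4.1 q4.2 q5.1 q5.2
        (Or.inl ⟨?_, ?_⟩)
      · rw [c2 _ hA'.1, c2 _ hB'.1]
      · rw [c2 _ hA.1, c2 _ hB.1]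
    · push Not at c2
      obtain ⟨F, hF, hne⟩ := c2
      obtain ⟨G, hG, g1, g2⟩ := fam_sep hn hM hF (H.m F hF) hne.symm (c1 F hF)
      exact dg_d hn hM H hF hG hne.symm (c1 F hF) g1 g2 (c1 G hG)
  · push Not at c1
    obtain ⟨F, hF, h⟩ := c1
    have hF' : φ F ∈ M := H.m F hF
    have h' : φ F ⊓ F = ⊥ := by rw [inf_comm]; exact h
    have w1 : ∀ G ∈ M, G ⊓ φ F ≠ ⊥ → φ G ⊓ F ≠ ⊥ := by
      intro G hG h1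
      have h2 := dg_b hn hM H hG hF' h1
      rw [H.i F hF] at h2
      exact h2
    have w2 : ∀ G ∈ M, G ⊓ F ≠ ⊥ → φ G ⊓ φ F ≠ ⊥ := fun G hG h1 => dg_b hn hM H hG hF h1
    by_cases c2 : ∀ G ∈ M, G ⊓ F ≠ ⊥ → G ⊓ φ F ≠ ⊥ → G ⊓ φ G ≠ ⊥
    · by_cases c3 : ∀ G ∈ M, G ⊓ F ≠ ⊥ → G ⊓ φ F ≠ ⊥ → φ G = G
      · obtain ⟨A, B, A', B', hA, hB, hA', hB', q1, q2, q3, q4, q5⟩ := fam_quad hn hM hF hF' h
        refine dg_c hn hM H hA.1 hB.1 hA'.1 hB'.1 q1 q2 q3.1 q3.2 q4.1 q4.2 q5.1 q5.2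
          (Or.inl ⟨?_, ?_⟩)
        · rw [c3 _ hA'.1 hA'.2.1 hA'.2.2, c3 _ hB'.1 hB'.2.1 hB'.2.2]
        · rw [c3 _ hA.1 hA.2.1 hA.2.2, c3 _ hB.1 hB.2.1 hB.2.2]
      · push Not at c3
        obtain ⟨G, hG, g1, g2, hne⟩ := c3
        obtain ⟨G', hG', k1, k2, k3, k4⟩ := fam_sep_in hn hM hF hF' h hG g1 g2 (H.m G hG)
          (w1 G hG g2) (w2 G hG g1) hne.symm (c2 G hG g1 g2)
        exact dg_d hn hM H hG hG' hne.symm (c2 G hG g1 g2) k3 k4 (c2 G' hG' k1 k2)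
    · push Not at c2
      obtain ⟨G, hG, g1, g2, g3⟩ := c2
      have k1 := w1 G hG g2
      have k2 := w2 G hG g1
      refine dg_c hn hM H hF hG hF' (H.m G hG) h g3 ?_ (by rw [inf_comm]; exact g1) ?_
        (by rw [inf_comm]; exact k2) ?_ (by rw [inf_comm]; exact g2) (Or.inr ⟨?_, ?_⟩)
      · intro he
        rw [← he] at g2
        exact g2 h
      · intro he
        rw [← he] at k1
        exact k1 h'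
      · intro he
        rw [← he] at g1
        exact g1 h'
      · rw [H.i F hF, H.i G hG]
      · rfl

theorem dag_M (hn : finrank K V = 8) {D : Subgroup (V ≃ₗ[K] V)}
    {M : Set (Submodule K V)} (hM : Φ.Fam D M) {f : Equiv.Perm Φ.Ob}
    {g : Equiv.Perm Φ.Lx} (hI : Φ.Ivn f g) (hf : ∀ a : Φ.Ob, a.1 ∈ M → (f a).1 ∈ M) :
    ∃ ℓ m : Φ.Lx, ℓ.1 ⊓ Φ.orth m.1 = ⊥ ∧ ((g ℓ = ℓ ∧ g m = m) ∨ (g ℓ = m ∧ g m = ℓ)) := by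
  classical
  let φ : Submodule K V → Submodule K V := fun E =>
    if h : E ∈ M then (f ⟨E, Or.inr (hM.sd E h)⟩).1 else E
  let γ : Submodule K V → Submodule K V := fun ℓ =>
    if h : Φ.IsLn ℓ then (g ⟨ℓ, h⟩).1 else ℓ
  have hφ : ∀ E (h : E ∈ M), φ E = (f ⟨E, Or.inr (hM.sd E h)⟩).1 := fun E h => dif_pos h
  have hγ : ∀ ℓ (h : Φ.IsLn ℓ), γ ℓ = (g ⟨ℓ, h⟩).1 := fun ℓ h => dif_pos h
  have hic : ∀ E ∈ M, ∀ ℓ, Φ.IsLn ℓ → (Ic E ℓ ↔ ℓ ≤ E) := by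
    intro E hE ℓ hℓ
    constructor
    · rintro (h | h)
      · exfalso
        have h1 : finrank K E ≤ finrank K ℓ := Submodule.finrank_mono h
        have h2 := (hM.sd E hE).2
        have h3 := hℓ.2
        omega
      · exact h
    · exact Or.inr
  have H : Iv Φ M φ γ := by
    refine ⟨?_, ?_, ?_, ?_⟩
    · intro E hE
      rw [hφ E hE]
      exact hf _ hE
    · intro E hE
      have h1 : (f ⟨E, Or.inr (hM.sd E hE)⟩).1 ∈ M := hf _ hE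
      rw [hφ E hE, hφ _ h1]
      exact congrArg Subtype.val (hI.ff ⟨E, Or.inr (hM.sd E hE)⟩)
    · intro ℓ hℓ
      rw [hγ ℓ hℓ]
      exact (g ⟨ℓ, hℓ⟩).2
    · intro E hE ℓ hℓ
      have h1 : (f ⟨E, Or.inr (hM.sd E hE)⟩).1 ∈ M := hf _ hE
      have h2 := hI.inc ⟨E, Or.inr (hM.sd E hE)⟩ ⟨ℓ, hℓ⟩
      rw [hic _ h1 _ (g ⟨ℓ, hℓ⟩).2, hic E hE ℓ hℓ] at h2
      rw [hφ E hE, hγ ℓ hℓ]
      exact h2
  obtain ⟨ℓ, m, h1, h2, h3, h4⟩ := dg_main hn hM H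
  rw [hγ ℓ h1, hγ m h2] at h4
  refine ⟨⟨ℓ, h1⟩, ⟨m, h2⟩, h3, ?_⟩
  rcases h4 with h4 | h4
  · exact Or.inl ⟨Subtype.ext h4.1, Subtype.ext h4.2⟩
  · exact Or.inr ⟨Subtype.ext h4.1, Subtype.ext h4.2⟩

end PS

end Pool.Agent.Work.MP_bc729a_al.CG
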