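import Pool.Agent.Work.MP_bc729a_al.CO.Opl
import Pool.Agent.Work.MP_bc729a_al.CG.Hyp
import Pool.Agent.Work.MP_bc729a_al.CG.Exq

/-! # Module DgP (M): involutions preserving the points

Write `β x` for the point `(f ⟨x, _⟩).1`. For a point `x` and a line `ℓ`: `x ≤ ℓ ↔ β x ≤ g ℓ` (`hI.inc`). (a) For perpendicular points `x ≠ y`: `x ⊔ y` is a line (`TS.sup`), `g (x ⊔ y) = β x ⊔ β y` (dimensions; `β x ≠ β y`), so `β x`, `β y` are perpendicular. So `x ≤ orth y ↔ β x ≤ orth (β y)` for all points (`ff`). (b) If `Quad x y x' y'` then `x ⊔ x'`, `y ⊔ y'` are opposite lines (`quad_opp`).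
Case A: `β x ≤ orth x` for all points `x`. A1: `β x = x` for all `x`: `exists_quad` (`W = ⊤`, `c ≤ 3`), lines `x ⊔ x'`, `y ⊔ y'`, fixed by (a). A2: some `x` with `β x ≠ x`: `sep` (`W = ⊤`, `E := β x`, `z := x`): a point `w ≤ orth (β x)`, `¬ w ≤ orth x`. `Quad x w (β x) (β w)`: `x, w` are opposite, `β x, β w` too; `β x ≤ orth x`, `β x ≤ orth w`, `β w ≤ orth x` (apply `β` to `w ≤ orth (β x)`), `β w ≤ orth w`. The lines `x ⊔ β x`, `w ⊔ β w` are fixed by `g`.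
Case B: some point `x` with `¬ β x ≤ orth x`. `W = orth (x ⊔ β x)` is nondegenerate of dimension `6` (`hyp_nd`, `ND.orth`, `finrank_orth`), and `z ≤ W ↔ β z ≤ W` for points `z`. B1: some point `x' ≤ W` with `¬ β x' ≤ orth x'`: `Quad x (β x) x' (β x')`; `g` exchanges the lines `x ⊔ x'` and `β x ⊔ β x'`. B2: `β x' ≤ orth x'` for all points `x' ≤ W`. B2a: `β x' = x'` for all points `x' ≤ W`: `exists_quad` in `W` (`c + 2 ≤ 6`); both lines are fixed. B2b: some point `x' ≤ W` with `β x' ≠ x'`: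
`sep` in `W` as in A2: `w ≤ W`, `w ≤ orth (β x')`, `¬ w ≤ orth x'`; the lines `x' ⊔ β x'`, `w ⊔ β w` are fixed. (Compare the proof of `fixed_quad'` in CR/Gf.) -/

namespace Pool.Agent.Work.MP_bc729a_al.CG

open Module

universe u v

variable {K : Type u} {V : Type v} [Field K] [AddCommGroup V] [Module K V] [Finite K] [Finite V]

namespace PS

variable {Φ : PS K V}

private theorem dp_sup2 {a b : Φ.Pt} (h : a ≠ b) : finrank K ↥(a.1 ⊔ b.1) = 2 := by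
  have h1 := Submodule.finrank_sup_add_finrank_inf_eq a.1 b.1
  have h2 : a.1 ⊓ b.1 = ⊥ :=
    a.2.inf_eq_bot (fun hab => h (Subtype.ext (a.2.eq_of_le b.2 hab)))
  rw [h2, finrank_bot, a.2.finrank, b.2.finrank] at h1
  omega

private theorem dp_A (σ : Φ.Pt → Φ.Pt)
    (hσ : ∀ x y : Φ.Pt, (σ x).1 ≤ Φ.orth (σ y).1 ↔ x.1 ≤ Φ.orth y.1)
    (h2 : ∀ x, σ (σ x) = x) {W : Submodule K V} (hW : Φ.ND W)
    (hWσ : ∀ z : Φ.Pt, (σ z).1 ≤ W ↔ z.1 ≤ W)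
    (hB : ∀ z : Φ.Pt, z.1 ≤ W → (σ z).1 ≤ Φ.orth z.1) (x : Φ.Pt) (hx : x.1 ≤ W)
    (hne : σ x ≠ x) : ∃ w : Φ.Pt, Φ.Quad x.1 w.1 (σ x).1 (σ w).1 := by
  have hxn : ¬ x.1 ≤ (σ x).1 := fun h => hne (Subtype.ext (x.2.eq_of_le (σ x).2 h)).symm
  obtain ⟨w, hw, hwW, hw1, hw2⟩ := sep hW (σ x).2.ts ((hWσ x).2 hx) x.2 hx hxn
  refine ⟨⟨w, hw⟩, ⟨x.2, hw, (σ x).2, (σ ⟨w, hw⟩).2, hw2, ?_, hB x hx,
    Φ.le_orth_comm.1 hw1, ?_, hB ⟨w, hw⟩ hwW⟩⟩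
  · intro h
    exact hw2 ((hσ ⟨w, hw⟩ x).1 h)
  · have h := (hσ ⟨w, hw⟩ (σ x)).2 hw1
    rw [h2] at h
    exact h

theorem dag_P (hn : finrank K V = 8) {f : Equiv.Perm Φ.Ob} {g : Equiv.Perm Φ.Lx}
    (hI : Φ.Ivn f g) (hf : ∀ a : Φ.Ob, Φ.IsPt a.1 → Φ.IsPt (f a).1) :
    ∃ ℓ m : Φ.Lx, ℓ.1 ⊓ Φ.orth m.1 = ⊥ ∧ ((g ℓ = ℓ ∧ g m = m) ∨ (g ℓ = m ∧ g m = ℓ)) := by
  have hfd : Module.Finite K V := inferInstance
  let σ : Φ.Pt → Φ.Pt := fun x => ⟨(f ⟨x.1, Or.inl x.2⟩).1, hf _ x.2⟩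
  have h2 : ∀ x, σ (σ x) = x := by
    intro x
    apply Subtype.ext
    show (f ⟨(f ⟨x.1, Or.inl x.2⟩).1, _⟩).1 = x.1
    have h3 : (⟨(f ⟨x.1, Or.inl x.2⟩).1, Or.inl (hf _ x.2)⟩ : Φ.Ob) = f ⟨x.1, Or.inl x.2⟩ := rfl
    rw [h3, hI.ff]
  have hinj : ∀ a b, σ a = σ b → a = b := by
    intro a b h
    rw [← h2 a, h, h2 b]
  have hIc : ∀ {a ℓ : Submodule K V}, Φ.IsPt a → Φ.IsLn ℓ → (Ic a ℓ ↔ a ≤ ℓ) := by
    intro a ℓ ha hℓ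
    refine ⟨?_, fun h => Or.inl h⟩
    rintro (h | h)
    · exact h
    · exfalso
      have h3 := Submodule.finrank_mono h
      rw [hℓ.2, ha.finrank] at h3
      omega
  have hinc : ∀ (x : Φ.Pt) (ℓ : Φ.Lx), x.1 ≤ ℓ.1 → (σ x).1 ≤ (g ℓ).1 := by
    intro x ℓ h
    have h3 := (hI.inc ⟨x.1, Or.inl x.2⟩ ℓ).2 ((hIc x.2 ℓ.2).2 h)
    exact (hIc (σ x).2 (g ℓ).2).1 h3
  have hperp : ∀ x y : Φ.Pt, x.1 ≤ Φ.orth y.1 → (σ x).1 ≤ Φ.orth (σ y).1 := by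
    intro x y h
    by_cases hxy : x = y
    · rw [hxy]
      exact (σ y).2.self
    · have hL : Φ.IsLn (x.1 ⊔ y.1) := ⟨TS.sup x.2.ts y.2.ts h, dp_sup2 hxy⟩
      have h3 := hinc x ⟨_, hL⟩ le_sup_left
      have h4 := hinc y ⟨_, hL⟩ le_sup_right
      exact h3.trans ((g ⟨_, hL⟩).2.1.2.trans (Φ.orth_anti h4))
  have hσ : ∀ x y : Φ.Pt, (σ x).1 ≤ Φ.orth (σ y).1 ↔ x.1 ≤ Φ.orth y.1 := by
    intro x y
    refine ⟨fun h => ?_, hperp x y⟩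
    have h3 := hperp _ _ h
    rw [h2, h2] at h3
    exact h3
  have hg : ∀ (a b : Φ.Pt) (h : Φ.IsLn (a.1 ⊔ b.1)),
      (g ⟨a.1 ⊔ b.1, h⟩).1 = (σ a).1 ⊔ (σ b).1 := by
    intro a b h
    have hab : a ≠ b := by
      rintro rfl
      have h3 := h.2
      rw [sup_idem, a.2.finrank] at h3
      omega
    have h3 : (σ a).1 ⊔ (σ b).1 ≤ (g ⟨a.1 ⊔ b.1, h⟩).1 :=
      sup_le (hinc a _ le_sup_left) (hinc b _ le_sup_right)
    symm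
    apply Submodule.eq_of_le_of_finrank_eq h3
    rw [dp_sup2 (fun h' => hab (hinj a b h')), (g ⟨a.1 ⊔ b.1, h⟩).2.2]
  have hend : ∀ x y x' y' : Φ.Pt, Φ.Quad x.1 y.1 x'.1 y'.1 →
      (((σ x).1 ⊔ (σ x').1 = x.1 ⊔ x'.1 ∧ (σ y).1 ⊔ (σ y').1 = y.1 ⊔ y'.1) ∨
        ((σ x).1 ⊔ (σ x').1 = y.1 ⊔ y'.1 ∧ (σ y).1 ⊔ (σ y').1 = x.1 ⊔ x'.1)) →
      ∃ ℓ m : Φ.Lx, ℓ.1 ⊓ Φ.orth m.1 = ⊥ ∧
        ((g ℓ = ℓ ∧ g m = m) ∨ (g ℓ = m ∧ g m = ℓ)) := by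
    intro x y x' y' hq hc
    obtain ⟨l1, l2, l3⟩ := quad_opp hq
    refine ⟨⟨_, l1⟩, ⟨_, l2⟩, l3, ?_⟩
    rcases hc with ⟨c1, c2⟩ | ⟨c1, c2⟩
    · left
      exact ⟨Subtype.ext ((hg x x' l1).trans c1), Subtype.ext ((hg y y' l2).trans c2)⟩
    · right
      exact ⟨Subtype.ext ((hg x x' l1).trans c1), Subtype.ext ((hg y y' l2).trans c2)⟩
  have hcle := Φ.c_le
  by_cases hB : ∀ x : Φ.Pt, (σ x).1 ≤ Φ.orth x.1
  · by_cases hid : ∀ x : Φ.Pt, σ x = x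
    · obtain ⟨x, y, x', y', hq, -⟩ := exists_quad (Φ := Φ) ND_top (by
        rw [finrank_top]
        omega)
      refine hend ⟨x, hq.px⟩ ⟨y, hq.py⟩ ⟨x', hq.px'⟩ ⟨y', hq.py'⟩ hq (Or.inl ⟨?_, ?_⟩)
      · rw [hid, hid]
      · rw [hid, hid]
    · push Not at hid
      obtain ⟨x, hx⟩ := hid
      obtain ⟨w, hq⟩ := dp_A σ hσ h2 ND_top (fun x => ⟨fun _ => le_top, fun _ => le_top⟩)
        (fun x _ => hB x) x le_top hx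
      refine hend x w (σ x) (σ w) hq (Or.inl ⟨?_, ?_⟩)
      · rw [h2, sup_comm]
      · rw [h2, sup_comm]
  · push Not at hB
    obtain ⟨x, hx⟩ := hB
    obtain ⟨hnd, hfr⟩ := hyp_nd x.2 (σ x).2 hx
    obtain ⟨W, hWd⟩ : ∃ W, W = Φ.orth (x.1 ⊔ (σ x).1) := ⟨_, rfl⟩
    have hW : Φ.ND W := by
      rw [hWd]
      exact hnd.orth
    have hmem : ∀ z : Submodule K V, z ≤ W ↔ z ≤ Φ.orth x.1 ∧ z ≤ Φ.orth (σ x).1 := by
      intro z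
      rw [hWd, Φ.orth_sup, le_inf_iff]
    have hWσ : ∀ z : Φ.Pt, (σ z).1 ≤ W ↔ z.1 ≤ W := by
      intro z
      rw [hmem, hmem, hσ z x]
      have h := hσ z (σ x)
      rw [h2] at h
      rw [h, and_comm]
    have hdim : finrank K W = 6 := by
      have h := finrank_orth (Φ := Φ) (x.1 ⊔ (σ x).1)
      rw [← hWd, hfr] at h
      omega
    by_cases h3 : ∀ x' : Φ.Pt, x'.1 ≤ W → (σ x').1 ≤ Φ.orth x'.1
    · by_cases h4 : ∀ x' : Φ.Pt, x'.1 ≤ W → σ x' = x'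
      · obtain ⟨a, b, a', b', hq, hqW⟩ := exists_quad (Φ := Φ) hW (by omega)
        have ha : a ≤ W := (le_sup_left.trans le_sup_left).trans hqW
        have hb : b ≤ W := (le_sup_right.trans le_sup_left).trans hqW
        have ha' : a' ≤ W := (le_sup_left.trans le_sup_right).trans hqW
        have hb' : b' ≤ W := (le_sup_right.trans le_sup_right).trans hqW
        refine hend ⟨a, hq.px⟩ ⟨b, hq.py⟩ ⟨a', hq.px'⟩ ⟨b', hq.py'⟩ hq (Or.inl ⟨?_, ?_⟩)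
        · rw [h4 ⟨a, hq.px⟩ ha, h4 ⟨a', hq.px'⟩ ha']
        · rw [h4 ⟨b, hq.py⟩ hb, h4 ⟨b', hq.py'⟩ hb']
      · push Not at h4
        obtain ⟨x', hx', hne⟩ := h4
        obtain ⟨w, hq⟩ := dp_A σ hσ h2 hW hWσ h3 x' hx' hne
        refine hend x' w (σ x') (σ w) hq (Or.inl ⟨?_, ?_⟩)
        · rw [h2, sup_comm]
        · rw [h2, sup_comm]
    · push Not at h3
      obtain ⟨x', hx', h4⟩ := h3
      have h5 := (hmem _).1 hx'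
      have h6 := (hmem _).1 ((hWσ x').2 hx')
      refine hend x (σ x) x' (σ x')
        ⟨x.2, (σ x).2, x'.2, (σ x').2, hx, h4, h5.1, h5.2, h6.1, h6.2⟩ (Or.inr ⟨rfl, ?_⟩)
      rw [h2, h2]

end PS

end Pool.Agent.Work.MP_bc729a_al.CG
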