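import Pool.Agent.Work.MP_bc729a_al.CO.Defs
import Pool.Agent.Work.MP_bc729a_al.CG.Hyp
import Pool.Agent.Work.MP_bc729a_al.CG.Dsc

/-! # Module Mxl (M): totally singular subspaces are contained in maximal ones

PROOF of `ts_le_max`. `W ⊓ orth E₀ = E₀` (`ND.finrank_inf_orth`, dimensions). `F = E ⊔ (E₀ ⊓ orth E)` is totally singular (`TS.sup`, `TS.mono`), `≤ W`. Dimension: `orth (E₀ ⊓ orth E) = orth E₀ ⊔ E` (`orth_inf`, `orth_orth`), so by `finrank_orth` and `Submodule.finrank_sup_add_finrank_inf_eq` `finrank (E₀ ⊓ orth E) = finrank E₀ - finrank E + finrank (E ⊓ orth E₀)`, and `E ⊓ orth E₀ = E ⊓ E₀` (as `E ≤ W`).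
`E ⊓ (E₀ ⊓ orth E) = E ⊓ E₀` (`E ≤ orth E`). So `finrank F = finrank E₀`. `ts_le_sd`: `W = ⊤` (`ND_top`).
PROOF of `two_sd`. `E ≥ π` from `ts_le_sd`; `e ≤ E` a point, `¬ e ≤ π` (`TS.isPt`, dimensions); `sep` (`W = ⊤`, `E := π`, `z := e`) gives a point `w ≤ orth π`, `¬ w ≤ orth e`. `F = π ⊔ w`, totally singular (`TS.sup`), of dimension `4` (`w ≤ π` would give `w ≤ E ≤ orth e`), `F ≠ E`. Let `G` be a solid, `π ≤ G`. `G ≤ orth G ≤ orth π`, `finrank (orth π) = 5`, `orth π = π ⊔ e ⊔ w` (dimensions: `w` is not `≤ π ⊔ e = E`).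
Let `v ∈ G`, `v ∉ π`, `v = p + l • e₀ + m • w₀` (`p ∈ π`, `e = span {e₀}`, `w = span {w₀}`); `v' = l • e₀ + m • w₀ ∈ G`, `S v'`, `v' ≠ 0`. If `l ≠ 0` and `m ≠ 0`: `S (m • w₀ + 0 • e₀)` and `S (m • w₀ + l • e₀)`, but `card_t` (`x := e₀`, `v := m • w₀`) says that there is exactly `t = 1` such scalar. So `l = 0`, `w ≤ G`, `G = F`, or `m = 0`, `e ≤ G`, `G = π ⊔ e = E` (dimensions). -/

namespace Pool.Agent.Work.MP_bc729a_al.CG

open Module

universe u v

variable {K : Type u} {V : Type v} [Field K] [AddCommGroup V] [Module K V] [Finite K] [Finite V]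

namespace PS

variable {Φ : PS K V}

theorem ts_le_max {W E₀ E : Submodule K V} (hW : Φ.ND W) (hE₀ : Φ.TS E₀) (hE₀W : E₀ ≤ W)
    (h : finrank K W = 2 * finrank K E₀) (hE : Φ.TS E) (hEW : E ≤ W) :
    ∃ F, Φ.TS F ∧ F ≤ W ∧ E ≤ F ∧ finrank K F = finrank K E₀ := by
  have h1 : E ≤ Φ.orth (E₀ ⊓ Φ.orth E) := Φ.le_orth_comm.1 inf_le_right
  refine ⟨E ⊔ E₀ ⊓ Φ.orth E, hE.sup (hE₀.mono inf_le_left) h1,
    sup_le hEW (inf_le_left.trans hE₀W), le_sup_left, ?_⟩
  have h2 := hW.finrank_inf_orth hE₀W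
  have h3 : E₀ = W ⊓ Φ.orth E₀ := by
    apply Submodule.eq_of_le_of_finrank_eq (le_inf hE₀W hE₀.2)
    omega
  have h4 : Φ.orth E₀ ⊓ E = E ⊓ E₀ := by
    apply le_antisymm
    · refine le_inf inf_le_right ?_
      conv_rhs => rw [h3]
      exact le_inf (inf_le_right.trans hEW) inf_le_left
    · exact le_inf (inf_le_right.trans hE₀.2) inf_le_left
  have h5 : E ⊓ (E₀ ⊓ Φ.orth E) = E ⊓ E₀ := by
    apply le_antisymm
    · exact le_inf inf_le_left (inf_le_right.trans inf_le_left)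
    · exact le_inf inf_le_left (le_inf inf_le_right (inf_le_left.trans hE.2))
  have h6 := Submodule.finrank_sup_add_finrank_inf_eq E (E₀ ⊓ Φ.orth E)
  rw [h5] at h6
  have h7 := finrank_orth (Φ := Φ) (E₀ ⊓ Φ.orth E)
  rw [orth_inf, orth_orth] at h7
  have h8 := Submodule.finrank_sup_add_finrank_inf_eq (Φ.orth E₀) E
  rw [h4] at h8
  have h9 := finrank_orth (Φ := Φ) E₀
  omega

theorem ts_le_sd (hn : finrank K V = 8) (h4 : ∃ E, Φ.IsSd E) {E : Submodule K V}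
    (hE : Φ.TS E) : ∃ F, Φ.IsSd F ∧ E ≤ F := by
  obtain ⟨E₀, hE₀⟩ := h4
  obtain ⟨F, h1, -, h2, h3⟩ := ts_le_max Φ.ND_top hE₀.1 le_top
    (by rw [finrank_top, hn, hE₀.2]) hE le_top
  exact ⟨F, ⟨h1, h3.trans hE₀.2⟩, h2⟩

theorem two_sd (hn : finrank K V = 8) (ht : Φ.t = 1) (h4 : ∃ E, Φ.IsSd E)
    {π : Submodule K V} (hπ : Φ.TS π) (h3 : finrank K π = 3) :
    ∃ E F, Φ.IsSd E ∧ Φ.IsSd F ∧ E ≠ F ∧ π ≤ E ∧ π ≤ F ∧
      ∀ G, Φ.IsSd G → π ≤ G → G = E ∨ G = F := by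
  obtain ⟨E, hE, hπE⟩ := ts_le_sd hn h4 hπ
  have hnle : ¬ E ≤ π := by
    intro hh
    have := Submodule.finrank_mono hh
    rw [hE.2, h3] at this
    omega
  obtain ⟨v, hvE, hvπ⟩ := SetLike.not_le_iff_exists.1 hnle
  have hv0 : v ≠ 0 := by
    rintro rfl
    exact hvπ π.zero_mem
  have he : Φ.IsPt (Submodule.span K {v}) := hE.1.isPt hvE hv0
  have heE : Submodule.span K {v} ≤ E := by
    rw [Submodule.span_singleton_le_iff_mem]
    exact hvE
  have heπ : ¬ Submodule.span K {v} ≤ π := by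
    rw [Submodule.span_singleton_le_iff_mem]
    exact hvπ
  have hEe : E ≤ Φ.orth (Submodule.span K {v}) := hE.1.2.trans (Φ.orth_anti heE)
  obtain ⟨w, hw, -, hwπ, hwe⟩ := sep Φ.ND_top hπ le_top he le_top heπ
  obtain ⟨w₀, hw0, hwS, rfl⟩ := hw
  have hw : Φ.IsPt (Submodule.span K {w₀}) := isPt_span hw0 hwS
  have hwE : ¬ Submodule.span K {w₀} ≤ E := fun hh => hwe (hh.trans hEe)
  have hwπ' : ¬ Submodule.span K {w₀} ≤ π := fun hh => hwE (hh.trans hπE)
  have hFT : Φ.TS (π ⊔ Submodule.span K {w₀}) := hπ.sup hw.ts (Φ.le_orth_comm.1 hwπ)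
  have hd := Submodule.finrank_sup_add_finrank_inf_eq π (Submodule.span K {w₀})
  rw [inf_comm π, hw.inf_eq_bot hwπ', finrank_bot, hw.finrank, h3] at hd
  have hF : Φ.IsSd (π ⊔ Submodule.span K {w₀}) := ⟨hFT, by omega⟩
  have hEd := Submodule.finrank_sup_add_finrank_inf_eq π (Submodule.span K {v})
  rw [inf_comm π, he.inf_eq_bot heπ, finrank_bot, he.finrank, h3] at hEd
  have hEs : π ⊔ Submodule.span K {v} = E :=
    Submodule.eq_of_le_of_finrank_eq (sup_le hπE heE) (by rw [hE.2]; omega)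
  refine ⟨E, π ⊔ Submodule.span K {w₀}, hE, hF, ?_, hπE, le_sup_left, ?_⟩
  · intro hh
    apply hwE
    rw [hh]
    exact le_sup_right
  intro G hG hπG
  -- the perpendicular space of `π`
  have ho := finrank_orth (Φ := Φ) π
  rw [h3, hn] at ho
  have h5 := Submodule.finrank_sup_add_finrank_inf_eq E (Submodule.span K {w₀})
  rw [inf_comm E, hw.inf_eq_bot hwE, finrank_bot, hw.finrank, hE.2] at h5
  have hsup : E ⊔ Submodule.span K {w₀} = Φ.orth π :=
    Submodule.eq_of_le_of_finrank_eq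
      (sup_le (hE.1.2.trans (Φ.orth_anti hπE)) hwπ) (by omega)
  have hGo : G ≤ Φ.orth π := hG.1.2.trans (Φ.orth_anti hπG)
  have hnG : ¬ G ≤ π := by
    intro hh
    have := Submodule.finrank_mono hh
    rw [hG.2, h3] at this
    omega
  obtain ⟨g, hgG, hgπ⟩ := SetLike.not_le_iff_exists.1 hnG
  have hg1 := hGo hgG
  rw [← hsup, ← hEs] at hg1
  obtain ⟨a, ha, b, hb, hab⟩ := Submodule.mem_sup.1 hg1
  obtain ⟨p, hp, c, hc, hpc⟩ := Submodule.mem_sup.1 ha
  obtain ⟨l, rfl⟩ := Submodule.mem_span_singleton.1 hc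
  obtain ⟨m, rfl⟩ := Submodule.mem_span_singleton.1 hb
  have hg' : m • w₀ + l • v ∈ G := by
    have h6 : m • w₀ + l • v = g - p := by
      rw [← hab, ← hpc]
      abel
    rw [h6]
    exact G.sub_mem hgG (hπG hp)
  have hg'S := hG.1.1 _ hg'
  by_cases hm : m = 0
  · left
    have hl : l ≠ 0 := by
      rintro rfl
      apply hgπ
      rw [← hab, ← hpc, hm, zero_smul, zero_smul, add_zero, add_zero]
      exact hp
    have hvG : v ∈ G := by
      rw [hm, zero_smul, zero_add] at hg'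
      have h7 := G.smul_mem l⁻¹ hg'
      rwa [smul_smul, inv_mul_cancel₀ hl, one_smul] at h7
    have hEG : E ≤ G := by
      rw [← hEs]
      refine sup_le hπG ?_
      rw [Submodule.span_singleton_le_iff_mem]
      exact hvG
    exact (Submodule.eq_of_le_of_finrank_eq hEG (hE.2.trans hG.2.symm)).symm
  by_cases hl : l = 0
  · right
    have hwG : w₀ ∈ G := by
      rw [hl, zero_smul, add_zero] at hg'
      have h7 := G.smul_mem m⁻¹ hg'
      rwa [smul_smul, inv_mul_cancel₀ hm, one_smul] at h7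
    have hFG : π ⊔ Submodule.span K {w₀} ≤ G := by
      refine sup_le hπG ?_
      rw [Submodule.span_singleton_le_iff_mem]
      exact hwG
    exact (Submodule.eq_of_le_of_finrank_eq hFG (hF.2.trans hG.2.symm)).symm
  exfalso
  have hB : Φ.B (m • w₀) v ≠ 0 := by
    rw [Φ.smul_left]
    apply mul_ne_zero hm
    intro h0
    apply hwe
    rw [span_le_orth]
    exact h0
  have hcard := Φ.card_t v (m • w₀) (hE.1.1 v hvE) hB
  rw [ht] at hcard
  have hsub := (Nat.card_eq_one_iff_unique.1 hcard).1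
  have h8 : Φ.S (m • w₀ + (0 : K) • v) := by
    rw [zero_smul, add_zero]
    exact Φ.S_smul m w₀ hwS
  have h9 := hsub.elim ⟨0, h8⟩ ⟨l, hg'S⟩
  exact hl (congrArg Subtype.val h9).symm

end PS

end Pool.Agent.Work.MP_bc729a_al.CG
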