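import Pool.Agent.Work.MP_bc729a_al.CO.Rgd
import Pool.Agent.Work.MP_bc729a_al.CO.Mxl
import Pool.Agent.Work.MP_bc729a_al.CG.Nn

/-! # Module Irg (M): the stabiliser of a regulus fixes no totally singular subspace

PROOF. `A = ℓ ⊔ m`, `C = orth A`, both nondegenerate of dimension `4` (`opp_nd`), `V = A ⊕ C` (`ND.sup`), `c = 3`. Let `z ≤ E` be a point (`TS.isPt`), `z = span {z₀}`, `z₀ = a + b`, `a ∈ A`, `b ∈ C`. Let `A' = A` if `a ≠ 0`, otherwise `A' = C`. `A'` is spanned by its points (`exists_pt`, `span_pts`), so there is a point `w ≤ A'` with `¬ z ≤ orth w` (`B z₀ w₀` is `B a w₀` or `B b w₀`; a component perpendicular to all points of `A'` would be in `A' ⊓ orth A' = ⊥`). `nn` (`v := z`, `w`, `A := A'`, `c ≤ 4`) gives `g`,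
`IsU w g`, trivial on `orth A'`, `¬ z.map g ≤ orth z`; `g ∈ D`. So `E.map g ≠ E` (`E ≤ orth E`), and it remains to show `toPG g ∈ stS D (Rg M ℓ m)`. `A.map g = A` (`g` is trivial on `A` or on `C`; `orth_map`). By `rg_iff` all `k ∈ Rg` are `≤ A`, so we need for lines `k ≤ A`: `k.map g ∈ Rg ↔ k ∈ Rg` (for other `k` both sides are false). If `A' = C`: `g` is trivial on `orth C = A`, `k.map g = k`.
If `A' = A`: `g` is trivial on `C`. There is a line `n ≤ C`: a solid `E₀ ≥ ℓ` (`ts_le_sd`), `E₀ ⊓ orth m` has dimension `≥ 2` and is `≤ orth ℓ ⊓ orth m = C`; take `n` in it (of dimension `2`). For a line `k ≤ A`: `k ⊔ n` is a solid (`TS.sup`; `k ⊓ n ≤ A ⊓ C = ⊥`), `(k ⊔ n) ⊓ (ℓ ⊔ n) = (k ⊓ ℓ) ⊔ n` (decompose in `A ⊕ C`), of dimension `finrank (k ⊓ ℓ) + 2`, so by `fam_even`: `(k ⊔ n ∈ M ↔ ℓ ⊔ n ∈ M) ↔ Even (finrank (k ⊓ ℓ))`. The same for the line `k.map g ≤ A`.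
`(k ⊔ n).map g = k.map g ⊔ n`, so `k ⊔ n ∈ M ↔ k.map g ⊔ n ∈ M` (`hM.inv` for `g` and `g⁻¹`). So `Even (finrank (k ⊓ ℓ)) ↔ Even (finrank (k.map g ⊓ ℓ))`, and `rg_iff`. -/

namespace Pool.Agent.Work.MP_bc729a_al.CG

open Module

universe u v

variable {K : Type u} {V : Type v} [Field K] [AddCommGroup V] [Module K V] [Finite K] [Finite V]

namespace PS

variable {Φ : PS K V}

/-- a point of `A` not perpendicular to a vector with nonzero component in `A` -/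
private theorem irg_pt {A : Submodule K V} (hA : Φ.ND A) (hA4 : finrank K A = 4) {a b : V}
    (ha : a ∈ A) (hb : b ∈ Φ.orth A) (ha0 : a ≠ 0) :
    ∃ w, Φ.IsPt w ∧ w ≤ A ∧ ¬ Submodule.span K {a + b} ≤ Φ.orth w := by
  obtain ⟨w₁, hw₁, hw₁A⟩ := exists_pt (Φ := Φ) (W := A) (by have := Φ.c_le; omega)
  by_contra hcon
  push Not at hcon
  have h1 : A ≤ Φ.orth (Submodule.span K {a}) := by
    rw [span_pts hA hw₁ hw₁A]
    apply sSup_le
    rintro w ⟨hw, hwA⟩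
    rw [Φ.le_orth_comm, Submodule.span_singleton_le_iff_mem]
    have h2 := hcon w hw hwA
    rw [Submodule.span_singleton_le_iff_mem] at h2
    have h3 := Submodule.sub_mem _ h2 (Φ.orth_anti hwA hb)
    rwa [add_sub_cancel_right] at h3
  have h2 : a ∈ A ⊓ Φ.orth A := by
    exact ⟨ha, Φ.le_orth_comm.1 h1 (Submodule.mem_span_singleton_self a)⟩
  rw [show A ⊓ Φ.orth A = ⊥ from hA] at h2
  exact ha0 ((Submodule.mem_bot K).1 h2)

private theorem irg_map_inv (k : Submodule K V) (g : V ≃ₗ[K] V) :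
    (k.map (g : V →ₗ[K] V)).map ((g⁻¹ : V ≃ₗ[K] V) : V →ₗ[K] V) = k := by
  ext v
  constructor
  · rintro ⟨_, ⟨u, hu, rfl⟩, rfl⟩
    have e2 : g⁻¹ (g u) = u := g.symm_apply_apply u
    change g⁻¹ (g u) ∈ k
    rw [e2]
    exact hu
  · intro hv
    exact ⟨g v, ⟨v, hv, rfl⟩, g.symm_apply_apply v⟩

private theorem irg_ln {k : Submodule K V} {g : V ≃ₗ[K] V} (hg : g ∈ Φ.Iso) :
    Φ.IsLn (k.map (g : V →ₗ[K] V)) ↔ Φ.IsLn k := by
  constructor
  · rintro ⟨h1, h2⟩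
    rw [finrank_map_eq] at h2
    have h3 := h1.map (Φ.Iso.inv_mem hg)
    rw [irg_map_inv] at h3
    exact ⟨h3, h2⟩
  · rintro ⟨h1, h2⟩
    exact ⟨h1.map hg, by rw [finrank_map_eq, h2]⟩

private theorem irg_triv {k : Submodule K V} {g : V ≃ₗ[K] V} (h : ∀ u ∈ k, g u = u) :
    k.map (g : V →ₗ[K] V) = k := by
  ext v
  constructor
  · rintro ⟨u, hu, rfl⟩
    have e : (g : V →ₗ[K] V) u = u := h u hu
    rw [e]
    exact hu
  · intro hv
    exact ⟨v, hv, h v hv⟩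

/-- the solid spanned by a line of `A` and a line of `orth A` -/
private theorem irg_sd {A k n : Submodule K V} (hA : Φ.ND A) (hk : Φ.IsLn k) (hkA : k ≤ A)
    (hn : Φ.IsLn n) (hnA : n ≤ Φ.orth A) : Φ.IsSd (k ⊔ n) := by
  refine ⟨hk.1.sup hn.1 (Φ.le_orth_comm.1 (hnA.trans (Φ.orth_anti hkA))), ?_⟩
  have h1 := Submodule.finrank_sup_add_finrank_inf_eq k n
  have h2 : k ⊓ n = ⊥ := by
    rw [eq_bot_iff, ← show A ⊓ Φ.orth A = ⊥ from hA]
    exact inf_le_inf hkA hnA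
  rw [h2, finrank_bot, hk.2, hn.2] at h1
  omega

private theorem irg_dim {A k l n : Submodule K V} (hA : Φ.ND A) (hkA : k ≤ A) (hlA : l ≤ A)
    (hn : Φ.IsLn n) (hnA : n ≤ Φ.orth A) :
    finrank K ↥((k ⊔ n) ⊓ (l ⊔ n)) = finrank K ↥(k ⊓ l) + 2 := by
  have h0 : ∀ v, v ∈ A → v ∈ Φ.orth A → v = 0 := by
    intro v h1 h2
    have h3 : v ∈ A ⊓ Φ.orth A := ⟨h1, h2⟩
    rw [show A ⊓ Φ.orth A = ⊥ from hA] at h3
    exact (Submodule.mem_bot K).1 h3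
  have h1 : (k ⊔ n) ⊓ (l ⊔ n) = (k ⊓ l) ⊔ n := by
    apply le_antisymm
    · rintro v ⟨hv1, hv2⟩
      obtain ⟨a, ha, c, hc, rfl⟩ := Submodule.mem_sup.1 hv1
      obtain ⟨a', ha', c', hc', he⟩ := Submodule.mem_sup.1 hv2
      have h2 : a - a' = 0 := by
        apply h0
        · exact A.sub_mem (hkA ha) (hlA ha')
        · have e : a - a' = c' - c := by
            have e1 : a = a' + c' - c := by rw [he, add_sub_cancel_right]
            rw [e1]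
            abel
          rw [e]
          exact Submodule.sub_mem _ (hnA hc') (hnA hc)
      have h3 : a = a' := sub_eq_zero.1 h2
      exact Submodule.mem_sup.2 ⟨a, ⟨ha, by rw [h3]; exact ha'⟩, c, hc, rfl⟩
    · exact sup_le (inf_le_inf le_sup_left le_sup_left) (le_inf le_sup_right le_sup_right)
  rw [h1]
  have h2 := Submodule.finrank_sup_add_finrank_inf_eq (k ⊓ l) n
  have h3 : (k ⊓ l) ⊓ n = ⊥ := by
    rw [eq_bot_iff, ← show A ⊓ Φ.orth A = ⊥ from hA]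
    exact inf_le_inf (inf_le_left.trans hkA) hnA
  rw [h3, finrank_bot, hn.2] at h2
  omega

/-- a line perpendicular to two opposite lines -/
private theorem irg_line {D : Subgroup (V ≃ₗ[K] V)} (hn : finrank K V = 8)
    {M : Set (Submodule K V)} (hM : Φ.Fam D M) {ℓ m : Submodule K V}
    (hℓ : Φ.IsLn ℓ) (hm : Φ.IsLn m) (hC : Φ.ND (Φ.orth (ℓ ⊔ m)))
    (hC4 : finrank K (Φ.orth (ℓ ⊔ m)) = 4) :
    ∃ n, Φ.IsLn n ∧ n ≤ Φ.orth (ℓ ⊔ m) := by
  obtain ⟨E₁, hE₁⟩ := hM.ne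
  obtain ⟨E₀, hE₀, hℓE⟩ := ts_le_sd hn ⟨E₁, hM.sd _ hE₁⟩ hℓ.1
  have h1 : Φ.TS (E₀ ⊓ Φ.orth m) := hE₀.1.mono inf_le_left
  have h2 : E₀ ⊓ Φ.orth m ≤ Φ.orth (ℓ ⊔ m) := by
    rw [Φ.orth_sup]
    exact inf_le_inf_right _ (hE₀.1.2.trans (Φ.orth_anti hℓE))
  refine ⟨E₀ ⊓ Φ.orth m, ⟨h1, ?_⟩, h2⟩
  have h3 := ts_dim hC h1 h2
  have h4 := Submodule.finrank_sup_add_finrank_inf_eq E₀ (Φ.orth m)
  have h5 := Φ.finrank_orth m
  have h6 : finrank K ↥(E₀ ⊔ Φ.orth m) ≤ finrank K V := Submodule.finrank_le _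
  have h7 := hE₀.2
  have h8 := hm.2
  omega

theorem irr8 {D : Subgroup (V ≃ₗ[K] V)} (hD : Φ.Grp D) (hn : finrank K V = 8)
    (ht : Φ.t = 1) {M : Set (Submodule K V)} (hM : Φ.Fam D M) {ℓ m : Submodule K V}
    (hℓ : Φ.IsLn ℓ) (hm : Φ.IsLn m) (h : ℓ ⊓ Φ.orth m = ⊥) {E : Submodule K V}
    (hE : Φ.TS E) (h0 : E ≠ ⊥) : ¬ stS D (Φ.Rg M ℓ m) ≤ stE D E := by
  intro hle
  obtain ⟨hA, hA4, -, -, -⟩ := opp_nd hℓ hm h
  have hC := hA.orth
  have hC4 : finrank K (Φ.orth (ℓ ⊔ m)) = 4 := by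
    have h1 := Φ.finrank_orth (ℓ ⊔ m)
    omega
  obtain ⟨n, hnl, hnC⟩ := irg_line hn hM hℓ hm hC hC4
  obtain ⟨z₀, hz₀, hz0⟩ := Submodule.exists_mem_ne_zero_of_ne_bot h0
  have hz : Φ.IsPt (Submodule.span K {z₀}) := hE.isPt hz₀ hz0
  have hzE : Submodule.span K {z₀} ≤ E := by
    rw [Submodule.span_singleton_le_iff_mem]
    exact hz₀
  -- the contradiction from an element of `D` preserving the regulus
  have key : ∀ g : V ≃ₗ[K] V, g ∈ D →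
      ¬ (Submodule.span K {z₀}).map (g : V →ₗ[K] V) ≤ Φ.orth (Submodule.span K {z₀}) →
      (∀ k, k.map (g : V →ₗ[K] V) ∈ Φ.Rg M ℓ m ↔ k ∈ Φ.Rg M ℓ m) → False := by
    intro g hg hgz hk
    have h1 : toPG hg ∈ stS D (Φ.Rg M ℓ m) := hk
    have h2 : E.map (g : V →ₗ[K] V) = E := hle h1
    apply hgz
    refine le_trans (Submodule.map_mono hzE) ?_
    rw [h2]
    exact hE.2.trans (Φ.orth_anti hzE)
  have hz1 : z₀ ∈ (ℓ ⊔ m) ⊔ Φ.orth (ℓ ⊔ m) := by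
    rw [hA.sup]
    exact Submodule.mem_top
  obtain ⟨a, ha, b, hb, hab⟩ := Submodule.mem_sup.1 hz1
  by_cases ha0 : a = 0
  · -- the element acts on `orth (ℓ ⊔ m)`
    have hb0 : b ≠ 0 := by
      rintro rfl
      rw [ha0, add_zero] at hab
      exact hz0 hab.symm
    have ha' : a ∈ Φ.orth (Φ.orth (ℓ ⊔ m)) := by
      rw [Φ.orth_orth]
      exact ha
    obtain ⟨w, hw, hwC, hzw⟩ := irg_pt hC hC4 hb ha' hb0
    rw [add_comm, hab] at hzw
    obtain ⟨g, hg, hgt, hgz⟩ := nn hz hw hC hwC hzw (by have := Φ.c_le; omega)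
    rw [Φ.orth_orth] at hgt
    refine key g (hD.u w hw hg) hgz fun k => ?_
    rw [rg_iff hD hn ht hM hℓ hm h, rg_iff hD hn ht hM hℓ hm h]
    have h1 : k.map (g : V →ₗ[K] V) ≤ ℓ ⊔ m ↔ k ≤ ℓ ⊔ m := by
      have h2 := irg_triv (k := ℓ ⊔ m) hgt
      rw [← map_le_map (g := g) (U := k), h2]
    constructor
    · rintro ⟨h3, h4, h5⟩
      have h6 := h1.1 h4
      rw [irg_triv fun u hu => hgt u (h6 hu)] at h3 h4 h5
      exact ⟨h3, h4, h5⟩
    · rintro ⟨h3, h4, h5⟩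
      rw [irg_triv fun u hu => hgt u (h4 hu)]
      exact ⟨h3, h4, h5⟩
  · -- the element acts on `ℓ ⊔ m`
    obtain ⟨w, hw, hwA, hzw⟩ := irg_pt hA hA4 ha hb ha0
    rw [hab] at hzw
    obtain ⟨g, hg, hgt, hgz⟩ := nn hz hw hA hwA hzw (by have := Φ.c_le; omega)
    have hgD : g ∈ D := hD.u w hw hg
    have hAg : (ℓ ⊔ m).map (g : V →ₗ[K] V) = ℓ ⊔ m := by
      have h1 := orth_map (W := Φ.orth (ℓ ⊔ m)) hg.1
      rw [irg_triv hgt, Φ.orth_orth] at h1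
      exact h1.symm
    have hng : n.map (g : V →ₗ[K] V) = n := irg_triv fun u hu => hgt u (hnC hu)
    have hℓA : ℓ ≤ ℓ ⊔ m := le_sup_left
    have hev : ∀ k, Φ.IsLn k → k ≤ ℓ ⊔ m →
        ((k ⊔ n ∈ M ↔ ℓ ⊔ n ∈ M) ↔ Even (finrank K ↥(k ⊓ ℓ))) := by
      intro k hk hkA
      have h1 := fam_even hn hM (irg_sd hA hk hkA hnl hnC) (irg_sd hA hℓ hℓA hnl hnC)
      rw [irg_dim hA hkA hℓA hnl hnC] at h1
      rw [h1, Nat.even_add]
      simp
    have hMg : ∀ k : Submodule K V, k.map (g : V →ₗ[K] V) ⊔ n ∈ M ↔ k ⊔ n ∈ M := by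
      intro k
      have h1 : (k ⊔ n).map (g : V →ₗ[K] V) = k.map (g : V →ₗ[K] V) ⊔ n := by
        rw [Submodule.map_sup, hng]
      constructor
      · intro h2
        rw [← h1] at h2
        have h3 := hM.inv _ (D.inv_mem hgD) _ h2
        rwa [irg_map_inv] at h3
      · intro h2
        have h3 := hM.inv _ hgD _ h2
        rwa [h1] at h3
    refine key g hgD hgz fun k => ?_
    rw [rg_iff hD hn ht hM hℓ hm h, rg_iff hD hn ht hM hℓ hm h, irg_ln hg.1]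
    have h1 : k.map (g : V →ₗ[K] V) ≤ ℓ ⊔ m ↔ k ≤ ℓ ⊔ m := by
      rw [← map_le_map (g := g) (U := k), hAg]
    rw [h1]
    refine and_congr_right fun hk => and_congr_right fun hkA => ?_
    rw [← hev k hk hkA, ← hev _ ((irg_ln hg.1).2 hk) (h1.2 hkA), hMg]

end PS

end Pool.Agent.Work.MP_bc729a_al.CG
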