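import Pool.Agent.Work.MP_bc729a_al.CO.Defs
import Pool.Agent.Work.MP_bc729a_al.CG.Hyp
import Pool.Agent.Work.MP_bc729a_al.CG.Tst
import Pool.Agent.Work.MP_bc729a_al.CG.TrnA
import Pool.Agent.Work.MP_bc729a_al.CG.StbA

/-! # Module Mvi (S-M): moving totally singular spaces

PROOF of `mv_in`. Case `E ≤ orth y`: `sep` (`z := y`): a point `w ≤ W`, `w ≤ orth E`, `¬ w ≤ orth y`; `e ≤ E` a point (`TS.isPt`), `e ≤ orth y`; `exists_opp2` (`W`, `y`, `e`): `w' ≤ W`, `¬ w' ≤ orth y`, `¬ w' ≤ orth e`. `u_trans` (`x := y`, `w`, `w'`): `g`, `IsU y g`, trivial on `orth W`, `w.map g = w'`. If `E.map g = E` then `w' ≤ orth E ≤ orth e` (`map_le_orth_map`), contradiction.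
Case `¬ E ≤ orth y`: there is a point `e ≤ E`, `¬ e ≤ orth y`. If `2 ≤ finrank E` there is a point `f ≤ E ⊓ orth y` (dimensions); `exists_opp2` (`y`, `f`): `w' ≤ W`, `¬ w' ≤ orth y`, `¬ w' ≤ orth f`; `u_trans` (`e`, `w'`): if `E.map g = E` then `w' ≤ E ≤ orth E ≤ orth f`, contradiction. If `finrank E = 1` then `E = e`, `two_opp` gives `w' ≠ e`, `w' ≤ W`, `¬ w' ≤ orth y`, and `u_trans` gives `g` with `E.map g = w' ≠ E`.
PROOF of `stE_ts_inj`. By symmetry it is enough that `E ≤ F`. Otherwise there is a point `x ≤ E`, `¬ x ≤ F` (`ts_pts` or `TS.isPt`). `mv_in` (`W = ⊤`): `g`, `IsU x g`, `F.map g ≠ F`; `g ∈ D`, `E.map g = E` (`IsU.map_line`, `E ≤ orth x`), so `toPG g ∈ stE D E = stE D F`, contradiction. -/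

namespace Pool.Agent.Work.MP_bc729a_al.CG

open Module

universe u v

variable {K : Type u} {V : Type v} [Field K] [AddCommGroup V] [Module K V] [Finite K] [Finite V]

namespace PS

variable {Φ : PS K V}

omit [Finite K] [Finite V] in
private theorem pt_not_leO {E F : Submodule K V} (hE : Φ.TS E) (h : ¬ E ≤ F) :
    ∃ e, Φ.IsPt e ∧ e ≤ E ∧ ¬ e ≤ F := by
  obtain ⟨v, hv, hvF⟩ := SetLike.not_le_iff_exists.1 h
  have h0 : v ≠ 0 := fun h1 => hvF (by rw [h1]; exact F.zero_mem)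
  refine ⟨Submodule.span K {v}, hE.isPt hv h0, ?_, ?_⟩
  · rw [Submodule.span_singleton_le_iff_mem]
    exact hv
  · rw [Submodule.span_singleton_le_iff_mem]
    exact hvF

theorem mv_in {W E y : Submodule K V} (hW : Φ.ND W) (hd : 3 ≤ finrank K W) (hE : Φ.TS E)
    (hEW : E ≤ W) (h0 : E ≠ ⊥) (hy : Φ.IsPt y) (hyW : y ≤ W) (h : ¬ y ≤ E) :
    ∃ g : V ≃ₗ[K] V, Φ.IsU y g ∧ (∀ v ∈ Φ.orth W, g v = v) ∧
      E.map (g : V →ₗ[K] V) ≠ E := by
  have hE0 : ¬ E ≤ ⊥ := fun h1 => h0 (le_bot_iff.1 h1)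
  by_cases hEy : E ≤ Φ.orth y
  · obtain ⟨w, hw, hwW, hwE, hwy⟩ := sep (Φ := Φ) hW hE hEW hy hyW h
    obtain ⟨e, he, heE, -⟩ := pt_not_leO hE hE0
    have hey : e ≤ Φ.orth y := heE.trans hEy
    obtain ⟨w', hw', hwW', hw'y, hw'e⟩ := exists_opp2 (Φ := Φ) hW hy hyW he (heE.trans hEW)
      (Φ.le_orth_comm.1 hey)
    obtain ⟨g, hg, hgW, hgw⟩ := u_trans (Φ := Φ) (W := W) hy hyW hw hwW hw' hwW' hwy hw'y
    refine ⟨g, hg, hgW, fun hgE => hw'e ?_⟩
    have h1 := (map_le_orth_map (Φ := Φ) (U := w) (W := E) hg.1).2 hwE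
    rw [hgw, hgE] at h1
    exact h1.trans (Φ.orth_anti heE)
  · obtain ⟨e, he, heE, hey⟩ := pt_not_leO hE hEy
    by_cases hf : E ⊓ Φ.orth y ≤ ⊥
    · have h2 := Submodule.finrank_sup_add_finrank_inf_eq E (Φ.orth y)
      rw [le_bot_iff.1 hf, finrank_bot] at h2
      have h3 := finrank_orth (Φ := Φ) y
      rw [hy.finrank] at h3
      have h4 := Submodule.finrank_le (E ⊔ Φ.orth y)
      have h5 : finrank K E ≤ finrank K e := by
        rw [he.finrank]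
        omega
      have heq : e = E := Submodule.eq_of_le_of_finrank_le heE h5
      obtain ⟨w', hw', hwW', hw'y, hw'e⟩ :=
        two_opp (Φ := Φ) (z := e) hW (Or.inl hd) hy hyW
      obtain ⟨g, hg, hgW, hgw⟩ := u_trans (Φ := Φ) (W := W) hy hyW he (heE.trans hEW) hw' hwW'
        hey hw'y
      refine ⟨g, hg, hgW, fun hgE => hw'e ?_⟩
      rw [← hgw]
      rw [← heq] at hgE
      exact hgE
    · obtain ⟨f, hfp, hfE, -⟩ := pt_not_leO (hE.mono inf_le_left) hf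
      have hfy : f ≤ Φ.orth y := hfE.trans inf_le_right
      have hfW : f ≤ W := (hfE.trans inf_le_left).trans hEW
      obtain ⟨w', hw', hwW', hw'y, hw'f⟩ := exists_opp2 (Φ := Φ) hW hy hyW hfp hfW
        (Φ.le_orth_comm.1 hfy)
      obtain ⟨g, hg, hgW, hgw⟩ := u_trans (Φ := Φ) (W := W) hy hyW he (heE.trans hEW) hw' hwW'
        hey hw'y
      refine ⟨g, hg, hgW, fun hgE => hw'f ?_⟩
      have h1 : e.map (g : V →ₗ[K] V) ≤ E.map (g : V →ₗ[K] V) := map_le_map.2 heE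
      rw [hgw, hgE] at h1
      exact h1.trans (hE.2.trans (Φ.orth_anti (hfE.trans inf_le_left)))

theorem stE_ts_inj {D : Subgroup (V ≃ₗ[K] V)} (hD : Φ.Grp D) (hn : 3 ≤ finrank K V)
    {E F : Submodule K V} (hE : Φ.TS E) (hF : Φ.TS F) (hE0 : E ≠ ⊥) (hF0 : F ≠ ⊥)
    (h : stE D E = stE D F) : E = F := by
  have hND : Φ.ND (⊤ : Submodule K V) := by
    unfold ND
    rw [orth_top, inf_bot_eq]
  have key : ∀ E F : Submodule K V, Φ.TS E → Φ.TS F → F ≠ ⊥ → stE D E = stE D F → E ≤ F := by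
    intro E F hE hF hF0 h
    by_contra hEF
    obtain ⟨x, hx, hxE, hxF⟩ := pt_not_leO hE hEF
    obtain ⟨g, hg, -, hgF⟩ := mv_in (Φ := Φ) (W := ⊤) hND (by rw [finrank_top]; exact hn) hF le_top
      hF0 hx le_top hxF
    have hgD : g ∈ D := hD.u x hx hg
    have h1 : toPG hgD ∈ stE D E := by
      rw [mem_stE, toPG_apply]
      exact hg.map_line hxE (hE.2.trans (Φ.orth_anti hxE))
    rw [h, mem_stE, toPG_apply] at h1
    exact hgF h1
  exact le_antisymm (key E F hE hF hF0 h) (key F E hF hE hE0 h.symm)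

end PS

end Pool.Agent.Work.MP_bc729a_al.CG
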