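import Pool.Agent.Work.MP_bc729a_al.CO.FmO
import Pool.Agent.Work.MP_bc729a_al.CO.Mvi

/-! # Module Ivc (M): involutory automorphisms and the three classes

PROOF of `act_ivn`. `stE D (f (f a)) = ((stE D a).map α).map α = stE D a` (`hα`, `Subgroup.map_map`), so `f (f a) = a` (`stE_ts_inj`; points and solids are totally singular, `≠ ⊥`). The same for `g`.
PROOF of `ivn_cls`. The points, `M`, `oth M` are pairwise disjoint (a solid is not a point), nonempty, every element of `Ob` is in one of them. `hA.cls` for the class of the points gives a class `C'`: `f a ∈ C' ↔ a` is a point. If `C'` is the class of the points: first case. If `C' = M`: put `M' = M`, `M'' = oth M` (`oth_fam`). If `a ∈ oth M` then `f a` is not in `M` (`f a ∈ M ↔ a` point), and not a point: otherwise `a = f (f a) ∈ M`. So `f a ∈ oth M`. If `C' = oth M`: put `M' = oth M`, `M'' = M`, the same argument. (The points exist: `hA` is not needed for this.) -/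

namespace Pool.Agent.Work.MP_bc729a_al.CG

open Module

universe u v

variable {K : Type u} {V : Type v} [Field K] [AddCommGroup V] [Module K V] [Finite K] [Finite V]

namespace PS

variable {Φ : PS K V}

omit [Finite K] [Finite V] in
private theorem ob_ts (a : Φ.Ob) : Φ.TS a.1 := by
  rcases a.2 with h | h
  · exact h.ts
  · exact h.1

omit [Finite K] [Finite V] in
private theorem ob_ne (a : Φ.Ob) : a.1 ≠ ⊥ := by
  rcases a.2 with h | h
  · exact h.ne_bot
  · intro h0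
    have h1 := h.2
    rw [h0, finrank_bot] at h1
    omega

omit [Finite K] [Finite V] in
private theorem ln_ne (ℓ : Φ.Lx) : ℓ.1 ≠ ⊥ := by
  intro h0
  have h1 := ℓ.2.2
  rw [h0, finrank_bot] at h1
  omega

omit [Finite K] [Finite V] in
private theorem not_pt_sd {E : Submodule K V} (h : Φ.IsSd E) : ¬ Φ.IsPt E := by
  intro h'
  have h1 := h'.finrank
  have h2 := h.2
  omega

theorem act_ivn {D : Subgroup (V ≃ₗ[K] V)} (hD : Φ.Grp D) (hn : finrank K V = 8)
    {M : Set (Submodule K V)} {α : MulAut ↥(PG D)} {f : Equiv.Perm Φ.Ob}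
    {g : Equiv.Perm Φ.Lx} (hA : Φ.Act D M α f g) (hα : ∀ s, α (α s) = s) :
    Φ.Ivn f g := by
  have key : ∀ H : Subgroup ↥(PG D), (H.map α.toMonoidHom).map α.toMonoidHom = H := by
    intro H
    rw [Subgroup.map_map]
    have h1 : α.toMonoidHom.comp α.toMonoidHom = MonoidHom.id ↥(PG D) := by
      ext1 s
      exact hα s
    rw [h1, Subgroup.map_id]
  refine ⟨fun a => ?_, fun ℓ => ?_, hA.inc⟩
  · have h1 : stE D (f (f a)).1 = stE D a.1 := by
      rw [← hA.ob (f a), ← hA.ob a, key]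
    exact Subtype.ext (stE_ts_inj hD (by omega) (ob_ts (f (f a))) (ob_ts a)
      (ob_ne (f (f a))) (ob_ne a) h1)
  · have h1 : stE D (g (g ℓ)).1 = stE D ℓ.1 := by
      rw [← hA.ln (g ℓ), ← hA.ln ℓ, key]
    exact Subtype.ext (stE_ts_inj hD (by omega) (g (g ℓ)).2.1 ℓ.2.1
      (ln_ne (g (g ℓ))) (ln_ne ℓ) h1)

theorem ivn_cls {D : Subgroup (V ≃ₗ[K] V)} (hD : Φ.Grp D) (hn : finrank K V = 8)
    (ht : Φ.t = 1) {M : Set (Submodule K V)} (hM : Φ.Fam D M) {α : MulAut ↥(PG D)}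
    {f : Equiv.Perm Φ.Ob} {g : Equiv.Perm Φ.Lx} (hA : Φ.Act D M α f g)
    (hI : Φ.Ivn f g) :
    (∀ a : Φ.Ob, Φ.IsPt a.1 → Φ.IsPt (f a).1) ∨
      ∃ M' M'' : Set (Submodule K V), Φ.Fam D M' ∧ Φ.Fam D M'' ∧
        (∀ a : Φ.Ob, Φ.IsPt a.1 → (f a).1 ∈ M') ∧
        ∀ a : Φ.Ob, a.1 ∈ M'' → (f a).1 ∈ M'' := by
  have ho := (oth_fam hD hn ht hM).1
  have key : ∀ M' M'' : Set (Submodule K V), Φ.Fam D M' → Φ.Fam D M'' →
      (∀ E, Φ.IsSd E → E ∉ M' → E ∈ M'') → (∀ E, E ∈ M'' → E ∉ M') →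
      (∀ a : Φ.Ob, (f a).1 ∈ M' ↔ Φ.IsPt a.1) →
      ∀ a : Φ.Ob, a.1 ∈ M'' → (f a).1 ∈ M'' := by
    intro M' M'' h' h'' h1 h2 h3 a ha
    have h4 : ¬ Φ.IsPt a.1 := not_pt_sd (h''.sd _ ha)
    have h5 : (f a).1 ∉ M' := fun h => h4 ((h3 a).1 h)
    have h6 : ¬ Φ.IsPt (f a).1 := by
      intro h
      have h7 := (h3 (f a)).2 h
      rw [hI.ff a] at h7
      exact h2 _ ha h7
    rcases (f a).2 with h | h
    · exact absurd h h6
    · exact h1 _ h h5
  obtain ⟨C', hC', hf⟩ := hA.cls {z | Φ.IsPt z} (Or.inl rfl)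
  rcases hC' with rfl | rfl | rfl
  · exact Or.inl fun a ha => (hf a).2 ha
  · refine Or.inr ⟨C', Φ.oth C', hM, ho, fun a ha => (hf a).2 ha, ?_⟩
    exact key C' (Φ.oth C') hM ho (fun E h1 h2 => ⟨h1, h2⟩) (fun E h => h.2) hf
  · refine Or.inr ⟨Φ.oth M, M, ho, hM, fun a ha => (hf a).2 ha, ?_⟩
    refine key (Φ.oth M) M ho hM (fun E h1 h2 => ?_) (fun E h h' => h'.2 h) hf
    by_contra h3
    exact h2 ⟨h1, h3⟩

end PS

end Pool.Agent.Work.MP_bc729a_al.CG
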