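import Pool.Agent.Work.MP_bc729a_al.CO.Nr
import Pool.Agent.Work.MP_bc729a_al.CO.Mvi
import Pool.Agent.Work.MP_bc729a_al.CG.Idxp

/-! # Module Rgm (M): automorphisms map reguli to reguli

Elements of a class (`IsC M C`) are points or solids (`hM.sd`), so they are (the values of) elements of `Ob`.
PROOF of `act_nr`. `Cl (f a) (f b) ↔ Cl a b` for `a, b : Ob`: `f a = f b ↔ a = b`, and the lines are the `g ℓ` (`hA.inc`). `Ic (f b) (g ℓ) ↔ Ic b ℓ`. The elements of `C'` are the `f b` with `b ∈ C` (`h`; `f` is bijective). So `Nr C' (f a) (g ℓ) ↔ Nr C a ℓ`.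
PROOF of `act_rg`. By `act_nr`, `hA.cls` (for `→`) and `hA.cls'` (for `←`, or the other way round): each class `C'` comes from a class `C` and conversely, elements `a' ∈ C'` are `f a`, `a ∈ C`.
PROOF of `act_opp`. Let `C` be the class of the points, `C'` from `hA.cls`. `opp_cls` for `C'`, `g ℓ`, `g m` and for `C`, `ℓ`, `m`, with `act_nr` and `hA.inc`.
PROOF of `act_map`. For `s : PG D` and lines `k, k'`: `s.1 k = k' ↔ (α s).1 (g k) = g k'`: `s.1 k = k'` iff `stE D k' = (stE D k).map (conj s)` (`stE_conj`, `stE_ts_inj`; `s.1 k` is a line, `exists_toPG`, `TS.map`) iff (apply `α`) `stE D (g k') = (stE D (g k)).map (conj (α s)) = stE D ((α s).1 (g k))` iff `g k' = (α s).1 (g k)`. `s ∈ stS D Z` for a set `Z` of lines iff `s.1 k ∈ Z ↔ k ∈ Z` for all lines `k` (`s.1` and `s.1.symm` preserve lines). With `act_rg`: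
`s ∈ stS D (Rg M ℓ m) ↔ α s ∈ stS D (Rg M (g ℓ) (g m))`. -/

namespace Pool.Agent.Work.MP_bc729a_al.CG

open Module

universe u v

variable {K : Type u} {V : Type v} [Field K] [AddCommGroup V] [Module K V] [Finite K] [Finite V]

namespace PS

variable {Φ : PS K V}

omit [Finite K] [Finite V] in
private theorem isC_ob {D : Subgroup (V ≃ₗ[K] V)} {M : Set (Submodule K V)} (hM : Φ.Fam D M)
    {C : Set (Submodule K V)} (hC : Φ.IsC M C) {b : Submodule K V} (hb : b ∈ C) :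
    Φ.IsPt b ∨ Φ.IsSd b := by
  rcases hC with rfl | rfl | rfl
  · exact Or.inl hb
  · exact Or.inr (hM.sd b hb)
  · exact Or.inr hb.1

omit [Finite K] [Finite V] in
private theorem act_cl {D : Subgroup (V ≃ₗ[K] V)} {M : Set (Submodule K V)}
    {α : MulAut ↥(PG D)} {f : Equiv.Perm Φ.Ob} {g : Equiv.Perm Φ.Lx} (hA : Φ.Act D M α f g)
    (a b : Φ.Ob) : Φ.Cl (f a).1 (f b).1 ↔ Φ.Cl a.1 b.1 := by
  constructor
  · rintro (h | ⟨ℓ, hℓ, h1, h2⟩)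
    · left
      exact congrArg Subtype.val (f.injective (Subtype.ext h))
    · right
      obtain ⟨k, hk⟩ := g.surjective ⟨ℓ, hℓ⟩
      have hk' : (g k).1 = ℓ := congrArg Subtype.val hk
      rw [← hk'] at h1 h2
      exact ⟨k.1, k.2, (hA.inc a k).1 h1, (hA.inc b k).1 h2⟩
  · rintro (h | ⟨ℓ, hℓ, h1, h2⟩)
    · left
      rw [show a = b from Subtype.ext h]
    · right
      exact ⟨(g ⟨ℓ, hℓ⟩).1, (g ⟨ℓ, hℓ⟩).2, (hA.inc a ⟨ℓ, hℓ⟩).2 h1, (hA.inc b ⟨ℓ, hℓ⟩).2 h2⟩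

theorem act_nr {D : Subgroup (V ≃ₗ[K] V)} {M : Set (Submodule K V)} (hM : Φ.Fam D M)
    {α : MulAut ↥(PG D)} {f : Equiv.Perm Φ.Ob} {g : Equiv.Perm Φ.Lx} (hA : Φ.Act D M α f g)
    {C C' : Set (Submodule K V)} (hC : Φ.IsC M C) (hC' : Φ.IsC M C')
    (h : ∀ a : Φ.Ob, (f a).1 ∈ C' ↔ a.1 ∈ C) (a : Φ.Ob) (ℓ : Φ.Lx) :
    Φ.Nr C' (f a).1 (g ℓ).1 ↔ Φ.Nr C a.1 ℓ.1 := by
  constructor
  · intro hn b hb hbℓ
    have hbo := isC_ob hM hC hb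
    have h1 := hn (f ⟨b, hbo⟩).1 ((h ⟨b, hbo⟩).2 hb) ((hA.inc ⟨b, hbo⟩ ℓ).2 hbℓ)
    exact (act_cl hA a ⟨b, hbo⟩).1 h1
  · intro hn b hb hbℓ
    have hbo := isC_ob hM hC' hb
    obtain ⟨c, hc⟩ := f.surjective ⟨b, hbo⟩
    have hc' : (f c).1 = b := congrArg Subtype.val hc
    rw [← hc'] at hb hbℓ ⊢
    exact (act_cl hA a c).2 (hn c.1 ((h c).1 hb) ((hA.inc c ℓ).1 hbℓ))

theorem act_rg {D : Subgroup (V ≃ₗ[K] V)} {M : Set (Submodule K V)} (hM : Φ.Fam D M)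
    {α : MulAut ↥(PG D)} {f : Equiv.Perm Φ.Ob} {g : Equiv.Perm Φ.Lx} (hA : Φ.Act D M α f g)
    (ℓ m k : Φ.Lx) : (g k).1 ∈ Φ.Rg M (g ℓ).1 (g m).1 ↔ k.1 ∈ Φ.Rg M ℓ.1 m.1 := by
  constructor
  · intro hk
    refine ⟨k.2, ?_⟩
    intro C hC a ha h1 h2
    obtain ⟨C', hC', h⟩ := hA.cls C hC
    have hao := isC_ob hM hC ha
    have h3 := hk.2 C' hC' (f ⟨a, hao⟩).1 ((h ⟨a, hao⟩).2 ha)
      ((act_nr hM hA hC hC' h ⟨a, hao⟩ ℓ).2 h1) ((act_nr hM hA hC hC' h ⟨a, hao⟩ m).2 h2)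
    exact (act_nr hM hA hC hC' h ⟨a, hao⟩ k).1 h3
  · intro hk
    refine ⟨(g k).2, ?_⟩
    intro C' hC' a ha h1 h2
    obtain ⟨C, hC, h⟩ := hA.cls' C' hC'
    have hao := isC_ob hM hC' ha
    obtain ⟨c, hc⟩ := f.surjective ⟨a, hao⟩
    have hc' : (f c).1 = a := congrArg Subtype.val hc
    rw [← hc'] at ha h1 h2 ⊢
    exact (act_nr hM hA hC hC' h c k).2 (hk.2 C hC c.1 ((h c).1 ha)
      ((act_nr hM hA hC hC' h c ℓ).1 h1) ((act_nr hM hA hC hC' h c m).1 h2))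

theorem act_opp {D : Subgroup (V ≃ₗ[K] V)} (hD : Φ.Grp D) (hn : finrank K V = 8)
    (ht : Φ.t = 1) {M : Set (Submodule K V)} (hM : Φ.Fam D M) {α : MulAut ↥(PG D)}
    {f : Equiv.Perm Φ.Ob} {g : Equiv.Perm Φ.Lx} (hA : Φ.Act D M α f g) (ℓ m : Φ.Lx) :
    (g ℓ).1 ⊓ Φ.orth (g m).1 = ⊥ ↔ ℓ.1 ⊓ Φ.orth m.1 = ⊥ := by
  have hC : Φ.IsC M {z | Φ.IsPt z} := Or.inl rfl
  obtain ⟨C', hC', h⟩ := hA.cls _ hC
  have e1 := opp_cls hD hn ht hM hC' (g ℓ).2 (g m).2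
  have e2 := opp_cls hD hn ht hM hC ℓ.2 m.2
  rw [← not_iff_not]
  refine e1.symm.trans (Iff.trans ?_ e2)
  constructor
  · rintro ⟨a, ha, h1, h2⟩
    have hao := isC_ob hM hC' ha
    obtain ⟨c, hc⟩ := f.surjective ⟨a, hao⟩
    have hc' : (f c).1 = a := congrArg Subtype.val hc
    rw [← hc'] at ha h1 h2
    exact ⟨c.1, (h c).1 ha, (hA.inc c ℓ).1 h1, (act_nr hM hA hC hC' h c m).1 h2⟩
  · rintro ⟨a, ha, h1, h2⟩
    have hao := isC_ob hM hC ha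
    exact ⟨(f ⟨a, hao⟩).1, (h ⟨a, hao⟩).2 ha, (hA.inc ⟨a, hao⟩ ℓ).2 h1,
      (act_nr hM hA hC hC' h ⟨a, hao⟩ m).2 h2⟩

omit [Finite K] [Finite V] in
private theorem ln_map {D : Subgroup (V ≃ₗ[K] V)} (hD : Φ.Grp D) (s : ↥(PG D))
    {k : Submodule K V} (hk : Φ.IsLn k) : Φ.IsLn (s.1 k) := by
  obtain ⟨h, hh, rfl⟩ := exists_toPG s
  refine ⟨?_, ?_⟩
  · rw [toPG_apply]
    exact hk.1.map (hD.le hh)
  · rw [toPG_apply, LinearEquiv.finrank_map_eq]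
    exact hk.2

omit [Finite K] [Finite V] in
private theorem mem_stS_ln {D : Subgroup (V ≃ₗ[K] V)} (hD : Φ.Grp D)
    {Z : Set (Submodule K V)} (hZ : ∀ z ∈ Z, Φ.IsLn z) {s : ↥(PG D)} :
    s ∈ stS D Z ↔ ∀ k : Φ.Lx, s.1 k.1 ∈ Z ↔ k.1 ∈ Z := by
  rw [mem_stS]
  constructor
  · intro h k
    exact h k.1
  · intro h z
    by_cases hz : Φ.IsLn z
    · exact h ⟨z, hz⟩
    · constructor
      · intro h1
        exfalso
        apply hz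
        have h2 := ln_map hD s⁻¹ (hZ _ h1)
        have h3 : (s⁻¹).1 (s.1 z) = z := s.1.symm_apply_apply z
        rw [h3] at h2
        exact h2
      · intro h1
        exact absurd (hZ _ h1) hz

private theorem act_ln {D : Subgroup (V ≃ₗ[K] V)} (hD : Φ.Grp D) (hn : finrank K V = 8)
    {M : Set (Submodule K V)} {α : MulAut ↥(PG D)} {f : Equiv.Perm Φ.Ob}
    {g : Equiv.Perm Φ.Lx} (hA : Φ.Act D M α f g) (s : ↥(PG D)) (k k' : Φ.Lx)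
    (h : s.1 k.1 = k'.1) : (α s).1 (g k).1 = (g k').1 := by
  have h1 : stE D (g k').1 = stE D ((α s).1 (g k).1) := by
    rw [← stE_conj, ← hA.ln k, ← hA.ln k', ← h, ← stE_conj, Subgroup.map_map,
      Subgroup.map_map]
    congr 1
    ext t : 1
    simp
  have h0 : ∀ {E : Submodule K V}, Φ.IsLn E → E ≠ ⊥ := by
    rintro E hE rfl
    have h2 := hE.2
    rw [finrank_bot] at h2
    omega
  have hL := ln_map hD (α s) (g k).2
  exact (stE_ts_inj hD (by omega) (g k').2.1 hL.1 (h0 (g k').2) (h0 hL) h1).symm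

theorem act_map {D : Subgroup (V ≃ₗ[K] V)} (hD : Φ.Grp D) (hn : finrank K V = 8)
    {M : Set (Submodule K V)} (hM : Φ.Fam D M) {α : MulAut ↥(PG D)} {f : Equiv.Perm Φ.Ob}
    {g : Equiv.Perm Φ.Lx} (hA : Φ.Act D M α f g) (ℓ m : Φ.Lx) :
    (stS D (Φ.Rg M ℓ.1 m.1)).map α.toMonoidHom = stS D (Φ.Rg M (g ℓ).1 (g m).1) := by
  have hZ : ∀ z ∈ Φ.Rg M ℓ.1 m.1, Φ.IsLn z := fun z hz => hz.1
  have hZ' : ∀ z ∈ Φ.Rg M (g ℓ).1 (g m).1, Φ.IsLn z := fun z hz => hz.1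
  have hrg : ∀ k : Φ.Lx, (g k).1 ∈ Φ.Rg M (g ℓ).1 (g m).1 ↔ k.1 ∈ Φ.Rg M ℓ.1 m.1 :=
    fun k => act_rg hM hA ℓ m k
  have key : ∀ s : ↥(PG D), s ∈ stS D (Φ.Rg M ℓ.1 m.1) ↔
      α s ∈ stS D (Φ.Rg M (g ℓ).1 (g m).1) := by
    intro s
    rw [mem_stS_ln hD hZ, mem_stS_ln hD hZ']
    constructor
    · intro h k'
      obtain ⟨k, rfl⟩ := g.surjective k'
      rw [act_ln hD hn hA s k ⟨s.1 k.1, ln_map hD s k.2⟩ rfl, hrg, hrg]
      exact h k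
    · intro h k
      have h1 := h (g k)
      rw [act_ln hD hn hA s k ⟨s.1 k.1, ln_map hD s k.2⟩ rfl, hrg, hrg] at h1
      exact h1
  ext t
  rw [Subgroup.mem_map]
  constructor
  · rintro ⟨s, hs, rfl⟩
    exact (key s).1 hs
  · intro ht
    refine ⟨α.symm t, ?_, α.apply_symm_apply t⟩
    rw [key, α.apply_symm_apply]
    exact ht

end PS

end Pool.Agent.Work.MP_bc729a_al.CG
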