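import Pool.Agent.Work.MP_bc729a_al.CO.Ac
import Pool.Agent.Work.MP_bc729a_al.CO.Rgm
import Pool.Agent.Work.MP_bc729a_al.CO.Irg
import Pool.Agent.Work.MP_bc729a_al.CO.DgM
import Pool.Agent.Work.MP_bc729a_al.CO.DgP
import Pool.Agent.Work.MP_bc729a_al.CO.Ivc
import Pool.Agent.Work.MP_bc729a_al.CG.Bt
import Pool.Agent.Work.MP_bc729a_al.CG.Pts
import Pool.Agent.Work.MP_bc729a_al.CG.TrnB
import Pool.Agent.Work.MP_bc729a_al.CG.TrnA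

/-! # Module MnE8 (M): the main theorem in dimension eight, even fields

PROOF. (Compare CG/PMainB.) `CharP K 2`, `c = 3` (`typ`, `ht`). Let `ℓ, m` be lines, `ℓ ⊓ orth m = ⊥` (`exists_quad` with `W = ⊤`, `quad_opp`), `H = stS D (Rg M ℓ m)`. `H ≠ ⊥` by `irr8` (`E` a point). `H ≠ ⊤`: `ℓ ∈ Rg M ℓ m` (`rg_iff`: `finrank ℓ = 2`); if `H = ⊤` then every line, being `ℓ.map g` with `g ∈ D` (`trans_ln`), is in `Rg M ℓ m`, so `≤ ℓ ⊔ m`; `ℓ` is contained in `ℓ ⊔ m` of dimension `4`; but every point is on a line (`trans_pt`) and `⊤` is spanned by its points (`span_pts`), contradiction.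
(*) For opposite lines `ℓ₁, m₁` there is `a : PG D` with `stS D (Rg M ℓ₁ m₁) = MulAut.conj a • H`: `trans_opp`: `g ∈ D`, `ℓ.map g = ℓ₁`, `m.map g = m₁`; by `rg_iff` `k.map g ∈ Rg M ℓ₁ m₁ ↔ k ∈ Rg M ℓ m` (`(k ⊓ ℓ).map g = k.map g ⊓ ℓ₁`, `finrank_map_eq`), and `a = toPG g`. For `α : MulAut (PG D)`: `f, g` from `exists_act`; `act_opp`, `act_map`: `H.map α = stS D (Rg M (g ℓ) (g m))`, a conjugate of `H` by (*). So `hX.main` applies: `R ≥ H`, `R ≠ ⊤`.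
If `2 ∣ R.index` there is `α ∈ X`, `α ^ 2 = 1`, fixing no `MulAut.conj a • H`. `f, g` from `exists_act`, `act_ivn`, `ivn_cls`; `dag_P` or `dag_M` (for `M''`) gives opposite lines `ℓ₁, m₁` with `g ℓ₁ = ℓ₁`, `g m₁ = m₁` or `g ℓ₁ = m₁`, `g m₁ = ℓ₁`. By `act_map` and `Rg_comm` `(stS D (Rg M ℓ₁ m₁)).map α = stS D (Rg M ℓ₁ m₁)`, contradiction to (*). If `¬ 2 ∣ R.index`: `bt` (`R₀ = R`, `Z` all points, `pn_mod`) gives `E`, `TS E`, `E ≠ ⊥`, `H ≤ R ≤ stE D E`, contradiction to `irr8`. -/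

namespace Pool.Agent.Work.MP_bc729a_al.CG

open Module

universe u v

variable {K : Type u} {V : Type v} [Field K] [AddCommGroup V] [Module K V] [Finite K] [Finite V]

namespace PS

variable {Φ : PS K V}

omit [Finite K] [Finite V] in
private theorem stS_conj_aux {D : Subgroup (V ≃ₗ[K] V)} (s : ↥(PG D))
    {Z Z₁ : Set (Submodule K V)} (h : ∀ k, s.1 k ∈ Z₁ ↔ k ∈ Z) :
    stS D Z₁ = (stS D Z).map (MulAut.conj s).toMonoidHom := by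
  ext r
  rw [Subgroup.mem_map, mem_stS]
  constructor
  · intro hr
    refine ⟨s⁻¹ * r * s, ?_, ?_⟩
    · rw [mem_stS]
      intro z
      change s.1.symm (r.1 (s.1 z)) ∈ Z ↔ z ∈ Z
      rw [← h (s.1.symm (r.1 (s.1 z))), OrderIso.apply_symm_apply, hr, h]
    · change s * (s⁻¹ * r * s) * s⁻¹ = r
      group
  · rintro ⟨q, hq, rfl⟩ z
    rw [mem_stS] at hq
    change s.1 (q.1 (s.1.symm z)) ∈ Z₁ ↔ z ∈ Z₁
    rw [h, hq, ← h, OrderIso.apply_symm_apply]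

omit [Finite K] [Finite V] in
private theorem map_symm_aux (g : V ≃ₗ[K] V) (k : Submodule K V) :
    (k.map (g : V →ₗ[K] V)).map ((g⁻¹ : V ≃ₗ[K] V) : V →ₗ[K] V) = k := by
  rw [← Submodule.map_comp]
  have h : ((g⁻¹ : V ≃ₗ[K] V) : V →ₗ[K] V) ∘ₗ (g : V →ₗ[K] V) = LinearMap.id := by
    ext v
    exact g.symm_apply_apply v
  rw [h, Submodule.map_id]

omit [Finite K] [Finite V] in
private theorem isLn_map_aux {k : Submodule K V} (hk : Φ.IsLn k) {g : V ≃ₗ[K] V}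
    (hg : g ∈ Φ.Iso) : Φ.IsLn (k.map (g : V →ₗ[K] V)) :=
  ⟨hk.1.map hg, by rw [finrank_map_eq, hk.2]⟩

private theorem rg_map_aux {D : Subgroup (V ≃ₗ[K] V)} (hD : Φ.Grp D) (hn : finrank K V = 8)
    (ht : Φ.t = 1) {M : Set (Submodule K V)} (hM : Φ.Fam D M) {ℓ m ℓ₁ m₁ : Submodule K V}
    (hℓ : Φ.IsLn ℓ) (hm : Φ.IsLn m) (h : ℓ ⊓ Φ.orth m = ⊥)
    (hℓ₁ : Φ.IsLn ℓ₁) (hm₁ : Φ.IsLn m₁) (h₁ : ℓ₁ ⊓ Φ.orth m₁ = ⊥)
    {g : V ≃ₗ[K] V} (hg : g ∈ D) (e1 : ℓ.map (g : V →ₗ[K] V) = ℓ₁)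
    (e2 : m.map (g : V →ₗ[K] V) = m₁) (k : Submodule K V) :
    k.map (g : V →ₗ[K] V) ∈ Φ.Rg M ℓ₁ m₁ ↔ k ∈ Φ.Rg M ℓ m := by
  rw [rg_iff hD hn ht hM hℓ₁ hm₁ h₁, rg_iff hD hn ht hM hℓ hm h]
  have hgI := hD.le hg
  have a1 : Φ.IsLn (k.map (g : V →ₗ[K] V)) ↔ Φ.IsLn k := by
    constructor
    · intro h3
      have h4 := isLn_map_aux h3 (Φ.Iso.inv_mem hgI)
      rwa [map_symm_aux] at h4
    · intro h3
      exact isLn_map_aux h3 hgI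
  have a2 : k.map (g : V →ₗ[K] V) ≤ ℓ₁ ⊔ m₁ ↔ k ≤ ℓ ⊔ m := by
    rw [← e1, ← e2, ← Submodule.map_sup]
    exact map_le_map
  have a3 : finrank K ↥(k.map (g : V →ₗ[K] V) ⊓ ℓ₁) = finrank K ↥(k ⊓ ℓ) := by
    rw [← e1, ← Submodule.map_inf (g : V →ₗ[K] V) g.injective, finrank_map_eq]
  rw [a1, a2, a3]

open scoped Pointwise in
private theorem conj_aux {D : Subgroup (V ≃ₗ[K] V)} (hD : Φ.Grp D) (hn : finrank K V = 8)
    (ht : Φ.t = 1) {M : Set (Submodule K V)} (hM : Φ.Fam D M) {ℓ m ℓ₁ m₁ : Submodule K V}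
    (hℓ : Φ.IsLn ℓ) (hm : Φ.IsLn m) (h : ℓ ⊓ Φ.orth m = ⊥)
    (hℓ₁ : Φ.IsLn ℓ₁) (hm₁ : Φ.IsLn m₁) (h₁ : ℓ₁ ⊓ Φ.orth m₁ = ⊥) :
    ∃ a : ↥(PG D), stS D (Φ.Rg M ℓ₁ m₁) = MulAut.conj a • stS D (Φ.Rg M ℓ m) := by
  obtain ⟨g, hg, e1, e2⟩ := trans_opp hD (by omega) hℓ hm h hℓ₁ hm₁ h₁
  refine ⟨toPG hg, ?_⟩
  refine stS_conj_aux (toPG hg) fun k => ?_
  rw [toPG_apply]
  exact rg_map_aux hD hn ht hM hℓ hm h hℓ₁ hm₁ h₁ hg e1 e2 k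

theorem main_even8 {D : Subgroup (V ≃ₗ[K] V)} (hD : Φ.Grp D) [IsSimpleGroup ↥(PG D)]
    (hn : finrank K V = 8) (ht : Φ.t = 1) {M : Set (Submodule K V)} (hM : Φ.Fam D M)
    (heven : Even (Nat.card K)) {X : Subgroup (MulAut ↥(PG D))}
    (hX : LA.Red ↥(PG D) X) : False := by
  have hc1 := Φ.one_le_c
  have hc3 := Φ.c_le
  have hn5 : 5 ≤ finrank K V := by omega
  have hF2 : Fact (Nat.Prime 2) := ⟨Nat.prime_two⟩
  have hch : CharP K 2 := by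
    have := Fintype.ofFinite K
    rw [Nat.card_eq_fintype_card] at heven
    have h : ringChar K = 2 := FiniteField.even_card_iff_char_two.2 (Nat.even_iff.1 heven)
    rw [← h]
    exact ringChar.charP K
  obtain ⟨x, y, x', y', hq, -⟩ := exists_quad (Φ := Φ) (W := ⊤) ND_top
    (by rw [finrank_top]; omega)
  obtain ⟨hℓ, hm, hop⟩ := quad_opp hq
  obtain ⟨ℓ, hℓe⟩ : ∃ ℓ, ℓ = x ⊔ x' := ⟨_, rfl⟩
  obtain ⟨m, hme⟩ : ∃ m, m = y ⊔ y' := ⟨_, rfl⟩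
  rw [← hℓe] at hℓ hop
  rw [← hme] at hm hop
  have hirr : ∀ E, Φ.TS E → E ≠ ⊥ → ¬ stS D (Φ.Rg M ℓ m) ≤ stE D E :=
    fun E hE h0 => irr8 hD hn ht hM hℓ hm hop hE h0
  have hbot : stS D (Φ.Rg M ℓ m) ≠ ⊥ := by
    intro h
    apply hirr x hq.px.ts hq.px.ne_bot
    rw [h]
    exact bot_le
  have htop : stS D (Φ.Rg M ℓ m) ≠ ⊤ := by
    intro h
    have hℓm : ℓ ∈ Φ.Rg M ℓ m := by
      rw [rg_iff hD hn ht hM hℓ hm hop]
      refine ⟨hℓ, le_sup_left, ?_⟩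
      rw [inf_idem, hℓ.2]
      decide
    have hall : ∀ k, Φ.IsLn k → k ≤ ℓ ⊔ m := by
      intro k hk
      obtain ⟨g, hg, e⟩ := trans_ln hD hn5 hℓ hk
      have h2 : toPG hg ∈ stS D (Φ.Rg M ℓ m) := by
        rw [h]
        exact Subgroup.mem_top _
      rw [mem_stS] at h2
      have h3 := (h2 ℓ).2 hℓm
      rw [toPG_apply, e, rg_iff hD hn ht hM hℓ hm hop] at h3
      exact h3.2.1
    have h1 : ∀ z, Φ.IsPt z → z ≤ ℓ ⊔ m := by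
      intro z hz
      obtain ⟨g, hg, -, e⟩ := trans_pt hD (W := ⊤) ND_top
        (Or.inl (by rw [finrank_top]; omega)) hq.px le_top hz le_top
      have h2 : x ≤ ℓ := by
        rw [hℓe]
        exact le_sup_left
      rw [← e]
      exact (Submodule.map_mono h2).trans (hall _ (isLn_map_aux hℓ (hD.le hg)))
    have h2 := span_pts (W := ⊤) ND_top hq.px le_top
    have h3 : (⊤ : Submodule K V) ≤ ℓ ⊔ m := by
      rw [h2]
      exact sSup_le fun z hz => h1 z hz.1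
    have h4 := (opp_nd hℓ hm hop).2.1
    rw [top_le_iff.1 h3, finrank_top] at h4
    omega
  have hconj := fun (ℓ₁ m₁ : Submodule K V) (h1 : Φ.IsLn ℓ₁) (h2 : Φ.IsLn m₁)
    (h3 : ℓ₁ ⊓ Φ.orth m₁ = ⊥) => conj_aux hD hn ht hM hℓ hm hop h1 h2 h3
  obtain ⟨R, T, -, hHR, hRt, -, -, -, -, hp⟩ := hX.main _ htop hbot (fun α _ => by
    obtain ⟨f, g, hA⟩ := exists_act hD hn ht hM α
    have h1 := (act_opp hD hn ht hM hA ⟨ℓ, hℓ⟩ ⟨m, hm⟩).2 hop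
    obtain ⟨a, ha⟩ := hconj _ _ (g ⟨ℓ, hℓ⟩).2 (g ⟨m, hm⟩).2 h1
    exact ⟨a, (act_map hD hn hM hA ⟨ℓ, hℓ⟩ ⟨m, hm⟩).trans ha⟩)
  by_cases h2 : 2 ∣ R.index
  · obtain ⟨α, -, hα2, hno⟩ := hp 2 Nat.prime_two h2
    obtain ⟨f, g, hA⟩ := exists_act hD hn ht hM α
    have hα : ∀ s, α (α s) = s := by
      intro s
      have h5 : (α ^ 2) s = s := by
        rw [hα2]
        rfl
      rw [pow_two] at h5
      exact h5
    have hI := act_ivn hD hn hA hα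
    have hex : ∃ ℓ₁ m₁ : Φ.Lx, ℓ₁.1 ⊓ Φ.orth m₁.1 = ⊥ ∧
        ((g ℓ₁ = ℓ₁ ∧ g m₁ = m₁) ∨ (g ℓ₁ = m₁ ∧ g m₁ = ℓ₁)) := by
      rcases ivn_cls hD hn ht hM hA hI with h | ⟨M', M'', -, hM'', -, h⟩
      · exact dag_P hn hI h
      · exact dag_M hn hM'' hI h
    obtain ⟨ℓ₁, m₁, h3, h4⟩ := hex
    obtain ⟨a, ha⟩ := hconj _ _ ℓ₁.2 m₁.2 h3
    have h5 := act_map hD hn hM hA ℓ₁ m₁
    have h6 : stS D (Φ.Rg M (g ℓ₁).1 (g m₁).1) = stS D (Φ.Rg M ℓ₁.1 m₁.1) := by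
      rcases h4 with ⟨e1, e2⟩ | ⟨e1, e2⟩
      · rw [e1, e2]
      · rw [e1, e2, Rg_comm]
    rw [h6, ha] at h5
    exact hno a h5
  · have hcard : Nat.card {z : Submodule K V | Φ.IsPt z} = Φ.pn ⊤ := by
      apply Nat.card_congr
      exact Equiv.subtypeEquivRight fun z => ⟨fun h => ⟨h, le_top⟩, fun h => h.1⟩
    obtain ⟨z, hz, E, hE, hzE, hRE⟩ := bt hD (by omega : 3 ≤ finrank K V) (p := 2)
      (le_refl R) h2 hRt (Z := {z | Φ.IsPt z}) (fun z hz => hz) (by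
        rw [hcard]
        have h3 := pn_mod (Φ := Φ) (p := 2) (W := ⊤) (by rw [finrank_top]; omega)
        intro h4
        have h5 := (Nat.modEq_zero_iff_dvd.2 h4).symm.trans h3
        exact absurd h5 (by decide)) (by
        intro s _ z hz
        obtain ⟨g, hg, rfl⟩ := exists_toPG s
        exact IsPt.map hz (hD.le hg))
    apply hirr E hE _ (hHR.trans hRE)
    rintro rfl
    exact (IsPt.ne_bot hz) (le_bot_iff.1 hzE)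

end PS

end Pool.Agent.Work.MP_bc729a_al.CG
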