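import Pool.Agent.Work.MP_bc729a_al.CO.Defs
import Pool.Agent.Work.MP_bc729a_al.CG.Hyp
import Pool.Agent.Work.MP_bc729a_al.CG.Dsc

/-! # Module Stp (M): steps between solids

For a solid `F` `orth F = F` (`F ≤ orth F`, `finrank_orth`).
PROOF of `sd_step`. `E` is not `≤ F` (dimensions), so there is a point `e ≤ E`, `¬ e ≤ F` (`TS.isPt`). `F` is not `≤ orth e` (otherwise `e ≤ orth F = F`), so `finrank (F ⊓ orth e) = 3`. `F₁ = (F ⊓ orth e) ⊔ e` is totally singular (`TS.sup`), of dimension `4`. `F ⊓ F₁ = F ⊓ orth e` (modular law, `F ⊓ e = ⊥`). `E ⊓ F ≤ orth e` (`E ≤ orth E ≤ orth e`), so `E ⊓ F₁ = (E ⊓ F ⊓ orth e) ⊔ e = (E ⊓ F) ⊔ e` (modular law, `e ≤ E`),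
of dimension `finrank (E ⊓ F) + 1`.
PROOF of `ext_sd`. Induction on `4 - finrank m` (`finrank m ≤ 4` by `ts_dim`, `W = ⊤`). If `finrank m = 4` take `G = m`. Otherwise `finrank (F ⊓ orth m) ≥ 4 - finrank m > 0` (`finrank_orth`, `Submodule.finrank_sup_add_finrank_inf_eq`), so there is a point `e ≤ F ⊓ orth m` (`TS.isPt`), `¬ e ≤ m` (as `m ⊓ F = ⊥`). `sep` (`W = ⊤`, `E := m`, `z := e`): a point `w ≤ orth m`, `¬ w ≤ orth e`. `m' = m ⊔ w` is totally singular
(`TS.sup`), of dimension `finrank m + 1` (`m ≤ orth e` by `le_orth_comm`, so `¬ w ≤ m`). `m' ⊓ F = ⊥`: let `v = a + c • w₀ ∈ F`, `a ∈ m`, `w = span {w₀}`, `e = span {e₀}`: `0 = B v e₀ = B a e₀ + c * B w₀ e₀ = c * B w₀ e₀`, so `c = 0`, `v ∈ m ⊓ F`. Apply the induction hypothesis to `m'`. -/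

namespace Pool.Agent.Work.MP_bc729a_al.CG

open Module

universe u v

variable {K : Type u} {V : Type v} [Field K] [AddCommGroup V] [Module K V] [Finite K] [Finite V]

namespace PS

variable {Φ : PS K V}

private theorem sd_orth (hn : finrank K V = 8) {F : Submodule K V} (hF : Φ.IsSd F) :
    Φ.orth F = F := by
  symm
  apply Submodule.eq_of_le_of_finrank_eq hF.1.2
  have h := finrank_orth (Φ := Φ) F
  rw [hF.2, hn] at h
  rw [hF.2]
  omega

private theorem inf_orth_pt {W e : Submodule K V} (he : Φ.IsPt e) (h : ¬ W ≤ Φ.orth e) :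
    finrank K ↥(W ⊓ Φ.orth e) + 1 = finrank K W := by
  have h1 := finrank_orth (Φ := Φ) e
  rw [he.finrank] at h1
  have h2 := Submodule.finrank_sup_add_finrank_inf_eq W (Φ.orth e)
  have h3 : Φ.orth e < W ⊔ Φ.orth e := by
    refine lt_of_le_of_ne le_sup_right fun hh => h ?_
    rw [hh]
    exact le_sup_left
  have h4 := Submodule.finrank_lt_finrank_of_lt h3
  have h5 : finrank K ↥(W ⊔ Φ.orth e) ≤ finrank K V := Submodule.finrank_le _
  omega

theorem sd_step (hn : finrank K V = 8) {E F : Submodule K V} (hE : Φ.IsSd E)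
    (hF : Φ.IsSd F) (h : E ≠ F) :
    ∃ F₁, Φ.IsSd F₁ ∧ finrank K ↥(F ⊓ F₁) = 3 ∧
      finrank K ↥(E ⊓ F₁) = finrank K ↥(E ⊓ F) + 1 := by
  have hnle : ¬ E ≤ F := fun hh =>
    h (Submodule.eq_of_le_of_finrank_eq hh (hE.2.trans hF.2.symm))
  obtain ⟨v, hvE, hvF⟩ := SetLike.not_le_iff_exists.1 hnle
  have hv0 : v ≠ 0 := by
    rintro rfl
    exact hvF F.zero_mem
  set e := Submodule.span K {v} with he_def
  have he : Φ.IsPt e := hE.1.isPt hvE hv0
  have heE : e ≤ E := by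
    rw [he_def, Submodule.span_singleton_le_iff_mem]
    exact hvE
  have heF : ¬ e ≤ F := by
    rw [he_def, Submodule.span_singleton_le_iff_mem]
    exact hvF
  have hFe : ¬ F ≤ Φ.orth e := by
    intro hh
    apply heF
    rw [← sd_orth hn hF]
    exact Φ.le_orth_comm.1 hh
  have h3 := inf_orth_pt he hFe
  rw [hF.2] at h3
  have hEe : E ≤ Φ.orth e := hE.1.2.trans (Φ.orth_anti heE)
  have hbot : e ⊓ F = ⊥ := he.inf_eq_bot heF
  have hF₁ : Φ.TS (F ⊓ Φ.orth e ⊔ e) := (hF.1.mono inf_le_left).sup he.ts inf_le_right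
  have hdim := Submodule.finrank_sup_add_finrank_inf_eq (F ⊓ Φ.orth e) e
  have hinf : F ⊓ Φ.orth e ⊓ e = ⊥ := by
    rw [eq_bot_iff, ← hbot]
    exact le_inf inf_le_right (inf_le_left.trans inf_le_left)
  rw [hinf, finrank_bot, he.finrank] at hdim
  refine ⟨F ⊓ Φ.orth e ⊔ e, ⟨hF₁, by omega⟩, ?_, ?_⟩
  · rw [inf_comm F, sup_inf_assoc_of_le e (inf_le_left : F ⊓ Φ.orth e ≤ F), hbot, sup_bot_eq]
    omega
  · have h5 : E ⊓ (F ⊓ Φ.orth e ⊔ e) = e ⊔ E ⊓ F := by
      rw [inf_comm, sup_comm, sup_inf_assoc_of_le (F ⊓ Φ.orth e) heE]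
      congr 1
      apply le_antisymm
      · exact le_inf inf_le_right (inf_le_left.trans inf_le_left)
      · exact le_inf (le_inf inf_le_right (inf_le_left.trans hEe)) inf_le_left
    rw [h5]
    have h6 := Submodule.finrank_sup_add_finrank_inf_eq e (E ⊓ F)
    have h7 : e ⊓ (E ⊓ F) = ⊥ := by
      rw [eq_bot_iff, ← hbot]
      exact inf_le_inf_left e inf_le_right
    rw [h7, finrank_bot, he.finrank] at h6
    omega

private theorem ext_aux (hn : finrank K V = 8) {F : Submodule K V} (hF : Φ.IsSd F) :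
    ∀ (k : ℕ) (m : Submodule K V), finrank K m + k = 4 → Φ.TS m → m ⊓ F = ⊥ →
      ∃ G, Φ.IsSd G ∧ m ≤ G ∧ G ⊓ F = ⊥ := by
  intro k
  induction k with
  | zero =>
    intro m hk hm h
    exact ⟨m, ⟨hm, by omega⟩, le_rfl, h⟩
  | succ k ih =>
    intro m hk hm h
    have h1 := Submodule.finrank_sup_add_finrank_inf_eq F (Φ.orth m)
    have h2 := finrank_orth (Φ := Φ) m
    have h3 : finrank K ↥(F ⊔ Φ.orth m) ≤ finrank K V := Submodule.finrank_le _
    have hF4 := hF.2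
    have h4 : F ⊓ Φ.orth m ≠ ⊥ := by
      intro hh
      rw [hh, finrank_bot] at h1
      omega
    obtain ⟨v, hv, hv0⟩ := (Submodule.ne_bot_iff _).1 h4
    set e := Submodule.span K {v} with he_def
    have he : Φ.IsPt e := hF.1.isPt hv.1 hv0
    have hem : ¬ e ≤ m := by
      intro hh
      have h5 : v ∈ m ⊓ F := ⟨hh (Submodule.mem_span_singleton_self v), hv.1⟩
      rw [h, Submodule.mem_bot] at h5
      exact hv0 h5
    have heo : e ≤ Φ.orth m := by
      rw [he_def, Submodule.span_singleton_le_iff_mem]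
      exact hv.2
    have hme : m ≤ Φ.orth e := Φ.le_orth_comm.1 heo
    obtain ⟨w, hw, -, hwm, hwe⟩ := sep (Φ.ND_top) hm le_top he le_top hem
    have hwm' : ¬ w ≤ m := fun hh => hwe (hh.trans hme)
    have hTS : Φ.TS (m ⊔ w) := hm.sup hw.ts (Φ.le_orth_comm.1 hwm)
    have hinf : m ⊓ w = ⊥ := by
      rw [inf_comm]
      exact hw.inf_eq_bot hwm'
    have hd := Submodule.finrank_sup_add_finrank_inf_eq m w
    rw [hinf, finrank_bot, hw.finrank] at hd
    have hmF : (m ⊔ w) ⊓ F = ⊥ := by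
      rw [eq_bot_iff]
      rintro x ⟨hx, hxF⟩
      obtain ⟨a, ha, b, hb, rfl⟩ := Submodule.mem_sup.1 hx
      have h6 : Φ.B (a + b) v = 0 := hF.1.2 hxF v hv.1
      have h7 : Φ.B a v = 0 := hme ha v (Submodule.mem_span_singleton_self v)
      rw [Φ.add_left, h7, zero_add] at h6
      have hb0 : b = 0 := by
        by_contra hne
        apply hwe
        rw [hw.eq_span hb hne, he_def, span_le_orth]
        exact h6
      subst hb0
      rw [add_zero] at hxF ⊢
      have h8 : a ∈ m ⊓ F := ⟨ha, hxF⟩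
      rw [h] at h8
      exact h8
    obtain ⟨G, hG, hmG, hGF⟩ := ih (m ⊔ w) (by omega) hTS hmF
    exact ⟨G, hG, le_sup_left.trans hmG, hGF⟩

theorem ext_sd (hn : finrank K V = 8) {F m : Submodule K V} (hF : Φ.IsSd F)
    (hm : Φ.TS m) (h : m ⊓ F = ⊥) : ∃ G, Φ.IsSd G ∧ m ≤ G ∧ G ⊓ F = ⊥ := by
  have h1 := ts_dim Φ.ND_top hm le_top
  rw [finrank_top, hn] at h1
  exact ext_aux hn hF (4 - finrank K m) m (by omega) hm h

end PS

end Pool.Agent.Work.MP_bc729a_al.CG
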