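import Pool.Agent.Work.MP_bc729a_al.CO.FmO
import Pool.Agent.Work.MP_bc729a_al.CO.Stp
import Pool.Agent.Work.MP_bc729a_al.CG.Idxp

/-! # Module Fb (M): families of solids: basic facts

PROOF of `fam_even`. Strong induction on `4 - finrank (E ⊓ F)`. If `E = F`: `finrank (E ⊓ F) = 4`, both sides hold. If `E ≠ F`: `F₁` from `sd_step`; `hM.adj F F₁`: `F ∈ M ↔ F₁ ∉ M`; by induction `(E ∈ M ↔ F₁ ∈ M) ↔ Even (finrank (E ⊓ F) + 1)`.
PROOF of `ts_le_fam`. `G ≥ E` a solid (`ts_le_sd`); if `G ∉ M` let `π` be a subspace, `E ≤ π ≤ G`, `finrank π = 3`, and `G'` the other solid on `π` (`two_sd`); `G ⊓ G' = π` (dimensions), so `G' ∈ M` by `adj`.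
PROOF of `index_sd`. `(stE D E).index = bn D ⊤ E` (`index_stE`), the number of the images `E.map g`, `g ∈ D` (`orth ⊤ = ⊥`: the condition on `orth ⊤` is empty). If `E ∈ M` these are the elements of `M` (`inv`, `trans`), so the number is `pn ⊤`. Otherwise `E ∈ oth M`, use `oth_fam`. -/

namespace Pool.Agent.Work.MP_bc729a_al.CG

open Module

universe u v

variable {K : Type u} {V : Type v} [Field K] [AddCommGroup V] [Module K V] [Finite K] [Finite V]

namespace PS

variable {Φ : PS K V}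

private theorem fb_even (hn : finrank K V = 8) {D : Subgroup (V ≃ₗ[K] V)}
    {M : Set (Submodule K V)} (hM : Φ.Fam D M) (k : ℕ) :
    ∀ {E F : Submodule K V}, Φ.IsSd E → Φ.IsSd F → 4 - finrank K ↥(E ⊓ F) ≤ k →
      ((E ∈ M ↔ F ∈ M) ↔ Even (finrank K ↥(E ⊓ F))) := by
  induction k with
  | zero =>
    intro E F hE hF hk
    have h1 : finrank K ↥(E ⊓ F) ≤ finrank K E := Submodule.finrank_mono inf_le_left
    have h1' := hE.2
    have h2' := hF.2
    have h4 : finrank K ↥(E ⊓ F) = 4 := by omega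
    have h5 : E ⊓ F = E := Submodule.eq_of_le_of_finrank_eq inf_le_left (by rw [h4, h1'])
    have h6 : E ⊓ F = F := Submodule.eq_of_le_of_finrank_eq inf_le_right (by rw [h4, h2'])
    have h7 : E = F := h5.symm.trans h6
    subst h7
    rw [h4]
    exact ⟨fun _ => by decide, fun _ => Iff.rfl⟩
  | succ k ih =>
    intro E F hE hF hk
    by_cases hEF : E = F
    · subst hEF
      rw [inf_idem, hE.2]
      exact ⟨fun _ => by decide, fun _ => Iff.rfl⟩
    · obtain ⟨F₁, hF₁, h3, h4⟩ := sd_step hn hE hF hEF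
      have h5 := ih hE hF₁ (by rw [h4]; omega)
      have h6 := hM.adj F F₁ hF hF₁ h3
      rw [h4, Nat.even_add_one] at h5
      tauto

theorem fam_even (hn : finrank K V = 8) {D : Subgroup (V ≃ₗ[K] V)}
    {M : Set (Submodule K V)} (hM : Φ.Fam D M) {E F : Submodule K V} (hE : Φ.IsSd E)
    (hF : Φ.IsSd F) : (E ∈ M ↔ F ∈ M) ↔ Even (finrank K ↥(E ⊓ F)) :=
  fb_even hn hM _ hE hF le_rfl

omit [Finite K] in
private theorem fb_mid {E G : Submodule K V} (h : E ≤ G) (m : ℕ) :
    ∀ k, finrank K E + k = m → m ≤ finrank K G →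
      ∃ P : Submodule K V, E ≤ P ∧ P ≤ G ∧ finrank K P = m := by
  intro k
  induction k generalizing E with
  | zero =>
    intro h1 _
    exact ⟨E, le_rfl, h, by omega⟩
  | succ k ih =>
    intro h1 h2
    have hlt : E < G := by
      refine lt_of_le_of_ne h ?_
      intro he
      rw [he] at h1
      omega
    obtain ⟨v, hvG, hvE⟩ := SetLike.exists_of_lt hlt
    have h3 : E ⊔ Submodule.span K {v} ≤ G := by
      refine sup_le h ?_
      rw [Submodule.span_singleton_le_iff_mem]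
      exact hvG
    have hv0 : v ≠ 0 := by
      intro h0
      rw [h0] at hvE
      exact hvE E.zero_mem
    have h4 : finrank K ↥(E ⊔ Submodule.span K {v}) = finrank K E + 1 := by
      have h5 := Submodule.finrank_sup_add_finrank_inf_eq E (Submodule.span K {v})
      have h6 : E ⊓ Submodule.span K {v} = ⊥ := by
        rw [eq_bot_iff]
        rintro x ⟨hx1, hx2⟩
        rw [SetLike.mem_coe, Submodule.mem_span_singleton] at hx2
        obtain ⟨a, rfl⟩ := hx2
        by_cases ha : a = 0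
        · rw [ha, zero_smul]
          exact Submodule.zero_mem _
        · exact absurd ((E.smul_mem_iff ha).1 hx1) hvE
      rw [h6, finrank_bot, finrank_span_singleton hv0] at h5
      omega
    obtain ⟨P, hP1, hP2, hP3⟩ := ih h3 (by rw [h4]; omega) h2
    exact ⟨P, le_sup_left.trans hP1, hP2, hP3⟩

theorem ts_le_fam (hn : finrank K V = 8) (ht : Φ.t = 1) {D : Subgroup (V ≃ₗ[K] V)}
    {M : Set (Submodule K V)} (hM : Φ.Fam D M) {E : Submodule K V} (hE : Φ.TS E)
    (h : finrank K E ≤ 3) : ∃ F ∈ M, E ≤ F := by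
  obtain ⟨E₀, hE₀⟩ := hM.ne
  have h4 : ∃ E, Φ.IsSd E := ⟨E₀, hM.sd E₀ hE₀⟩
  obtain ⟨G, hG, hEG⟩ := ts_le_sd hn h4 hE
  by_cases hGM : G ∈ M
  · exact ⟨G, hGM, hEG⟩
  · obtain ⟨P, hP1, hP2, hP3⟩ := fb_mid hEG 3 (3 - finrank K E) (by omega) (by rw [hG.2]; omega)
    obtain ⟨A, B, hA, hB, hAB, hPA, hPB, hall⟩ := two_sd hn ht h4 (hG.1.mono hP2) hP3
    have key : ∀ G', Φ.IsSd G' → P ≤ G' → G' ≠ G → ∃ F ∈ M, E ≤ F := by
      intro G' hG' hPG' hne
      have h5 : finrank K ↥(G ⊓ G') = 3 := by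
        have h6 : P ≤ G ⊓ G' := le_inf hP2 hPG'
        have h7 : finrank K P ≤ finrank K ↥(G ⊓ G') := Submodule.finrank_mono h6
        have h8 : finrank K ↥(G ⊓ G') ≤ finrank K G := Submodule.finrank_mono inf_le_left
        have hG2 := hG.2
        have hG'2 := hG'.2
        have h9 : finrank K ↥(G ⊓ G') ≠ 4 := by
          intro h10
          have h11 : G ⊓ G' = G := Submodule.eq_of_le_of_finrank_eq inf_le_left (by rw [h10, hG2])
          have h12 : G ⊓ G' = G' :=
            Submodule.eq_of_le_of_finrank_eq inf_le_right (by rw [h10, hG'2])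
          exact hne (h12.symm.trans h11)
        omega
      have h6 := hM.adj G G' hG hG' h5
      exact ⟨G', by tauto, hP1.trans hPG'⟩
    rcases hall G hG hP2 with rfl | rfl
    · exact key B hB hPB hAB.symm
    · exact key A hA hPA hAB

private theorem fb_index {D : Subgroup (V ≃ₗ[K] V)}
    {M : Set (Submodule K V)} (hM : Φ.Fam D M) {E : Submodule K V}
    (hE : E ∈ M) : (stE D E).index = Φ.pn ⊤ := by
  rw [index_stE (Φ := Φ), ← hM.card]
  unfold bn
  have h : ∀ F : Submodule K V, (∃ g ∈ D, (∀ v ∈ Φ.orth ⊤, g v = v) ∧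
      E.map (g : V →ₗ[K] V) = F) ↔ F ∈ M := by
    intro F
    constructor
    · rintro ⟨g, hg, -, rfl⟩
      exact hM.inv g hg E hE
    · intro hF
      obtain ⟨g, hg, h1⟩ := hM.trans E hE F hF
      refine ⟨g, hg, ?_, h1⟩
      intro v hv
      rw [Φ.orth_top, Submodule.mem_bot] at hv
      rw [hv, map_zero]
  exact Nat.card_congr (Equiv.subtypeEquivRight h)

theorem index_sd {D : Subgroup (V ≃ₗ[K] V)} (hD : Φ.Grp D) (hn : finrank K V = 8)
    (ht : Φ.t = 1) {M : Set (Submodule K V)} (hM : Φ.Fam D M) {E : Submodule K V}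
    (hE : Φ.IsSd E) : (stE D E).index = Φ.pn ⊤ := by
  by_cases h : E ∈ M
  · exact fb_index hM h
  · exact fb_index (oth_fam hD hn ht hM).1 ⟨hE, h⟩

end PS

end Pool.Agent.Work.MP_bc729a_al.CG
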