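import Pool.Agent.Work.MP_bc729a_al.CO.Defs
import Pool.Agent.Work.MP_bc729a_al.CG.Pts
import Pool.Agent.Work.MP_bc729a_al.CG.Dsc

/-! # Module LnS (M): lines of a solid

PROOF of `card_ln_sd`. Let `F ≤ E` be a complement of `x` in `E`, `finrank F = 3` (e.g. `F = E ⊓ orth y` for `y` opposite to `x`: `exists_opp`, `dsc`). `m ↦ m ⊓ F` and `z ↦ x ⊔ z` are inverse bijections between the lines `m`, `x ≤ m ≤ E`, and the points of `F`, of which there are `pn F = 1 + |K| + |K| ^ 2` (`pn_ts`).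
PROOF of `card_lines_sd`. Count the pairs `(x, m)`, `x ≤ m ≤ E`: every line has `1 + |K|` points (`pn_ts`), every point of `E` is on `|K| ^ 2 + |K| + 1` lines of `E`, `E` has `1 + |K| + |K| ^ 2 + |K| ^ 3` points. So `N * (1 + |K|) = (1 + |K| + |K| ^ 2 + |K| ^ 3) * (|K| ^ 2 + |K| + 1)` and `|K| ≡ 0` mod `p`. -/

namespace Pool.Agent.Work.MP_bc729a_al.CG

open Module

universe u v

variable {K : Type u} {V : Type v} [Field K] [AddCommGroup V] [Module K V] [Finite K] [Finite V]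

namespace PS

variable {Φ : PS K V}

private theorem lns_pt {E z : Submodule K V} (hE : Φ.TS E) (hz : z ≤ E) (h1 : finrank K z = 1) :
    Φ.IsPt z := by
  have hne : z ≠ ⊥ := by
    rintro rfl
    rw [finrank_bot] at h1
    omega
  obtain ⟨v, hv, hv0⟩ := (Submodule.ne_bot_iff z).1 hne
  have h2 : Submodule.span K {v} = z := by
    apply Submodule.eq_of_le_of_finrank_eq
    · rw [Submodule.span_singleton_le_iff_mem]
      exact hv
    · rw [h1, finrank_span_singleton hv0]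
  rw [← h2]
  exact hE.isPt (hz hv) hv0

theorem card_ln_sd {x E : Submodule K V} (hE : Φ.IsSd E) (hx : Φ.IsPt x) (hxE : x ≤ E) :
    Nat.card {m : Submodule K V // Φ.IsLn m ∧ x ≤ m ∧ m ≤ E} =
      Nat.card K ^ 2 + Nat.card K + 1 := by
  obtain ⟨hTS, hE4⟩ := hE
  obtain ⟨C, hC⟩ := exists_isCompl x
  have hxr := hx.finrank
  set F := C ⊓ E with hF
  have hFE : F ≤ E := inf_le_right
  have hxF : x ⊓ F = ⊥ := by
    rw [eq_bot_iff, ← hC.inf_eq_bot]
    exact inf_le_inf_left x inf_le_left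
  have hsup : x ⊔ F = E := by
    rw [hF, ← sup_inf_assoc_of_le C hxE, hC.sup_eq_top, top_inf_eq]
  have hF3 : finrank K F = 3 := by
    have h := Submodule.finrank_sup_add_finrank_inf_eq x F
    rw [hsup, hxF, finrank_bot] at h
    omega
  have hTF : Φ.TS F := hTS.mono hFE
  have hpn : Φ.pn F = Nat.card K ^ 2 + Nat.card K + 1 := by
    rw [pn_ts hTF, hF3]
    simp only [Finset.sum_range_succ, Finset.sum_range_zero, pow_zero, pow_one]
    ring
  rw [← hpn]
  apply Nat.card_congr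
  refine
    { toFun := fun m => ⟨m.1 ⊓ F, ?_, inf_le_right⟩
      invFun := fun z => ⟨x ⊔ z.1, ⟨?_, ?_⟩, le_sup_left, sup_le hxE (z.2.2.trans hFE)⟩
      left_inv := ?_
      right_inv := ?_ }
  · obtain ⟨m, hm, hxm, hmE⟩ := m
    apply lns_pt hTF inf_le_right
    change finrank K ↥(m ⊓ F) = 1
    have h := Submodule.finrank_sup_add_finrank_inf_eq m F
    have h2 : m ⊔ F = E := le_antisymm (sup_le hmE hFE) (by
      rw [← hsup]
      exact sup_le_sup_right hxm F)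
    rw [h2, hm.2] at h
    omega
  · exact hTS.mono (sup_le hxE (z.2.2.trans hFE))
  · have h := Submodule.finrank_sup_add_finrank_inf_eq x z.1
    have h2 : x ⊓ z.1 = ⊥ := by
      rw [eq_bot_iff, ← hxF]
      exact inf_le_inf_left x z.2.2
    have h3 := z.2.1.finrank
    rw [h2, finrank_bot] at h
    omega
  · rintro ⟨m, hm, hxm, hmE⟩
    apply Subtype.ext
    change x ⊔ m ⊓ F = m
    rw [inf_comm m F, ← sup_inf_assoc_of_le F hxm, hsup]
    exact inf_eq_right.2 hmE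
  · rintro ⟨z, hz, hzF⟩
    apply Subtype.ext
    change (x ⊔ z) ⊓ F = z
    rw [sup_comm x z, sup_inf_assoc_of_le x hzF, hxF, sup_bot_eq]

theorem card_lines_sd {p : ℕ} [Fact p.Prime] [CharP K p] {E : Submodule K V}
    (hE : Φ.IsSd E) : Nat.card {m : Submodule K V // Φ.IsLn m ∧ m ≤ E} ≡ 1 [MOD p] := by
  classical
  have hfin : Finite (Submodule K V) :=
    Finite.of_injective (fun U : Submodule K V => (U : Set V)) SetLike.coe_injective
  have hp : p ∣ Nat.card K := by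
    have := Fintype.ofFinite K
    rw [Nat.card_eq_fintype_card, ← CharP.cast_eq_zero_iff K p]
    exact Nat.cast_card_eq_zero K
  set q := Nat.card K with hq
  let e : (Σ m : {m : Submodule K V // Φ.IsLn m ∧ m ≤ E},
        {x : Submodule K V // Φ.IsPt x ∧ x ≤ m.1}) ≃
      (Σ x : {x : Submodule K V // Φ.IsPt x ∧ x ≤ E},
        {m : Submodule K V // Φ.IsLn m ∧ x.1 ≤ m ∧ m ≤ E}) :=
    { toFun := fun a => ⟨⟨a.2.1, a.2.2.1, a.2.2.2.trans a.1.2.2⟩,
        ⟨a.1.1, a.1.2.1, a.2.2.2, a.1.2.2⟩⟩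
      invFun := fun a => ⟨⟨a.2.1, a.2.2.1, a.2.2.2.2⟩, ⟨a.1.1, a.1.2.1, a.2.2.2.1⟩⟩
      left_inv := fun _ => rfl
      right_inv := fun _ => rfl }
  have hc := Nat.card_congr e
  have f1 := Fintype.ofFinite {m : Submodule K V // Φ.IsLn m ∧ m ≤ E}
  have f2 := Fintype.ofFinite {x : Submodule K V // Φ.IsPt x ∧ x ≤ E}
  rw [Nat.card_sigma, Nat.card_sigma] at hc
  have h1 : ∀ m : {m : Submodule K V // Φ.IsLn m ∧ m ≤ E},
      Nat.card {x : Submodule K V // Φ.IsPt x ∧ x ≤ m.1} = 1 + q := by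
    intro m
    have h := pn_ts m.2.1.1
    rw [m.2.1.2] at h
    change Nat.card {x : Submodule K V // Φ.IsPt x ∧ x ≤ m.1} = _ at h
    rw [h]
    simp [Finset.sum_range_succ, hq]
  have h2 : ∀ x : {x : Submodule K V // Φ.IsPt x ∧ x ≤ E},
      Nat.card {m : Submodule K V // Φ.IsLn m ∧ x.1 ≤ m ∧ m ≤ E} = q ^ 2 + q + 1 :=
    fun x => card_ln_sd hE x.2.1 x.2.2
  have h3 : Nat.card {x : Submodule K V // Φ.IsPt x ∧ x ≤ E} = 1 + q + q ^ 2 + q ^ 3 := by
    have h := pn_ts hE.1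
    rw [hE.2] at h
    change Nat.card {x : Submodule K V // Φ.IsPt x ∧ x ≤ E} = _ at h
    rw [h]
    simp [Finset.sum_range_succ, hq]
  rw [Finset.sum_congr rfl (fun m _ => h1 m), Finset.sum_congr rfl (fun x _ => h2 x),
    Finset.sum_const, Finset.sum_const, Finset.card_univ, Finset.card_univ,
    ← Nat.card_eq_fintype_card, ← Nat.card_eq_fintype_card, h3, smul_eq_mul, smul_eq_mul] at hc
  have hq0 : q ≡ 0 [MOD p] := (Nat.modEq_zero_iff_dvd).2 hp
  have h4 : Nat.card {m : Submodule K V // Φ.IsLn m ∧ m ≤ E} * (1 + q) ≡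
      Nat.card {m : Submodule K V // Φ.IsLn m ∧ m ≤ E} * (1 + 0) [MOD p] :=
    Nat.ModEq.mul_left _ (Nat.ModEq.add_left _ hq0)
  have h5 : (1 + q + q ^ 2 + q ^ 3) * (q ^ 2 + q + 1) ≡
      (1 + 0 + 0 ^ 2 + 0 ^ 3) * (0 ^ 2 + 0 + 1) [MOD p] :=
    Nat.ModEq.mul
      (Nat.ModEq.add (Nat.ModEq.add (Nat.ModEq.add_left _ hq0) (hq0.pow 2)) (hq0.pow 3))
      (Nat.ModEq.add_right _ (Nat.ModEq.add (hq0.pow 2) hq0))
  rw [hc] at h4
  have h6 := h4.symm.trans h5
  simpa using h6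

end PS

end Pool.Agent.Work.MP_bc729a_al.CG
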