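import Pool.Agent.Work.MP_bc729a_al.CO.Tr4
import Pool.Agent.Work.MP_bc729a_al.CO.Fb
import Pool.Agent.Work.MP_bc729a_al.CO.LnS
import Pool.Agent.Work.MP_bc729a_al.CG.Pts
import Pool.Agent.Work.MP_bc729a_al.CG.Mst
import Pool.Agent.Work.MP_bc729a_al.CG.Hyp

/-! # Module Abs (M): absolute points, odd fields

Write `f x` for `(f ⟨x, _⟩).1`, a solid in `M`, for a point `x`. For a point `x` and a line `ℓ`: `x ≤ ℓ ↔ g ℓ ≤ f x` and `ℓ ≤ f x ↔ x ≤ g ℓ` (`hI.inc`, `ff`, `gg`; `Ic` for a point means `≤ ℓ`, for a solid `≥ ℓ`, dimensions).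
PROOF. `P` the type of points (finite, nonempty: `exists_pt`), `p` the characteristic, `N x y := y ≤ f x`, `r x y := x ≤ orth y`. `hN`: if `y ≤ f x` there is a line `ℓ` with `y ≤ ℓ ≤ f x` (a subspace of dimension `2` of the solid), so `g ℓ ≤ f y`, `x ≤ g ℓ`, so `x ≤ f y`. `h1`: `pn (f x) ≡ 1` mod `p` (`pn_ts`, `|K| ≡ 0`). `{z | N x z ∧ N y z}` is the set of the points of `f x ⊓ f y`, of size `pn (f x ⊓ f y)` (`pn_ts`), `≡ 1` if `f x ⊓ f y ≠ ⊥`, otherwise `0`. `r x y ↔ f x ⊓ f y ≠ ⊥`: if `x = y` both hold. Let `x ≠ y`.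
`→`: `x ⊔ y` is a line (`TS.sup`), `g (x ⊔ y) ≤ f x ⊓ f y`. `←`: `f x ≠ f y` are in `M`, `f x ⊓ f y` has even dimension (`fam_even`), so it is a line `ℓ`, and `x, y ≤ g ℓ` (totally singular). `h4`: `pn (orth (x ⊔ y)) ≡ 1` (`pn_mod`: the dimension is `≥ 6 ≥ c`). So `trace4` gives a point `x ≤ f x`.
The number of lines `m` with `x ≤ m ≤ f x` is `|K| ^ 2 + |K| + 1` (`card_ln_sd`), odd. `g` maps this set to itself (`x ≤ m` gives `g m ≤ f x`, `m ≤ f x` gives `x ≤ g m`) and is an involution, so it has a fixed point (`Equiv.Perm.card_fixedPoints_modEq`, as in CG/Par `inv_parity`). -/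

namespace Pool.Agent.Work.MP_bc729a_al.CG

open Module

universe u v

variable {K : Type u} {V : Type v} [Field K] [AddCommGroup V] [Module K V] [Finite K] [Finite V]

namespace PS

variable {Φ : PS K V}

private theorem abs_parity {α : Type*} [Finite α] (σ : α → α) (hσ : ∀ a, σ (σ a) = a) :
    Nat.card α ≡ Nat.card {a // σ a = a} [MOD 2] := by
  classical
  have := Fintype.ofFinite α
  have h := Equiv.Perm.card_fixedPoints_modEq (f := (σ : Function.End α)) (p := 2) (n := 1) (by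
    funext a
    exact hσ a)
  rw [← Nat.card_eq_fintype_card, ← Nat.card_eq_fintype_card] at h
  exact h

private theorem abs_card_dvd {p : ℕ} [CharP K p] : p ∣ Nat.card K := by
  haveI := Fintype.ofFinite K
  rw [← CharP.cast_eq_zero_iff K p, Nat.card_eq_fintype_card]
  exact Nat.cast_card_eq_zero K

private theorem abs_ts_mod {p : ℕ} [CharP K p] {E : Submodule K V} (hE : Φ.TS E) (h : E ≠ ⊥) :
    Φ.pn E ≡ 1 [MOD p] := by
  have h1 : 1 ≤ finrank K E := by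
    rw [Nat.one_le_iff_ne_zero]
    intro h2
    exact h (Submodule.finrank_eq_zero.1 h2)
  obtain ⟨k, hk⟩ := Nat.exists_eq_add_of_le' h1
  rw [pn_ts hE, hk, Finset.sum_range_succ', pow_zero]
  have h3 : p ∣ ∑ i ∈ Finset.range k, Nat.card K ^ (i + 1) :=
    Finset.dvd_sum fun i _ => (abs_card_dvd (K := K) (p := p)).trans
      (dvd_pow_self _ (Nat.succ_ne_zero i))
  have h4 := (Nat.modEq_zero_iff_dvd.2 h3).add_right 1
  rwa [zero_add] at h4

omit [Finite K] [Finite V] in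
private theorem abs_pn (W : Submodule K V) : Nat.card {z : Φ.Pt // z.1 ≤ W} = Φ.pn W :=
  Nat.card_congr (Equiv.subtypeSubtypeEquivSubtypeInter (fun x => Φ.IsPt x) (fun x => x ≤ W))

theorem abs8 (hn : finrank K V = 8) {D : Subgroup (V ≃ₗ[K] V)}
    {M : Set (Submodule K V)} (hM : Φ.Fam D M) (hodd : Odd (Nat.card K))
    {f : Equiv.Perm Φ.Ob} {g : Equiv.Perm Φ.Lx} (hI : Φ.Ivn f g)
    (hf : ∀ a : Φ.Ob, Φ.IsPt a.1 → (f a).1 ∈ M) : ∃ ℓ : Φ.Lx, g ℓ = ℓ := by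
  classical
  obtain ⟨p, hp⟩ := CharP.exists K
  haveI : Fact p.Prime := ⟨CharP.char_is_prime K p⟩
  let F : Φ.Pt → Submodule K V := fun x => (f ⟨x.1, Or.inl x.2⟩).1
  have hFM : ∀ x, F x ∈ M := fun x => hf ⟨x.1, Or.inl x.2⟩ x.2
  have hFs : ∀ x, Φ.IsSd (F x) := fun x => hM.sd _ (hFM x)
  have hFb : ∀ x, F x ≠ ⊥ := by
    intro x h
    have h1 := (hFs x).2
    rw [h, finrank_bot] at h1
    omega
  have hpt : ∀ (x : Φ.Pt) (ℓ : Φ.Lx), Ic x.1 ℓ.1 ↔ x.1 ≤ ℓ.1 := by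
    intro x ℓ
    refine ⟨?_, Or.inl⟩
    rintro (h | h)
    · exact h
    · have h1 := Submodule.finrank_mono h
      rw [ℓ.2.2, x.2.finrank] at h1
      omega
  have hsd : ∀ (E : Submodule K V) (ℓ : Φ.Lx), Φ.IsSd E → (Ic E ℓ.1 ↔ ℓ.1 ≤ E) := by
    intro E ℓ hE
    refine ⟨?_, Or.inr⟩
    rintro (h | h)
    · have h1 := Submodule.finrank_mono h
      rw [ℓ.2.2, hE.2] at h1
      omega
    · exact h
  have hA : ∀ (x : Φ.Pt) (ℓ : Φ.Lx), x.1 ≤ ℓ.1 ↔ (g ℓ).1 ≤ F x := by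
    intro x ℓ
    rw [← hpt x ℓ, ← hsd (F x) (g ℓ) (hFs x)]
    exact (hI.inc ⟨x.1, Or.inl x.2⟩ ℓ).symm
  have hB : ∀ (x : Φ.Pt) (ℓ : Φ.Lx), ℓ.1 ≤ F x ↔ x.1 ≤ (g ℓ).1 := by
    intro x ℓ
    rw [← hpt x (g ℓ), ← hsd (F x) ℓ (hFs x)]
    have h := hI.inc (f ⟨x.1, Or.inl x.2⟩) ℓ
    rw [hI.ff] at h
    exact h.symm
  have hR : ∀ x y : Φ.Pt, x.1 ≤ Φ.orth y.1 ↔ F x ⊓ F y ≠ ⊥ := by
    intro x y
    by_cases hxy : x = y
    · subst hxy
      refine ⟨fun _ h => ?_, fun _ => x.2.self⟩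
      rw [inf_idem] at h
      exact hFb x h
    · have hne : x.1 ≠ y.1 := fun h => hxy (Subtype.ext h)
      constructor
      · intro h h0
        have h2 : finrank K ↥(x.1 ⊔ y.1) = 2 := by
          have h3 := Submodule.finrank_sup_add_finrank_inf_eq x.1 y.1
          have h4 : x.1 ⊓ y.1 = ⊥ := x.2.inf_eq_bot fun h5 => hne (x.2.eq_of_le y.2 h5)
          rw [h4, finrank_bot, x.2.finrank, y.2.finrank] at h3
          omega
        let ℓ : Φ.Lx := ⟨x.1 ⊔ y.1, x.2.ts.sup y.2.ts h, h2⟩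
        have h3 : (g ℓ).1 ≤ F x ⊓ F y :=
          le_inf ((hA x ℓ).1 le_sup_left) ((hA y ℓ).1 le_sup_right)
        rw [h0, le_bot_iff] at h3
        have h4 := (g ℓ).2.2
        rw [h3, finrank_bot] at h4
        omega
      · intro h0
        have hFne : F x ≠ F y := by
          intro h
          apply hne
          have h1 : f ⟨x.1, Or.inl x.2⟩ = f ⟨y.1, Or.inl y.2⟩ := Subtype.ext h
          have h2 := f.injective h1
          exact congrArg (fun a : Φ.Ob => a.1) h2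
        have hev := (fam_even hn hM (hFs x) (hFs y)).1 ⟨fun _ => hFM y, fun _ => hFM x⟩
        have h1 : finrank K ↥(F x ⊓ F y) ≤ 4 := by
          have h5 := Submodule.finrank_mono (inf_le_left : F x ⊓ F y ≤ F x)
          rw [(hFs x).2] at h5
          exact h5
        have h2 : finrank K ↥(F x ⊓ F y) ≠ 0 := fun h => h0 (Submodule.finrank_eq_zero.1 h)
        have h3 : finrank K ↥(F x ⊓ F y) ≠ 4 := by
          intro h
          apply hFne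
          have e1 : F x ⊓ F y = F x :=
            Submodule.eq_of_le_of_finrank_eq inf_le_left (by rw [h, (hFs x).2])
          have e2 : F x ⊓ F y = F y :=
            Submodule.eq_of_le_of_finrank_eq inf_le_right (by rw [h, (hFs y).2])
          exact e1.symm.trans e2
        have h4 : finrank K ↥(F x ⊓ F y) = 2 := by
          obtain ⟨k, hk⟩ := hev
          omega
        let ℓ : Φ.Lx := ⟨F x ⊓ F y, (hFs x).1.mono inf_le_left, h4⟩
        have h5 : x.1 ≤ (g ℓ).1 := (hB x ℓ).1 inf_le_left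
        have h6 : y.1 ≤ (g ℓ).1 := (hB y ℓ).1 inf_le_right
        exact h5.trans ((g ℓ).2.1.2.trans (Φ.orth_anti h6))
  have hN : ∀ x y : Φ.Pt, y.1 ≤ F x → x.1 ≤ F y := by
    intro x y h
    have h1 := card_ln_sd (hFs x) y.2 h
    have h2 : Nat.card {m : Submodule K V // Φ.IsLn m ∧ y.1 ≤ m ∧ m ≤ F x} ≠ 0 := by
      rw [h1]
      exact Nat.succ_ne_zero _
    obtain ⟨⟨m, hm, hym, hmx⟩⟩ := (Nat.card_ne_zero.1 h2).1
    exact ((hB x ⟨m, hm⟩).1 hmx).trans ((hA y ⟨m, hm⟩).1 hym)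
  haveI : Nonempty Φ.Pt := by
    obtain ⟨x, hx, -⟩ := exists_pt (Φ := Φ) (W := ⊤) (by
      rw [finrank_top, hn]
      exact Φ.c_le.trans (by norm_num))
    exact ⟨⟨x, hx⟩⟩
  have t1 : ∀ x : Φ.Pt, Nat.card {z : Φ.Pt // z.1 ≤ F x} ≡ 1 [MOD p] := by
    intro x
    rw [abs_pn]
    exact abs_ts_mod (hFs x).1 (hFb x)
  have e2 : ∀ x y : Φ.Pt, Nat.card {z : Φ.Pt // z.1 ≤ F x ∧ z.1 ≤ F y} = Φ.pn (F x ⊓ F y) := by
    intro x y
    rw [← abs_pn]
    exact Nat.card_congr (Equiv.subtypeEquivRight fun z => le_inf_iff.symm)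
  have t2 : ∀ x y : Φ.Pt, x.1 ≤ Φ.orth y.1 →
      Nat.card {z : Φ.Pt // z.1 ≤ F x ∧ z.1 ≤ F y} ≡ 1 [MOD p] := by
    intro x y h
    rw [e2]
    exact abs_ts_mod ((hFs x).1.mono inf_le_left) ((hR x y).1 h)
  have t3 : ∀ x y : Φ.Pt, ¬ x.1 ≤ Φ.orth y.1 →
      Nat.card {z : Φ.Pt // z.1 ≤ F x ∧ z.1 ≤ F y} ≡ 0 [MOD p] := by
    intro x y h
    rw [e2]
    have h0 : F x ⊓ F y = ⊥ := by
      by_contra h1
      exact h ((hR x y).2 h1)
    rw [h0, pn_bot]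
  have t4 : ∀ x y : Φ.Pt, Nat.card {z : Φ.Pt // x.1 ≤ Φ.orth z.1 ∧ y.1 ≤ Φ.orth z.1} ≡
      1 [MOD p] := by
    intro x y
    have e : Nat.card {z : Φ.Pt // x.1 ≤ Φ.orth z.1 ∧ y.1 ≤ Φ.orth z.1} =
        Φ.pn (Φ.orth (x.1 ⊔ y.1)) := by
      rw [← abs_pn]
      refine Nat.card_congr (Equiv.subtypeEquivRight fun z => ?_)
      rw [Φ.orth_sup, le_inf_iff, Φ.le_orth_comm (U := x.1), Φ.le_orth_comm (U := y.1)]
    rw [e]
    apply pn_mod
    have h1 := finrank_orth (Φ := Φ) (x.1 ⊔ y.1)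
    have h2 := Submodule.finrank_sup_add_finrank_inf_eq x.1 y.1
    rw [x.2.finrank, y.2.finrank] at h2
    rw [hn] at h1
    have h3 := Φ.c_le
    omega
  obtain ⟨x, hx⟩ := trace4 (P := Φ.Pt) (p := p) (fun x y => y.1 ≤ F x)
    (fun x y => x.1 ≤ Φ.orth y.1) hN t1 t2 t3 t4
  have hcard := card_ln_sd (hFs x) x.2 hx
  let σ : {m : Submodule K V // Φ.IsLn m ∧ x.1 ≤ m ∧ m ≤ F x} →
      {m : Submodule K V // Φ.IsLn m ∧ x.1 ≤ m ∧ m ≤ F x} := fun m =>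
    ⟨(g ⟨m.1, m.2.1⟩).1, (g ⟨m.1, m.2.1⟩).2, (hB x ⟨m.1, m.2.1⟩).1 m.2.2.2,
      (hA x ⟨m.1, m.2.1⟩).1 m.2.2.1⟩
  have hσ : ∀ m, σ (σ m) = m := by
    intro m
    apply Subtype.ext
    exact congrArg (fun ℓ : Φ.Lx => ℓ.1) (hI.gg ⟨m.1, m.2.1⟩)
  have hpar := abs_parity σ hσ
  rw [hcard] at hpar
  have hodd' : Odd (Nat.card K ^ 2 + Nat.card K + 1) := (hodd.pow.add_odd hodd).add_one
  have hne : Nat.card {a // σ a = a} ≠ 0 := by
    intro h0
    rw [h0] at hpar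
    have h1 := Nat.odd_iff.1 hodd'
    unfold Nat.ModEq at hpar
    omega
  obtain ⟨⟨m, hm⟩⟩ := (Nat.card_ne_zero.1 hne).1
  exact ⟨⟨m.1, m.2.1⟩, Subtype.ext (congrArg
    (fun a : {m : Submodule K V // Φ.IsLn m ∧ x.1 ≤ m ∧ m ≤ F x} => a.1) hm)⟩

end PS

end Pool.Agent.Work.MP_bc729a_al.CG
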