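import Pool.Agent.Work.MP_bc729a_al.CO.Ac
import Pool.Agent.Work.MP_bc729a_al.CO.Ivc
import Pool.Agent.Work.MP_bc729a_al.CO.Abs
import Pool.Agent.Work.MP_bc729a_al.CG.Maxl
import Pool.Agent.Work.MP_bc729a_al.CG.Fl
import Pool.Agent.Work.MP_bc729a_al.CG.Par
import Pool.Agent.Work.MP_bc729a_al.CG.Sig
import Pool.Agent.Work.MP_bc729a_al.CG.Mst
import Pool.Agent.Work.MP_bc729a_al.CG.StbA
import Pool.Agent.Work.MP_bc729a_al.CG.TrnB

/-! # Module MnO8 (M): the main theorem in dimension eight, odd fields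

PROOF. (Compare CG/PMainA, from which most of the proof can be copied.) `c = 3` (`typ`, `ht`), `c + 4 ≤ 8`. Let `ℓ` be a line (`exists_line`), `H = stE D ℓ`. `H.index` is the number of lines (`index_ln`), even by `even_lines` (`W = ⊤`). `H ≠ ⊤`, `H ≠ ⊥` as in CG/PMainA. All `stE D ℓ'`, `ℓ'` a line, are conjugates of `H` (`trans_ln`, `stE_conj`). For `α : MulAut (PG D)`: `f, g` from `exists_act`, `(stE D ℓ).map α = stE D (g ℓ)`. So `hX.main` applies: `R ≥ H`, `R ≠ ⊤`, `R = H` (`eq_stE_line`), and as `2 ∣ R.index` there is `α ∈ X`,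
`α ^ 2 = 1`, which fixes no conjugate of `H`. `f, g` from `exists_act`; `act_ivn`; so `g ℓ' ≠ ℓ'` for all lines `ℓ'`. `ivn_cls`. Second case: `abs8` for `M'`: contradiction. First case: `f` maps points to points; let `β : Equiv.Perm Pt` be the restriction (`β (β x) = x`). It preserves perpendicularity: for perpendicular points `x ≠ y` the line `x ⊔ y` (`TS.sup`) is mapped by `g` to a line containing `β x` and `β y` (`hI.inc`). `fixed_line` gives a line `ℓ'` with `x ≤ ℓ' → β x ≤ ℓ'`. The points of `g ℓ'` are the `β x`, `x ≤ ℓ'`, which are `≤ ℓ'`,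
so `g ℓ' = ℓ'` (`ts_pts`, dimensions): contradiction. -/

namespace Pool.Agent.Work.MP_bc729a_al.CG

open Module
open scoped Pointwise

universe u v

variable {K : Type u} {V : Type v} [Field K] [AddCommGroup V] [Module K V] [Finite K] [Finite V]

namespace PS

variable {Φ : PS K V}

private theorem conj_smul_eq8 {G : Type*} [Group G] (a : G) (H : Subgroup G) :
    MulAut.conj a • H = H.map (MulAut.conj a).toMonoidHom := rfl

private theorem line_conj8 {D : Subgroup (V ≃ₗ[K] V)} (hD : Φ.Grp D) (hn : 5 ≤ finrank K V)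
    {ℓ ℓ' : Submodule K V} (hℓ : Φ.IsLn ℓ) (hℓ' : Φ.IsLn ℓ') :
    ∃ a : ↥(PG D), stE D ℓ' = MulAut.conj a • stE D ℓ := by
  obtain ⟨g, hg, h⟩ := trans_ln hD hn hℓ hℓ'
  refine ⟨toPG hg, ?_⟩
  rw [conj_smul_eq8, stE_conj, toPG_apply, h]

private theorem ic_pt {x ℓ : Submodule K V} (hx : Φ.IsPt x) (hℓ : Φ.IsLn ℓ) :
    Ic x ℓ ↔ x ≤ ℓ := by
  refine ⟨fun h => ?_, Or.inl⟩
  rcases h with h | h
  · exact h
  · exfalso
    have h1 := Submodule.finrank_mono h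
    rw [hx.finrank, hℓ.2] at h1
    omega

private theorem fix_of_pts {f : Equiv.Perm Φ.Ob} {g : Equiv.Perm Φ.Lx}
    (hc : Φ.c + 4 ≤ finrank K V) (hodd : Odd (Nat.card K)) (hI : Φ.Ivn f g)
    (hf : ∀ a : Φ.Ob, Φ.IsPt a.1 → Φ.IsPt (f a).1) : ∃ ℓ : Φ.Lx, g ℓ = ℓ := by
  classical
  let b : Φ.Pt → Φ.Pt := fun x => ⟨(f ⟨x.1, Or.inl x.2⟩).1, hf ⟨x.1, Or.inl x.2⟩ x.2⟩
  have hbb : ∀ x, b (b x) = x := by
    intro x
    apply Subtype.ext
    change (f ⟨(f ⟨x.1, Or.inl x.2⟩).1, _⟩).1 = x.1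
    have h1 : (⟨(f ⟨x.1, Or.inl x.2⟩).1, Or.inl (hf ⟨x.1, Or.inl x.2⟩ x.2)⟩ : Φ.Ob) =
        f ⟨x.1, Or.inl x.2⟩ := rfl
    rw [h1, hI.ff]
  let β : Equiv.Perm Φ.Pt := ⟨b, b, hbb, hbb⟩
  have hββ : ∀ x, β (β x) = x := hbb
  have hinc : ∀ (x : Φ.Pt) (ℓ : Φ.Lx), (β x).1 ≤ (g ℓ).1 ↔ x.1 ≤ ℓ.1 := by
    intro x ℓ
    rw [← ic_pt (β x).2 (g ℓ).2, ← ic_pt x.2 ℓ.2]
    exact hI.inc ⟨x.1, Or.inl x.2⟩ ℓ
  have hperp1 : ∀ x y : Φ.Pt, x.1 ≤ Φ.orth y.1 → (β x).1 ≤ Φ.orth (β y).1 := by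
    intro x y h
    by_cases hxy : x = y
    · rw [hxy]
      exact (β y).2.self
    · have hne : ¬ x.1 ≤ y.1 := fun h => hxy (Subtype.ext (x.2.eq_of_le y.2 h))
      have hTS : Φ.TS (x.1 ⊔ y.1) := x.2.ts.sup y.2.ts h
      have hdim : finrank K ↥(x.1 ⊔ y.1) = 2 := by
        have h1 := Submodule.finrank_sup_add_finrank_inf_eq x.1 y.1
        rw [x.2.inf_eq_bot hne, finrank_bot, x.2.finrank, y.2.finrank] at h1
        omega
      have h1 : (β x).1 ≤ (g ⟨x.1 ⊔ y.1, hTS, hdim⟩).1 := (hinc x _).2 le_sup_left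
      have h2 : (β y).1 ≤ (g ⟨x.1 ⊔ y.1, hTS, hdim⟩).1 := (hinc y _).2 le_sup_right
      exact h1.trans ((g ⟨x.1 ⊔ y.1, hTS, hdim⟩).2.1.2.trans (Φ.orth_anti h2))
  have hperp : ∀ x y : Φ.Pt, (β x).1 ≤ Φ.orth (β y).1 ↔ x.1 ≤ Φ.orth y.1 := by
    intro x y
    refine ⟨fun h => ?_, hperp1 x y⟩
    have h1 := hperp1 _ _ h
    rwa [hββ, hββ] at h1
  obtain ⟨E, hE, hEβ⟩ := fixed_line hc hodd β hperp hββ
  refine ⟨⟨E, hE⟩, Subtype.ext ?_⟩
  apply ts_ext (g ⟨E, hE⟩).2.1 hE.1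
  intro x
  have h1 := hinc (β x) ⟨E, hE⟩
  rw [hββ] at h1
  rw [h1]
  refine ⟨fun h => ?_, hEβ x⟩
  have h2 := hEβ _ h
  rwa [hββ] at h2

theorem main_odd8 {D : Subgroup (V ≃ₗ[K] V)} (hD : Φ.Grp D) [IsSimpleGroup ↥(PG D)]
    (hn : finrank K V = 8) (ht : Φ.t = 1) {M : Set (Submodule K V)} (hM : Φ.Fam D M)
    (hodd : Odd (Nat.card K)) {X : Subgroup (MulAut ↥(PG D))}
    (hX : LA.Red ↥(PG D) X) : False := by
  classical
  have hfK := Fintype.ofFinite K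
  obtain ⟨p, hp⟩ := CharP.exists K
  obtain ⟨k, hpp, -⟩ := FiniteField.card K p
  have : Fact p.Prime := ⟨hpp⟩
  have hc0 := Φ.c_le
  have hc : Φ.c + 4 ≤ finrank K V := by omega
  have hn5 : 5 ≤ finrank K V := by omega
  have hn3 : 3 ≤ finrank K V := by omega
  obtain ⟨ℓ, hℓ⟩ := exists_line (Φ := Φ) (by omega : Φ.c + 2 ≤ finrank K V)
  have hidx : (stE D ℓ).index = Nat.card {ℓ : Submodule K V // Φ.IsLn ℓ} :=
    index_ln hD hn5 hℓ
  have heven : Even (stE D ℓ).index := by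
    have h1 := even_lines (Φ := Φ) hodd ND_top
    have h2 : Nat.card {ℓ : Submodule K V // Φ.IsLn ℓ ∧ ℓ ≤ ⊤} =
        Nat.card {ℓ : Submodule K V // Φ.IsLn ℓ} :=
      Nat.card_congr (Equiv.subtypeEquivRight fun E => and_iff_left le_top)
    rw [hidx, ← h2]
    exact h1
  have hT : stE D ℓ ≠ ⊤ := by
    intro h
    rw [h, Subgroup.index_top] at heven
    exact absurd heven (by decide)
  have hB : stE D ℓ ≠ ⊥ := by
    intro h
    have hne : ℓ ≠ ⊥ := by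
      intro h0
      have h1 := hℓ.2
      rw [h0, finrank_bot] at h1
      omega
    obtain ⟨v, hv, hv0⟩ := Submodule.exists_mem_ne_zero_of_ne_bot hne
    have hx := hℓ.1.isPt hv hv0
    have hxℓ : Submodule.span K {v} ≤ ℓ := (Submodule.span_singleton_le_iff_mem v ℓ).2 hv
    obtain ⟨y, hy, -, hxy⟩ := exists_opp (Φ := Φ) ND_top hx le_top
    have hne' : Submodule.span K {v} ≠ y := by
      intro e
      apply hxy
      rw [← e]
      exact hx.self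
    obtain ⟨g, hg, hgy⟩ := exists_move hn3 hx hy hne'
    have hgD : g ∈ D := hD.u _ hx (Φ.mem_UU.2 hg)
    have h1 : toPG hgD ∈ stE D ℓ := by
      rw [mem_stE, toPG_apply]
      exact hg.map_line hxℓ (hℓ.1.2.trans (Φ.orth_anti hxℓ))
    rw [h, Subgroup.mem_bot] at h1
    apply hgy
    have h2 := toPG_apply hgD y
    rw [h1] at h2
    exact h2.symm
  have hinv : ∀ α ∈ X, ∃ a : ↥(PG D),
      (stE D ℓ).map α.toMonoidHom = MulAut.conj a • stE D ℓ := by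
    intro α _
    obtain ⟨f, g, hA⟩ := exists_act hD hn ht hM α
    have h1 := hA.ln ⟨ℓ, hℓ⟩
    rw [h1]
    exact line_conj8 hD hn5 hℓ (g ⟨ℓ, hℓ⟩).2
  obtain ⟨R, T, -, hHR, hRT, -, -, -, -, hlast⟩ := hX.main _ hT hB hinv
  have hRH : R = stE D ℓ := eq_stE_line (p := p) hD hc hℓ hHR hRT
  subst hRH
  obtain ⟨α, -, hα2, hαne⟩ := hlast 2 Nat.prime_two (even_iff_two_dvd.1 heven)
  obtain ⟨f, g, hA⟩ := exists_act hD hn ht hM α
  have hα : ∀ s, α (α s) = s := by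
    intro s
    have h3 : (α ^ 2) s = s := by rw [hα2]; rfl
    rw [pow_two] at h3
    exact h3
  have hI := act_ivn hD hn hA hα
  have hfix : ∃ ℓ' : Φ.Lx, g ℓ' = ℓ' := by
    rcases ivn_cls hD hn ht hM hA hI with h | ⟨M', M'', hM', -, h, -⟩
    · exact fix_of_pts hc hodd hI h
    · exact abs8 hn hM' hodd hI h
  obtain ⟨ℓ', hℓ'⟩ := hfix
  have h5 := hA.ln ℓ'
  rw [hℓ'] at h5
  obtain ⟨a, ha⟩ := line_conj8 hD hn5 hℓ ℓ'.2
  rw [ha] at h5
  exact hαne a h5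

end PS

end Pool.Agent.Work.MP_bc729a_al.CG
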