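import Pool.Agent.Work.MP_bc729a_al.CO.FmE
import Pool.Agent.Work.MP_bc729a_al.CO.MnE8
import Pool.Agent.Work.MP_bc729a_al.CO.MnO8
import Pool.Agent.Work.MP_bc729a_al.CG.PMainA
import Pool.Agent.Work.MP_bc729a_al.CG.PMainB
import Pool.Agent.Work.MP_bc729a_al.CG.Bnd
import Pool.Agent.Work.MP_bc729a_al.CR.Hcl
import Pool.Agent.Work.MP_bc729a_al.CG.OrI
import Pool.Agent.Work.MP_bc729a_al.CG.OrC
import Pool.Agent.Work.MP_bc729a_al.CG.Fm

/-! # Orthogonal groups of dimension eight with totally singular solids -/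

namespace Pool.Agent.Work.MP_bc729a_al.CG

open Module

universe u v w

variable {K : Type u} {V : Type v} [Field K] [AddCommGroup V] [Module K V] [Finite K] [Finite V]

namespace PS

variable {Φ : PS K V}

theorem o8_false {D : Subgroup (V ≃ₗ[K] V)} (hD : Φ.Grp D) [IsSimpleGroup ↥(PG D)]
    (hn : finrank K V = 8) (hc : Φ.c = 3) (ht : Φ.t = 1) (h4 : ∃ E, Φ.IsSd E)
    {X : Subgroup (MulAut ↥(PG D))} (hX : LA.Red ↥(PG D) X) : False := by
  rcases fam_or hD hn ht h4 with h | ⟨M, hM⟩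
  · have hI : ∀ E, Φ.TS E → 2 ≤ finrank K E → Φ.pn ⊤ < Φ.bn D ⊤ E := by
      intro E hE h2
      by_cases h3 : finrank K E = 4
      · have h5 : Φ.bn D ⊤ E = Nat.card {E : Submodule K V // Φ.IsSd E} := by
          apply Nat.card_congr
          refine Equiv.subtypeEquivRight fun F => ⟨?_, ?_⟩
          · rintro ⟨g, hg, -, rfl⟩
            exact ⟨hE.map (hD.le hg), by rw [finrank_map_eq, h3]⟩
          · intro hF
            obtain ⟨g, hg, e⟩ := h E F ⟨hE, h3⟩ hF
            refine ⟨g, hg, fun v hv => ?_, e⟩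
            rw [Φ.orth_top, Submodule.mem_bot] at hv
            rw [hv, map_zero]
        rw [h5, card_sd hn ht h4]
        have h6 : 0 < Φ.pn ⊤ := by
          obtain ⟨x, hx, -⟩ := exists_pt (Φ := Φ) (W := (⊤ : Submodule K V)) (by
            rw [finrank_top]
            omega)
          exact pn_pos_of hx le_top
        omega
      · exact idx_bound hD (by omega) hE h2 (fun h => h3 h.2.2)
    rcases Nat.even_or_odd (Nat.card K) with h' | h'
    · exact main_even hD (by omega) h' hI hX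
    · exact main_odd hD (by omega) h' hI hX
  · rcases Nat.even_or_odd (Nat.card K) with h' | h'
    · exact main_even8 hD hn ht hM h' hX
    · exact main_odd8 hD hn ht hM h' hX

end PS

theorem no_orth8 (Q : QuadraticForm K V)
    (hn : ∀ u, (∀ v, QuadraticMap.polar Q u v = 0) → u = 0) (hd : finrank K V = 8)
    (h4 : ∃ E : Submodule K V, finrank K E = 4 ∧ ∀ v ∈ E, Q v = 0)
    (G : Type w) [Group G] [Finite G] (hG : MaxCompl G)
    (h : IsCompFactor (↥⁅OQ Q, OQ Q⁆ ⧸ Subgroup.center ↥⁅OQ Q, OQ Q⁆) G) : False := by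
  obtain ⟨Φ, h3, h4', h5, h6⟩ := exists_orth Q hn
  have hD : Φ.Grp ⁅OQ Q, OQ Q⁆ := by
    constructor
    · have h7 : OQ Q ≤ Φ.Iso := by
        intro g hg
        refine ⟨fun u v => ?_, fun v => ?_⟩
        · rw [h3, h3, QuadraticMap.polar, QuadraticMap.polar, ← map_add, hg, hg, hg]
        · rw [h4', h4', hg]
      rw [Subgroup.commutator_le]
      intro a ha b hb
      exact Subgroup.mul_mem _ (Subgroup.mul_mem _ (Subgroup.mul_mem _ (h7 ha) (h7 hb))
        (Subgroup.inv_mem _ (h7 ha))) (Subgroup.inv_mem _ (h7 hb))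
    · intro x hx
      exact PS.UU_le_Om h3 h4' (by omega) hx
  have hS : ∃ E, Φ.IsSd E := by
    obtain ⟨E, hE, hQ⟩ := h4
    refine ⟨E, ⟨fun v hv => (h4' v).2 (hQ v hv), fun v hv w hw => ?_⟩, hE⟩
    rw [h3, QuadraticMap.polar, hQ _ (E.add_mem hv hw), hQ v hv, hQ w hw]
    ring
  obtain ⟨hsim, X, hX⟩ := PS.to_red hD (Or.inl (by omega)) G hG h
  exact PS.o8_false hD hd h5 h6 hS hX

end Pool.Agent.Work.MP_bc729a_al.CG
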