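import Pool.Agent.Work.MP_bc729a_al.CO.Defs
import Pool.Agent.Work.MP_bc729a_al.CG.Hyp
import Pool.Agent.Work.MP_bc729a_al.CG.Tst

/-! # Module Trs (M): transitivity on the subspaces of a totally singular space

PROOF. (1) Let `e ≤ E` be a point, `¬ e ≤ F`, `¬ e ≤ F'`, `F ⊔ e = F' ⊔ e`. `sep` (`W = ⊤`, `E := F`, `z := e`): `w ≤ orth F`, `¬ w ≤ orth e`; `sep` for `F'`: `w' ≤ orth F'`, `¬ w' ≤ orth e`. `u_trans` (`W = ⊤`): `g`, `IsU e g`, `w.map g = w'`; `g ∈ D` (`hD.u`). `E.map g = E` and `(F ⊔ e).map g = F ⊔ e` (`IsU.map_line`, `F ⊔ e ≤ E ≤ orth e`). So `F.map g ≤ F' ⊔ e`, and `F.map g ≤ orth w'` (`F ≤ orth w`, `map_le_orth_map`).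
`(F' ⊔ e) ⊓ orth w' = F'`: for `v = a + c • e₀`, `a ∈ F'`, `e = span {e₀}`, `w' = span {w₀}`: `0 = B v w₀ = c * B e₀ w₀`, so `c = 0`. So `F.map g ≤ F'`, equal dimensions: `F.map g = F'`.
(2) In general use induction on `finrank F - finrank (F ⊓ F')`. If `F = F'` take `g = 1`. Otherwise let `f' ∈ F'`, `f' ∉ F` (dimensions), `H₁` a subspace with `F ⊓ F' ≤ H₁ ≤ F`, `finrank H₁ + 1 = finrank F`, `f ∈ F`, `f ∉ H₁`, `F₁ = H₁ ⊔ span {f'} ≤ E`, of the dimension of `F`; `F ⊓ F₁ = H₁`; `finrank (F₁ ⊓ F') > finrank (F ⊓ F')` (it contains `F ⊓ F'` and `f'`). `e = span {f + f'}` is a point (`TS.isPt`), `¬ e ≤ F` (`f' ∉ F`),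
`¬ e ≤ F₁` (otherwise `f ∈ F ⊓ F₁ = H₁`), `F ⊔ e = F ⊔ span {f'} = F₁ ⊔ e` (both have dimension `finrank F + 1` and are contained in `F ⊔ span {f'}`). By (1) there is `g₁`: `F → F₁`, by induction `g₂`: `F₁ → F'`; take `g₂ * g₁`. -/

namespace Pool.Agent.Work.MP_bc729a_al.CG

open Module

universe u v

variable {K : Type u} {V : Type v} [Field K] [AddCommGroup V] [Module K V] [Finite K] [Finite V]

namespace PS

variable {Φ : PS K V}

private theorem fs {W : Submodule K V} {v : V} (h : v ∉ W) :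
    finrank K ↥(W ⊔ Submodule.span K {v}) = finrank K W + 1 := by
  have h0 : v ≠ 0 := by
    rintro rfl
    exact h W.zero_mem
  have h1 := Submodule.finrank_sup_add_finrank_inf_eq W (Submodule.span K {v})
  have h2 : W ⊓ Submodule.span K {v} = ⊥ := by
    rw [eq_bot_iff]
    rintro u ⟨hu, hu'⟩
    obtain ⟨a, rfl⟩ := Submodule.mem_span_singleton.1 hu'
    rw [Submodule.mem_bot]
    by_contra hne
    have ha : a ≠ 0 := by
      rintro rfl
      exact hne (zero_smul K v)
    apply h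
    have := W.smul_mem a⁻¹ hu
    rwa [smul_smul, inv_mul_cancel₀ ha, one_smul] at this
  rw [h2, finrank_bot, finrank_span_singleton h0, add_zero] at h1
  exact h1

private theorem step {D : Subgroup (V ≃ₗ[K] V)} (hD : Φ.Grp D) {E F F' e : Submodule K V}
    (hE : Φ.TS E) (hF : F ≤ E) (hF' : F' ≤ E) (he : Φ.IsPt e) (heE : e ≤ E) (h1 : ¬ e ≤ F)
    (h2 : ¬ e ≤ F') (h : F ⊔ e = F' ⊔ e) (hd : finrank K F = finrank K F') :
    ∃ g ∈ D, E.map (g : V →ₗ[K] V) = E ∧ F.map (g : V →ₗ[K] V) = F' := by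
  obtain ⟨w, hw, -, hwF, hwe⟩ := sep ND_top (hE.mono hF) le_top he le_top h1
  obtain ⟨w', hw', -, hwF', hwe'⟩ := sep ND_top (hE.mono hF') le_top he le_top h2
  obtain ⟨g, hg, -, hgw⟩ := u_trans he le_top hw le_top hw' le_top hwe hwe'
  have hEe : E ≤ Φ.orth e := hE.2.trans (Φ.orth_anti heE)
  refine ⟨g, hD.u e he hg, hg.map_line heE hEe, ?_⟩
  have h3 : (F ⊔ e).map (g : V →ₗ[K] V) = F ⊔ e :=
    hg.map_line le_sup_right ((sup_le hF heE).trans hEe)
  have h4 : F.map (g : V →ₗ[K] V) ≤ F' ⊔ e := by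
    rw [← h, ← h3]
    exact Submodule.map_mono le_sup_left
  have h5 : F.map (g : V →ₗ[K] V) ≤ Φ.orth w' := by
    rw [← hgw, map_le_orth_map hg.1]
    exact Φ.le_orth_comm.1 hwF
  have h6 : F' ≤ Φ.orth w' := Φ.le_orth_comm.1 hwF'
  apply Submodule.eq_of_le_of_finrank_eq
  · intro v hv
    have hv1 := h4 hv
    have hv2 := h5 hv
    obtain ⟨a, ha, b, hb, rfl⟩ := Submodule.mem_sup.1 hv1
    by_cases hb0 : b = 0
    · rw [hb0, add_zero]
      exact ha
    · exfalso
      apply hwe'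
      rw [Φ.le_orth_comm]
      apply he.le_of_mem hb hb0
      have := (Φ.orth w').sub_mem hv2 (h6 ha)
      rwa [add_sub_cancel_left] at this
  · rw [finrank_map_eq]
    exact hd

private theorem ind {D : Subgroup (V ≃ₗ[K] V)} (hD : Φ.Grp D) {E F' : Submodule K V}
    (hE : Φ.TS E) (hF' : F' ≤ E) (n : ℕ) : ∀ F : Submodule K V, F ≤ E →
    finrank K F = finrank K F' → finrank K F' ≤ finrank K ↥(F ⊓ F') + n →
    ∃ g ∈ D, E.map (g : V →ₗ[K] V) = E ∧ F.map (g : V →ₗ[K] V) = F' := by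
  have htriv : ∃ g ∈ D, E.map (g : V →ₗ[K] V) = E ∧ F'.map (g : V →ₗ[K] V) = F' :=
    ⟨1, D.one_mem, Submodule.map_id E, Submodule.map_id F'⟩
  induction n with
  | zero =>
    intro F hF hd hn
    have h1 : F ⊓ F' = F' := Submodule.eq_of_le_of_finrank_le inf_le_right (by simpa using hn)
    have h2 : F' = F := Submodule.eq_of_le_of_finrank_eq (inf_eq_right.1 h1) hd.symm
    rw [← h2]
    exact htriv
  | succ n ih =>
    intro F hF hd hn
    by_cases hFF : F = F'
    · rw [hFF]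
      exact htriv
    -- f ∈ F, f ∉ F'
    have hnle : ¬ F ≤ F' := fun h => hFF (Submodule.eq_of_le_of_finrank_eq h hd)
    have hnle' : ¬ F' ≤ F := fun h => hFF (Submodule.eq_of_le_of_finrank_eq h hd.symm).symm
    obtain ⟨f, hf, hfF'⟩ := SetLike.not_le_iff_exists.1 hnle
    obtain ⟨f', hf', hfF⟩ := SetLike.not_le_iff_exists.1 hnle'
    obtain ⟨φ, hφf, hφ⟩ := Submodule.exists_dual_map_eq_bot_of_notMem
      (p := F ⊓ F') (x := f) (fun h => hfF' h.2) inferInstance
    have hφ' : ∀ v ∈ F ⊓ F', φ v = 0 := by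
      intro v hv
      have : φ v ∈ (F ⊓ F').map φ := ⟨v, hv, rfl⟩
      rw [hφ] at this
      exact (Submodule.mem_bot K).1 this
    set H : Submodule K V := F ⊓ LinearMap.ker φ with hH
    have hfH : f ∉ H := fun h => hφf h.2
    have hf'H : f' ∉ H := fun h => hfF h.1
    have hFH : F = H ⊔ Submodule.span K {f} := by
      apply le_antisymm
      · intro v hv
        have e1 : v = (v - (φ v / φ f) • f) + (φ v / φ f) • f := by abel
        rw [e1]
        refine Submodule.add_mem_sup ⟨?_, ?_⟩ (Submodule.smul_mem _ _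
          (Submodule.mem_span_singleton_self f))
        · exact F.sub_mem hv (F.smul_mem _ hf)
        · change φ (v - (φ v / φ f) • f) = 0
          rw [map_sub, map_smul, smul_eq_mul, div_mul_cancel₀ _ hφf, sub_self]
      · exact sup_le inf_le_left ((Submodule.span_singleton_le_iff_mem _ _).2 hf)
    set F₁ : Submodule K V := H ⊔ Submodule.span K {f'} with hF₁
    have hd1 : finrank K F₁ = finrank K F := by
      rw [hF₁, fs hf'H]
      conv_rhs => rw [hFH]
      rw [fs hfH]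
    have hf'F₁ : f' ∈ F₁ := (le_sup_right : _ ≤ F₁) (Submodule.mem_span_singleton_self f')
    have hF₁E : F₁ ≤ E :=
      sup_le (inf_le_left.trans hF) ((Submodule.span_singleton_le_iff_mem _ _).2 (hF' hf'))
    have hsum : f + f' ∉ F := fun h => hfF (by
      have := F.sub_mem h hf
      rwa [add_sub_cancel_left] at this)
    have hsum₁ : f + f' ∉ F₁ := by
      intro h
      have h1 : f ∈ F₁ := by
        have := F₁.sub_mem h hf'F₁
        rwa [add_sub_cancel_right] at this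
      obtain ⟨a, ha, b, hb, hab⟩ := Submodule.mem_sup.1 h1
      obtain ⟨c, rfl⟩ := Submodule.mem_span_singleton.1 hb
      by_cases hc : c = 0
      · rw [hc, zero_smul, add_zero] at hab
        exact hfH (hab ▸ ha)
      · apply hfF
        have h2 : c • f' ∈ F := by
          have := F.sub_mem hf ha.1
          rwa [← hab, add_sub_cancel_left] at this
        have := F.smul_mem c⁻¹ h2
        rwa [smul_smul, inv_mul_cancel₀ hc, one_smul] at this
    have hs0 : f + f' ≠ 0 := fun h => hsum (h ▸ F.zero_mem)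
    have hsE : f + f' ∈ E := E.add_mem (hF hf) (hF' hf')
    have hsmem : f + f' ∈ Submodule.span K {f + f'} := Submodule.mem_span_singleton_self _
    obtain ⟨g₁, hg₁D, hg₁E, hg₁F⟩ := step hD hE hF hF₁E (hE.isPt hsE hs0)
      ((Submodule.span_singleton_le_iff_mem _ _).2 hsE)
      (fun h => hsum (h hsmem)) (fun h => hsum₁ (h hsmem)) (by
        apply le_antisymm
        · refine sup_le ?_ le_sup_right
          conv_lhs => rw [hFH]
          refine sup_le (le_sup_left.trans le_sup_left) ?_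
          rw [Submodule.span_singleton_le_iff_mem]
          have e1 : f = -f' + (f + f') := by abel
          rw [e1]
          exact Submodule.add_mem_sup (F₁.neg_mem hf'F₁) (by
            have e2 : -f' + (f + f') + f' = f + f' := by abel
            rw [← e1]
            exact hsmem)
        · refine sup_le (sup_le (inf_le_left.trans le_sup_left) ?_) le_sup_right
          rw [Submodule.span_singleton_le_iff_mem]
          have e1 : f' = -f + (f + f') := by abel
          rw [e1]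
          exact Submodule.add_mem_sup (F.neg_mem hf) (by
            rw [← e1]
            exact hsmem)) hd1.symm
    obtain ⟨g₂, hg₂D, hg₂E, hg₂F⟩ := ih F₁ hF₁E (hd1.trans hd) (by
      have h1 : (F ⊓ F') ⊔ Submodule.span K {f'} ≤ F₁ ⊓ F' := by
        refine le_inf (sup_le ?_ le_sup_right) (sup_le inf_le_right
          ((Submodule.span_singleton_le_iff_mem _ _).2 hf'))
        intro v hv
        exact (le_sup_left : H ≤ F₁) ⟨hv.1, LinearMap.mem_ker.2 (hφ' v hv)⟩
      have h2 := Submodule.finrank_mono h1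
      have h3 : f' ∉ F ⊓ F' := fun h => hfF h.1
      rw [fs h3] at h2
      omega)
    refine ⟨g₂ * g₁, D.mul_mem hg₂D hg₁D, ?_, ?_⟩
    · have e : E.map ((g₂ * g₁ : V ≃ₗ[K] V) : V →ₗ[K] V)
          = (E.map (g₁ : V →ₗ[K] V)).map (g₂ : V →ₗ[K] V) := Submodule.map_comp _ _ E
      rw [e, hg₁E, hg₂E]
    · have e : F.map ((g₂ * g₁ : V ≃ₗ[K] V) : V →ₗ[K] V)
          = (F.map (g₁ : V →ₗ[K] V)).map (g₂ : V →ₗ[K] V) := Submodule.map_comp _ _ F
      rw [e, hg₁F, hg₂F]

theorem sub_trans {D : Subgroup (V ≃ₗ[K] V)} (hD : Φ.Grp D) {E F F' : Submodule K V}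
    (hE : Φ.TS E) (hF : F ≤ E) (hF' : F' ≤ E) (h : finrank K F = finrank K F') :
    ∃ g ∈ D, E.map (g : V →ₗ[K] V) = E ∧ F.map (g : V →ₗ[K] V) = F' :=
  ind hD hE hF' (finrank K F') F hF h (Nat.le_add_left _ _)

end PS

end Pool.Agent.Work.MP_bc729a_al.CG
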