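import Pool.Agent.Work.MP_bc729a_al.CO.Mxl
import Pool.Agent.Work.MP_bc729a_al.CO.Stp
import Pool.Agent.Work.MP_bc729a_al.CO.Trs

/-! # Module TrP (S-M): transitivity on planes

PROOF. `E ≥ π` a solid (`ts_le_sd`). Claim: for every solid `F` all totally singular `ρ ≤ F` of dimension `3` are images of `π` under `D`. Strong induction on `4 - finrank (E ⊓ F)`. If `E = F`: `sub_trans`. Otherwise `sd_step` gives a solid `F₁` with `finrank (F ⊓ F₁) = 3`, `finrank (E ⊓ F₁) = finrank (E ⊓ F) + 1`; by induction `F ⊓ F₁ ≤ F₁` is `π.map g`, `g ∈ D`, and `sub_trans` in `F` maps `F ⊓ F₁` to `ρ`. Apply the claim to a solid `F ≥ π'`. -/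

namespace Pool.Agent.Work.MP_bc729a_al.CG

open Module

universe u v

variable {K : Type u} {V : Type v} [Field K] [AddCommGroup V] [Module K V] [Finite K] [Finite V]

namespace PS

variable {Φ : PS K V}

private theorem plane_aux {D : Subgroup (V ≃ₗ[K] V)} (hD : Φ.Grp D) (hn : finrank K V = 8)
    {π E : Submodule K V} (hE : Φ.IsSd E) (hπE : π ≤ E) (h : finrank K π = 3) :
    ∀ (k : ℕ) (F : Submodule K V), Φ.IsSd F → finrank K ↥(E ⊓ F) + k = 4 →
      ∀ ρ : Submodule K V, ρ ≤ F → finrank K ρ = 3 →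
        ∃ g ∈ D, π.map (g : V →ₗ[K] V) = ρ := by
  intro k
  induction k with
  | zero =>
    intro F hF hk ρ hρ hρ3
    have h1 : E ⊓ F = E :=
      Submodule.eq_of_le_of_finrank_eq inf_le_left (by rw [hE.2]; omega)
    have h2 : E ⊓ F = F :=
      Submodule.eq_of_le_of_finrank_eq inf_le_right (by rw [hF.2]; omega)
    have h3 : E = F := h1.symm.trans h2
    subst h3
    obtain ⟨g, hg, -, hg2⟩ := sub_trans hD hE.1 hπE hρ (h.trans hρ3.symm)
    exact ⟨g, hg, hg2⟩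
  | succ k ih =>
    intro F hF hk ρ hρ hρ3
    have hne : E ≠ F := by
      rintro rfl
      rw [inf_idem, hE.2] at hk
      omega
    obtain ⟨F₁, hF₁, h3, h4⟩ := sd_step hn hE hF hne
    obtain ⟨g, hg, hg1⟩ := ih F₁ hF₁ (by omega) (F ⊓ F₁) inf_le_right h3
    obtain ⟨g', hg', -, hg2⟩ := sub_trans hD hF.1 (inf_le_left : F ⊓ F₁ ≤ F) hρ
      (h3.trans hρ3.symm)
    refine ⟨g' * g, D.mul_mem hg' hg, ?_⟩
    have e : ((g' * g : V ≃ₗ[K] V) : V →ₗ[K] V) = (g' : V →ₗ[K] V) ∘ₗ (g : V →ₗ[K] V) := rfl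
    rw [e, Submodule.map_comp, hg1, hg2]

theorem trans_plane {D : Subgroup (V ≃ₗ[K] V)} (hD : Φ.Grp D) (hn : finrank K V = 8)
    (h4 : ∃ E, Φ.IsSd E) {π π' : Submodule K V} (hπ : Φ.TS π) (hπ' : Φ.TS π')
    (h : finrank K π = 3) (h' : finrank K π' = 3) :
    ∃ g ∈ D, π.map (g : V →ₗ[K] V) = π' := by
  obtain ⟨E, hE, hπE⟩ := ts_le_sd hn h4 hπ
  obtain ⟨F, hF, hπF⟩ := ts_le_sd hn h4 hπ'
  have h5 : finrank K ↥(E ⊓ F) ≤ 4 := by
    rw [← hE.2]
    exact Submodule.finrank_mono inf_le_left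
  exact plane_aux hD hn hE hπE h (4 - finrank K ↥(E ⊓ F)) F hF (by omega) π' hπF h'

end PS

end Pool.Agent.Work.MP_bc729a_al.CG
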