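import Pool.Agent.Work.MP_bc729a_al.CO.FmC
import Pool.Agent.Work.MP_bc729a_al.CO.TrP

/-! # Module FmO (S-M): the other family

PROOF. `sd`: clear. `inv`: for `E ∈ oth M`, `g ∈ D`: `E.map g` is a solid (`TS.map`, `hD.le`, `finrank_map_eq`); if it is in `M` then so is `E = (E.map g).map g⁻¹` (`hM.inv`). `adj`: from `hM.adj` and the definition. `ne`: take `E ∈ M`, a subspace `π ≤ E` of dimension `3`, `two_sd`: the other solid on `π` is in `oth M` (`adj`). `card`: `fam_card`. `trans`: let `E, F ∈ oth M`, `π ≤ E`, `π' ≤ F` of dimension `3`, `g ∈ D`, `π.map g = π'` (`trans_plane`). `E.map g ≥ π'` is in `oth M`.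
The two solids on `π'` are `F` and another one `F'` (`two_sd`), which is in `M` by `adj`; so `E.map g = F`. `oth (oth M) = M`: `hM.sd`. -/

namespace Pool.Agent.Work.MP_bc729a_al.CG

open Module

universe u v

variable {K : Type u} {V : Type v} [Field K] [AddCommGroup V] [Module K V] [Finite K] [Finite V]

namespace PS

variable {Φ : PS K V}

omit [Finite K] [Finite V] in
private theorem ex_plane (hn : finrank K V = 8) {E : Submodule K V} (h : finrank K E = 4) :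
    ∃ π, π ≤ E ∧ finrank K π = 3 := by
  have hfd : FiniteDimensional K V := FiniteDimensional.of_finrank_pos (by omega)
  have hne : E ≠ ⊥ := by
    rintro rfl
    rw [finrank_bot] at h
    omega
  obtain ⟨v, hv, hv0⟩ := (Submodule.ne_bot_iff _).1 hne
  obtain ⟨C, hC⟩ := exists_isCompl (Submodule.span K {v})
  have h1 := Submodule.finrank_add_eq_of_isCompl hC
  rw [finrank_span_singleton hv0, hn] at h1
  have h2 : E ⊔ C = ⊤ := by
    rw [eq_top_iff, ← hC.sup_eq_top]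
    refine sup_le_sup_right ?_ C
    rw [Submodule.span_singleton_le_iff_mem]
    exact hv
  have h3 := Submodule.finrank_sup_add_finrank_inf_eq E C
  rw [h2, finrank_top, hn, h] at h3
  exact ⟨E ⊓ C, inf_le_left, by omega⟩

omit [Finite K] [Finite V] in
private theorem map_map_inv' (g : V ≃ₗ[K] V) (E : Submodule K V) :
    (E.map (g : V →ₗ[K] V)).map ((g⁻¹ : V ≃ₗ[K] V) : V →ₗ[K] V) = E := by
  ext v
  constructor
  · rintro ⟨_, ⟨w, hw, rfl⟩, rfl⟩
    have h1 : ((g⁻¹ : V ≃ₗ[K] V) : V →ₗ[K] V) ((g : V →ₗ[K] V) w) = w :=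
      g.symm_apply_apply w
    rw [h1]
    exact hw
  · intro hv
    exact ⟨_, ⟨v, hv, rfl⟩, g.symm_apply_apply v⟩

theorem oth_fam {D : Subgroup (V ≃ₗ[K] V)} (hD : Φ.Grp D) (hn : finrank K V = 8)
    (ht : Φ.t = 1) {M : Set (Submodule K V)} (hM : Φ.Fam D M) :
    Φ.Fam D (Φ.oth M) ∧ Φ.oth (Φ.oth M) = M := by
  obtain ⟨E₀, hE₀⟩ := hM.ne
  have h4 : ∃ E, Φ.IsSd E := ⟨E₀, hM.sd E₀ hE₀⟩
  -- the two solids on a plane
  have key : ∀ π, Φ.TS π → finrank K π = 3 → ∃ E F, Φ.IsSd E ∧ Φ.IsSd F ∧ π ≤ E ∧ π ≤ F ∧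
      (∀ G, Φ.IsSd G → π ≤ G → G = E ∨ G = F) ∧ E ∈ M ∧ F ∉ M := by
    intro π hπ h3
    obtain ⟨E, F, hE, hF, hne, h1, h2, hu⟩ := two_sd hn ht h4 hπ h3
    have h5 : finrank K ↥(E ⊓ F) = 3 := by
      have ha : 3 ≤ finrank K ↥(E ⊓ F) := by
        rw [← h3]
        exact Submodule.finrank_mono (le_inf h1 h2)
      have hb : finrank K ↥(E ⊓ F) ≤ 4 := by
        rw [← hE.2]
        exact Submodule.finrank_mono inf_le_left
      have hc : finrank K ↥(E ⊓ F) ≠ 4 := by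
        intro hc
        apply hne
        rw [← Submodule.eq_of_le_of_finrank_eq (inf_le_left : E ⊓ F ≤ E) (hc.trans hE.2.symm)]
        exact Submodule.eq_of_le_of_finrank_eq (inf_le_right : E ⊓ F ≤ F) (hc.trans hF.2.symm)
      omega
    have h6 := hM.adj E F hE hF h5
    by_cases hEM : E ∈ M
    · exact ⟨E, F, hE, hF, h1, h2, hu, hEM, h6.1 hEM⟩
    · have hFM : F ∈ M := by
        by_contra hFM
        exact hEM (h6.2 hFM)
      exact ⟨F, E, hF, hE, h2, h1, fun G hG hp => (hu G hG hp).symm, hFM, hEM⟩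
  have hsdmap : ∀ g ∈ D, ∀ E, Φ.IsSd E → Φ.IsSd (E.map (g : V →ₗ[K] V)) := fun g hg E hE =>
    ⟨hE.1.map (hD.le hg), finrank_map_eq.trans hE.2⟩
  have hinv : ∀ g ∈ D, ∀ E ∈ Φ.oth M, E.map (g : V →ₗ[K] V) ∈ Φ.oth M := by
    rintro g hg E ⟨hE, hEM⟩
    refine ⟨hsdmap g hg E hE, fun hh => hEM ?_⟩
    have h1 := hM.inv g⁻¹ (D.inv_mem hg) _ hh
    rwa [map_map_inv'] at h1
  refine ⟨⟨fun E hE => hE.1, ?_, hinv, ?_, ?_, ?_⟩, ?_⟩
  · obtain ⟨π, hπ, h3⟩ := ex_plane hn (hM.sd E₀ hE₀).2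
    obtain ⟨E, F, hE, hF, h1, h2, hu, hEM, hFM⟩ := key π ((hM.sd E₀ hE₀).1.mono hπ) h3
    exact ⟨F, hF, hFM⟩
  · rintro E ⟨hE, hEM⟩ F ⟨hF, hFM⟩
    obtain ⟨π, hπ, h3⟩ := ex_plane hn hE.2
    obtain ⟨π', hπ', h3'⟩ := ex_plane hn hF.2
    obtain ⟨g, hg, hgπ⟩ := trans_plane hD hn h4 (hE.1.mono hπ) (hF.1.mono hπ') h3 h3'
    obtain ⟨G, H, hG, hH, h1, h2, hu, hGM, hHM⟩ := key π' (hF.1.mono hπ') h3'
    have h5 := hinv g hg E ⟨hE, hEM⟩
    have h6 : π' ≤ E.map (g : V →ₗ[K] V) := by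
      rw [← hgπ]
      exact Submodule.map_mono hπ
    have h7 : E.map (g : V →ₗ[K] V) = H := by
      rcases hu _ h5.1 h6 with h | h
      · rw [h] at h5
        exact absurd hGM h5.2
      · exact h
    have h8 : F = H := by
      rcases hu _ hF hπ' with h | h
      · rw [h] at hFM
        exact absurd hGM hFM
      · exact h
    exact ⟨g, hg, h7.trans h8.symm⟩
  · intro E F hE hF h
    have h1 := hM.adj E F hE hF h
    constructor
    · rintro ⟨-, h2⟩ ⟨-, h3⟩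
      exact h2 (h1.2 h3)
    · intro h2
      refine ⟨hE, fun h3 => h2 ⟨hF, h1.1 h3⟩⟩
  · rw [← (fam_card hn ht h4 hM.sd hM.adj).1]
    exact hM.card
  · ext E
    constructor
    · rintro ⟨h1, h2⟩
      by_contra h3
      exact h2 ⟨h1, h3⟩
    · intro h
      exact ⟨hM.sd E h, fun h2 => h2.2 h⟩

end PS

end Pool.Agent.Work.MP_bc729a_al.CG
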