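import Pool.Agent.Work.MP_bc729a_al.CO.Defs
import Pool.Agent.Work.MP_bc729a_al.CG.Idxp
import Pool.Agent.Work.MP_bc729a_al.CG.Pts

/-! # Module Syl (S-M): Sylow subgroups

PROOF of `syl_le`. Let `P` be a Sylow `p`-subgroup of `H`; as `¬ p ∣ H.index` its image in `G` is a Sylow `p`-subgroup of `G` (compare the proof of `up_le` in CR/Inc). `P` normalises `F` (`hN`), so `P ⊔ F` is a `p`-group (`IsPGroup.to_sup_of_normal_right` or similar), so `P ⊔ F = P` and `F ≤ P ≤ H`.
PROOF of `fix_pt`. `H` permutes the points of `ℓ` (`H ≤ stE D ℓ`, `exists_toPG`, `IsPt.map`), of which there are `pn ℓ = 1 + |K|` (`pn_ts`), not divisible by `p`. The orbit of `x` has `(stE D x).relIndex H` elements (`relIndex_stE`). So there is a point `x ≤ ℓ` with `¬ p ∣ (stE D x).relIndex H` (the sum of the sizes of the orbits is `1 + |K|`). `(H ⊓ stE D x).index = (stE D x).relIndex H * H.index` (`Subgroup.relIndex_mul_index`, `Subgroup.inf_relIndex_left`). -/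

namespace Pool.Agent.Work.MP_bc729a_al.CG

open Module

universe u v

variable {K : Type u} {V : Type v} [Field K] [AddCommGroup V] [Module K V] [Finite K] [Finite V]

namespace PS

variable {Φ : PS K V}

theorem syl_le {G : Type v} [Group G] [Finite G] {p : ℕ} [Fact p.Prime] {H F : Subgroup G}
    (hp : ¬ p ∣ H.index) (hF : IsPGroup p ↥F) (hN : ∀ h ∈ H, ∀ f ∈ F, h * f * h⁻¹ ∈ F) :
    F ≤ H := by
  have hpp : p.Prime := Fact.out
  obtain ⟨Q⟩ : Nonempty (Sylow p ↥H) := inferInstance
  obtain ⟨P0, hP0e⟩ : ∃ P0 : Subgroup G, P0 = (Q : Subgroup ↥H).map H.subtype :=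
    ⟨_, rfl⟩
  have hP0 : IsPGroup p P0 := by
    rw [hP0e]
    exact Q.2.map _
  have hP0R : P0 ≤ H := by
    rw [hP0e]
    exact Subgroup.map_subtype_le _
  have hind : ¬ p ∣ P0.index := by
    rw [hP0e, Subgroup.index_map_subtype]
    intro h
    rcases hpp.dvd_mul.1 h with h | h
    · exact Q.not_dvd_index h
    · exact hp h
  have hmax : ∀ U : Subgroup G, IsPGroup p U → P0 ≤ U → U = P0 := by
    intro U hU hPU
    exact (hP0.toSylow hind).is_maximal' hU hPU
  have hnorm : P0 ≤ Subgroup.normalizer F := by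
    intro s hs
    rw [Subgroup.mem_normalizer_iff]
    intro t
    refine ⟨fun ht => hN s (hP0R hs) t ht, fun ht => ?_⟩
    have h1 := hN s⁻¹ (hP0R (P0.inv_mem hs)) _ ht
    have h2 : s⁻¹ * (s * t * s⁻¹) * s⁻¹⁻¹ = t := by group
    rwa [h2] at h1
  have hsup := hmax _ (hP0.to_sup_of_normal_right' hF hnorm) le_sup_left
  have hUP : F ≤ P0 := by
    rw [← hsup]
    exact le_sup_right
  exact hUP.trans hP0R

theorem fix_pt {D : Subgroup (V ≃ₗ[K] V)} (hD : Φ.Grp D) {p : ℕ} [Fact p.Prime] [CharP K p]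
    {ℓ : Submodule K V} (hℓ : Φ.IsLn ℓ) {H : Subgroup ↥(PG D)} (hH : H ≤ stE D ℓ)
    (hp : ¬ p ∣ H.index) : ∃ x, Φ.IsPt x ∧ x ≤ ℓ ∧ ¬ p ∣ (H ⊓ stE D x).index := by
  have hpp : p.Prime := Fact.out
  by_contra hcon
  push Not at hcon
  have hrel : ∀ x, Φ.IsPt x → x ≤ ℓ → p ∣ (stE D x).relIndex H := by
    intro x hx hxl
    have h1 := hcon x hx hxl
    have h2 : (H ⊓ stE D x).index = (stE D x).relIndex H * H.index := by
      rw [← Subgroup.relIndex_mul_index (inf_le_left : H ⊓ stE D x ≤ H),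
        Subgroup.inf_relIndex_left]
    rw [h2] at h1
    rcases hpp.dvd_mul.1 h1 with h | h
    · exact h
    · exact absurd h hp
  have hfinS : Finite (Submodule K V) :=
    Finite.of_injective (fun W : Submodule K V => (W : Set V)) SetLike.coe_injective
  let X : Type v := {x : Submodule K V // Φ.IsPt x ∧ x ≤ ℓ}
  have hmem : ∀ (s : ↥H) (x : X), Φ.IsPt (s.1.1 x.1) ∧ s.1.1 x.1 ≤ ℓ := by
    intro s x
    have h1 : s.1.1 ℓ = ℓ := hH s.2
    constructor
    · obtain ⟨g, hg, e⟩ := exists_toPG s.1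
      rw [e, toPG_apply]
      exact x.2.1.map (hD.le hg)
    · exact (s.1.1.monotone x.2.2).trans h1.le
  let act : MulAction ↥H X :=
    { smul := fun s x => ⟨s.1.1 x.1, hmem s x⟩
      one_smul := fun x => Subtype.ext rfl
      mul_smul := fun s t x => Subtype.ext rfl }
  have horb : ∀ x : X, p ∣ Nat.card (MulAction.orbit ↥H x) := by
    intro x
    have h1 : (stE D x.1).subgroupOf H = MulAction.stabilizer ↥H x := by
      ext s
      constructor
      · intro h
        exact Subtype.ext h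
      · intro h
        exact congrArg Subtype.val h
    have h2 := hrel x.1 x.2.1 x.2.2
    unfold Subgroup.relIndex at h2
    rw [h1, MulAction.index_stabilizer] at h2
    rwa [Nat.card_coe_set_eq]
  have hcard : p ∣ Nat.card X := by
    rw [Nat.card_congr (MulAction.selfEquivSigmaOrbits' ↥H X)]
    have := Fintype.ofFinite (Quotient (MulAction.orbitRel ↥H X))
    rw [Nat.card_sigma]
    refine Finset.dvd_sum fun ω _ => ?_
    induction ω using Quotient.inductionOn' with
    | h x =>
      rw [MulAction.orbitRel.Quotient.orbit_mk]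
      exact horb x
  have h3 : Nat.card X = Φ.pn ℓ := rfl
  rw [h3, pn_ts hℓ.1, hℓ.2] at hcard
  simp only [Finset.sum_range_succ, Finset.sum_range_zero, pow_zero, pow_one, zero_add] at hcard
  have hpK : p ∣ Nat.card K := by
    have := Fintype.ofFinite K
    rw [Nat.card_eq_fintype_card]
    obtain ⟨n, hn, hn2⟩ := FiniteField.card K p
    rw [hn2]
    exact dvd_pow_self p n.2.ne'
  have := (Nat.dvd_add_left hpK).1 hcard
  exact hpp.one_lt.ne' (Nat.dvd_one.1 this)

end PS

end Pool.Agent.Work.MP_bc729a_al.CG
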