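import Pool.Agent.Work.MP_bc729a_al.CO.Defs
import Pool.Agent.Work.MP_bc729a_al.CO.Syl

/-! # Module Flg (M): the unipotent radical of the stabiliser of a flag

PROOF. Let `F = {s : PG D | ∃ g ∈ D, IsF x ℓ g ∧ s.1 = lat K V g}`. It is a subgroup: `IsF` is closed under products and inverses: write `g v - v` for the five subspaces `x ≤ ℓ ≤ orth ℓ ≤ orth x ≤ ⊤`; `g` maps each of them onto itself (`g v = v + (g v - v)` stays inside; `finrank_map_eq`), and `(g * h) v - v = g (h v - v) + (g v - v)`, with `g (h v - v)` in the required space; for the inverse: `g⁻¹ v - v = - g⁻¹ (g v - v)`.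
It is a `p`-group: for `N = g - 1` (a linear map) `N` maps `⊤` to `orth x`, `orth x` to `orth ℓ`, `orth ℓ` to `ℓ`, `ℓ` to `x`, `x` to `0`, so `N ^ 5 = 0`, so `g ^ (p ^ 3) - 1 = N ^ (p ^ 3) = 0` in the ring of linear maps, which has characteristic `p` (`p ^ 3 ≥ 5`; compare `IsU.pow` in CG/Tst). `H` normalises `F`: for `s = toPG h ∈ H`, `h ∈ D`, `x.map h = x`, `ℓ.map h = ℓ`, so `h` preserves the five spaces (`orth_map`, `hD.le`), and `IsF x ℓ (h * g * h⁻¹)`:
`(h g h⁻¹) v - v = h (g (h⁻¹ v) - h⁻¹ v)`. `syl_le`. -/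

namespace Pool.Agent.Work.MP_bc729a_al.CG

open Module

universe u v

variable {K : Type u} {V : Type v} [Field K] [AddCommGroup V] [Module K V] [Finite K] [Finite V]

namespace PS

variable {Φ : PS K V}

omit [Finite K] [Finite V] in
/-- the chain of the five subspaces -/
private def Ch (Φ : PS K V) (x ℓ : Submodule K V) : ℕ → Submodule K V
  | 0 => ⊥
  | 1 => x
  | 2 => ℓ
  | 3 => Φ.orth ℓ
  | 4 => Φ.orth x
  | _ => ⊤

/-- the property of the elements of the unipotent radical -/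
private def Un (C : ℕ → Submodule K V) (g : V ≃ₗ[K] V) : Prop :=
  ∀ i, ∀ v ∈ C (i + 1), g v - v ∈ C i

omit [Finite K] [Finite V] in
private theorem isF_iff {x ℓ : Submodule K V} {g : V ≃ₗ[K] V} :
    Φ.IsF x ℓ g ↔ g ∈ Φ.Iso ∧ Un (Ch Φ x ℓ) g := by
  constructor
  · rintro ⟨h1, h2, h3, h4, h5, h6⟩
    refine ⟨h1, fun i v hv => ?_⟩
    match i with
    | 0 =>
      change g v - v ∈ (⊥ : Submodule K V)
      rw [h2 v hv, sub_self]
      exact Submodule.zero_mem _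
    | 1 => exact h3 v hv
    | 2 => exact h4 v hv
    | 3 => exact h5 v hv
    | 4 => exact h6 v
    | (n + 5) => exact Submodule.mem_top
  · rintro ⟨h1, h⟩
    refine ⟨h1, fun v hv => ?_, fun v hv => h 1 v hv, fun v hv => h 2 v hv, fun v hv => h 3 v hv,
      fun v => h 4 v Submodule.mem_top⟩
    have h2 : g v - v ∈ (⊥ : Submodule K V) := h 0 v hv
    exact sub_eq_zero.1 ((Submodule.mem_bot K).1 h2)

omit [Finite K] [Finite V] in
private theorem Un.maps {C : ℕ → Submodule K V} (hC : Monotone C) (h0 : C 0 = ⊥)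
    {g : V ≃ₗ[K] V} (hg : Un C g) (i : ℕ) {v : V} (hv : v ∈ C i) : g v ∈ C i := by
  cases i with
  | zero =>
    rw [h0, Submodule.mem_bot] at hv ⊢
    rw [hv, map_zero]
  | succ j =>
    have h1 : g v = v + (g v - v) := by abel
    rw [h1]
    exact Submodule.add_mem _ hv (hC (Nat.le_succ j) (hg j v hv))

omit [Finite K] in
private theorem Un.symm_maps {C : ℕ → Submodule K V} (hC : Monotone C) (h0 : C 0 = ⊥)
    {g : V ≃ₗ[K] V} (hg : Un C g) (i : ℕ) {v : V} (hv : v ∈ C i) : g⁻¹ v ∈ C i := by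
  have h1 : (C i).map (g : V →ₗ[K] V) ≤ C i := by
    rintro _ ⟨w, hw, rfl⟩
    exact hg.maps hC h0 i hw
  have h2 : (C i).map (g : V →ₗ[K] V) = C i :=
    Submodule.eq_of_le_of_finrank_le h1 (le_of_eq finrank_map_eq.symm)
  rw [← h2] at hv
  obtain ⟨w, hw, hwv⟩ := hv
  have h3 : g⁻¹ v = w := by
    rw [← hwv]
    exact g.symm_apply_apply w
  rw [h3]
  exact hw

omit [Finite K] [Finite V] in
private theorem Un.mul {C : ℕ → Submodule K V} (hC : Monotone C) (h0 : C 0 = ⊥)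
    {g h : V ≃ₗ[K] V} (hg : Un C g) (hh : Un C h) : Un C (g * h) := by
  intro i v hv
  have h1 : (g * h) v - v = g (h v - v) + (g v - v) := by
    change g (h v) - v = _
    rw [map_sub]
    abel
  rw [h1]
  exact Submodule.add_mem _ (hg.maps hC h0 i (hh i v hv)) (hg i v hv)

omit [Finite K] in
private theorem Un.inv {C : ℕ → Submodule K V} (hC : Monotone C) (h0 : C 0 = ⊥)
    {g : V ≃ₗ[K] V} (hg : Un C g) : Un C g⁻¹ := by
  intro i v hv
  have h1 := hg i (g⁻¹ v) (hg.symm_maps hC h0 (i + 1) hv)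
  have h2 : g (g⁻¹ v) = v := g.apply_symm_apply v
  rw [h2] at h1
  have h3 : g⁻¹ v - v = -(v - g⁻¹ v) := by abel
  rw [h3]
  exact Submodule.neg_mem _ h1

omit [Finite K] [Finite V] in
private theorem Un.conj {C : ℕ → Submodule K V} {g h : V ≃ₗ[K] V} (hg : Un C g)
    (hh : ∀ i, (C i).map (h : V →ₗ[K] V) = C i) : Un C (h * g * h⁻¹) := by
  intro i v hv
  have h1 : h⁻¹ v ∈ C (i + 1) := by
    rw [← hh (i + 1)] at hv
    obtain ⟨w, hw, hwv⟩ := hv
    have h3 : h⁻¹ v = w := by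
      rw [← hwv]
      exact h.symm_apply_apply w
    rw [h3]
    exact hw
  have h2 : (h * g * h⁻¹) v - v = h (g (h⁻¹ v) - h⁻¹ v) := by
    change h (g (h⁻¹ v)) - v = _
    rw [map_sub]
    have h3 : h (h⁻¹ v) = v := h.apply_symm_apply v
    rw [h3]
  rw [h2, ← hh i]
  exact ⟨_, hg i _ h1, rfl⟩

omit [Finite K] [Finite V] in
private theorem Un.pow {p : ℕ} [hp : Fact p.Prime] [CharP K p] {C : ℕ → Submodule K V}
    (h0 : C 0 = ⊥) (h5 : C 5 = ⊤) {g : V ≃ₗ[K] V} (hg : Un C g) : g ^ (p ^ 3) = 1 := by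
  rcases subsingleton_or_nontrivial V with hV | hV
  · exact LinearEquiv.ext fun v => Subsingleton.elim _ _
  haveI : CharP (Module.End K V) p :=
    charP_of_injective_algebraMap (FaithfulSMul.algebraMap_injective K (Module.End K V)) p
  obtain ⟨N, hN⟩ : ∃ N : Module.End K V, N = (g : V →ₗ[K] V) - 1 := ⟨_, rfl⟩
  have hNv : ∀ v, N v = g v - v := fun v => by
    rw [hN]
    rfl
  have hNk : ∀ k ≤ 5, ∀ v, (N ^ k) v ∈ C (5 - k) := by
    intro k
    induction k with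
    | zero =>
      intro _ v
      rw [Nat.sub_zero, h5]
      exact Submodule.mem_top
    | succ k ih =>
      intro hk v
      have h1 := ih (by omega) v
      have h2 : 5 - k = (5 - (k + 1)) + 1 := by omega
      rw [h2] at h1
      rw [pow_succ']
      change N ((N ^ k) v) ∈ _
      rw [hNv]
      exact hg _ _ h1
  have hN5 : N ^ 5 = 0 := by
    refine LinearMap.ext fun v => ?_
    have h1 := hNk 5 le_rfl v
    rw [Nat.sub_self, h0, Submodule.mem_bot] at h1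
    exact h1
  have hp8 : 5 ≤ p ^ 3 := by
    have h1 : 2 ≤ p := hp.out.two_le
    calc 5 ≤ 2 ^ 3 := by norm_num
      _ ≤ p ^ 3 := Nat.pow_le_pow_left h1 3
  have hNp : N ^ (p ^ 3) = 0 := by
    obtain ⟨m, hm⟩ := Nat.exists_eq_add_of_le hp8
    rw [hm, pow_add, hN5, zero_mul]
  have h6 : ((g : V →ₗ[K] V) : Module.End K V) ^ (p ^ 3) = 1 := by
    have h7 := sub_pow_char_pow_of_commute (R := Module.End K V) (p := p) (n := 3)
      (x := ((g : V →ₗ[K] V) : Module.End K V)) (y := 1) (Commute.one_right _)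
    rw [← hN, hNp, one_pow] at h7
    exact (sub_eq_zero.1 h7.symm)
  have h8 : ∀ (m : ℕ) (v : V), ((((g : V →ₗ[K] V) : Module.End K V) ^ m) v : V) = (g ^ m) v := by
    intro m
    induction m with
    | zero =>
      intro v
      rfl
    | succ m ih =>
      intro v
      rw [pow_succ', pow_succ']
      change g ((((g : V →ₗ[K] V) : Module.End K V) ^ m) v) = g ((g ^ m) v)
      rw [ih]
  refine LinearEquiv.ext fun v => ?_
  rw [← h8, h6]
  rfl

omit [Finite K] [Finite V] in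
private theorem ch_mono {x ℓ : Submodule K V} (hℓ : Φ.IsLn ℓ) (hxℓ : x ≤ ℓ) :
    Monotone (Ch Φ x ℓ) := by
  apply monotone_nat_of_le_succ
  intro n
  match n with
  | 0 => exact bot_le
  | 1 => exact hxℓ
  | 2 => exact hℓ.1.2
  | 3 => exact Φ.orth_anti hxℓ
  | 4 => exact le_top
  | (n + 5) => exact le_top

theorem flg_le {D : Subgroup (V ≃ₗ[K] V)} (hD : Φ.Grp D) {p : ℕ} [Fact p.Prime] [CharP K p]
    {x ℓ : Submodule K V} (hx : Φ.IsPt x) (hℓ : Φ.IsLn ℓ) (hxℓ : x ≤ ℓ)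
    {H : Subgroup ↥(PG D)} (h1 : H ≤ stE D x) (h2 : H ≤ stE D ℓ) (hp : ¬ p ∣ H.index)
    {g : V ≃ₗ[K] V} (hgD : g ∈ D) (hg : Φ.IsF x ℓ g) : toPG hgD ∈ H := by
  have hfin : Finite ↥(PG D) := finite_PG D
  have hm := ch_mono (Φ := Φ) hℓ hxℓ
  have h0 : Ch Φ x ℓ 0 = ⊥ := rfl
  have h5 : Ch Φ x ℓ 5 = ⊤ := rfl
  let F : Subgroup ↥(PG D) :=
    { carrier := {s | ∃ g ∈ D, Φ.IsF x ℓ g ∧ s.1 = lat K V g}
      one_mem' := ⟨1, D.one_mem, isF_iff.2 ⟨Φ.Iso.one_mem, fun i v _ => by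
        change v - v ∈ _
        rw [sub_self]
        exact Submodule.zero_mem _⟩, (map_one (lat K V)).symm⟩
      mul_mem' := by
        rintro s t ⟨a, haD, ha, hs⟩ ⟨b, hbD, hb, ht⟩
        refine ⟨a * b, D.mul_mem haD hbD, isF_iff.2 ⟨Φ.Iso.mul_mem (isF_iff.1 ha).1
          (isF_iff.1 hb).1, (isF_iff.1 ha).2.mul hm h0 (isF_iff.1 hb).2⟩, ?_⟩
        rw [map_mul, ← hs, ← ht]
        rfl
      inv_mem' := by
        rintro s ⟨a, haD, ha, hs⟩
        refine ⟨a⁻¹, D.inv_mem haD, isF_iff.2 ⟨Φ.Iso.inv_mem (isF_iff.1 ha).1,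
          (isF_iff.1 ha).2.inv hm h0⟩, ?_⟩
        rw [map_inv, ← hs]
        rfl }
  have hFp : IsPGroup p ↥F := by
    rintro ⟨s, a, haD, ha, hs⟩
    refine ⟨3, Subtype.ext (Subtype.ext ?_)⟩
    show s.1 ^ (p ^ 3) = 1
    rw [hs, ← map_pow, (isF_iff.1 ha).2.pow (p := p) h0 h5, map_one]
  have hN : ∀ h ∈ H, ∀ f ∈ F, h * f * h⁻¹ ∈ F := by
    rintro s hs f ⟨a, haD, ha, hf⟩
    have e1 := h1 hs
    have e2 := h2 hs
    obtain ⟨b, hbD, rfl⟩ := exists_toPG s
    rw [mem_stE, toPG_apply] at e1 e2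
    have hbI := hD.le hbD
    have hch : ∀ i, (Ch Φ x ℓ i).map (b : V →ₗ[K] V) = Ch Φ x ℓ i := by
      intro i
      match i with
      | 0 => exact Submodule.map_bot _
      | 1 => exact e1
      | 2 => exact e2
      | 3 =>
        change (Φ.orth ℓ).map (b : V →ₗ[K] V) = Φ.orth ℓ
        rw [← orth_map hbI, e2]
      | 4 =>
        change (Φ.orth x).map (b : V →ₗ[K] V) = Φ.orth x
        rw [← orth_map hbI, e1]
      | (n + 5) =>
        change (⊤ : Submodule K V).map (b : V →ₗ[K] V) = ⊤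
        rw [Submodule.map_top, LinearMap.range_eq_top]
        exact b.surjective
    refine ⟨b * a * b⁻¹, D.mul_mem (D.mul_mem hbD haD) (D.inv_mem hbD), isF_iff.2
      ⟨Φ.Iso.mul_mem (Φ.Iso.mul_mem hbI (isF_iff.1 ha).1) (Φ.Iso.inv_mem hbI),
        (isF_iff.1 ha).2.conj hch⟩, ?_⟩
    rw [map_mul, map_mul, map_inv, ← hf]
    rfl
  exact syl_le hp hFp hN ⟨g, hgD, hg, rfl⟩

end PS

end Pool.Agent.Work.MP_bc729a_al.CG
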