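import Pool.Agent.Work.MP_bc729a_al.CO.Trs
import Pool.Agent.Work.MP_bc729a_al.CO.Fb
import Pool.Agent.Work.MP_bc729a_al.CO.Mvi
import Pool.Agent.Work.MP_bc729a_al.CO.Flg
import Pool.Agent.Work.MP_bc729a_al.CO.LnS
import Pool.Agent.Work.MP_bc729a_al.CG.Idxp
import Pool.Agent.Work.MP_bc729a_al.CG.Pts
import Pool.Agent.Work.MP_bc729a_al.CG.Mst

/-! # Module IcS (M): incidence of lines and solids

PROOF. `→`: `(stE D ℓ ⊓ stE D E).index = (stE D ℓ).relIndex (stE D E) * (stE D E).index`. The second factor is `pn ⊤ ≡ 1` (`index_sd`, `pn_mod`: `c ≤ 3 ≤ 8`), the first one is the number of images of `ℓ` under `stE D E` (`relIndex_stE`), which are all lines of `E` (`sub_trans`; `exists_toPG`), `≡ 1` by `card_lines_sd`.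
`←`: let `H = stE D ℓ ⊓ stE D E`, `¬ p ∣ H.index`. `fix_pt`: a point `x ≤ ℓ` with `¬ p ∣ (H ⊓ stE D x).index`. `flg_le` for `H ⊓ stE D x`: every `g ∈ D` with `IsF x ℓ g` satisfies `E.map g = E`. (a) `x ≤ E`: otherwise `mv_in` (`W = ⊤`, `y := x`) gives `g`, `IsU x g`, `E.map g ≠ E`, and `IsF x ℓ g` (`g v - v ∈ x` for `v ∈ orth x`; `g v - v ∈ orth x` for all `v`, as `B (g v - v) x₀ = B (g v) (g x₀) - B v x₀ = 0`; `x ≤ ℓ ≤ orth ℓ ≤ orth x`).
(b) `y ≤ E` for every point `y ≤ ℓ`, `y ≠ x`: otherwise `sep` (`W = ⊤`, `E := y`, `z := x`) gives a point `z ≤ orth y`, `¬ z ≤ orth x`. `W = orth (x ⊔ z)` is nondegenerate (`hyp_nd`, `ND.orth`) of dimension `6`, `y ≤ W`, `orth W = x ⊔ z`. `E' = E ⊓ W = E ⊓ orth z` (`E ≤ orth x`) has dimension `3`, `¬ y ≤ E'`. `mv_in` (`W`, `E'`, `y`) gives `g`, `IsU y g`, trivial on `x ⊔ z`, `E'.map g ≠ E'`. `IsF x ℓ g`: `g` is trivial on `x` and on `ℓ = x ⊔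 y`; for `v ∈ orth ℓ ≤ orth y`: `g v - v ∈ y ≤ ℓ`;
for `v ∈ orth x`: `g v - v` is perpendicular to `y` (as above) and to `x` (`g x₀ = x₀`), so it is in `orth ℓ`; for all `v` it is in `orth x`. So `E.map g = E`, and `W.map g = W` (`orth_map`, `g` is trivial on `orth W`), so `E'.map g = E'` (`Submodule.map_inf`), contradiction. So `ℓ ≤ E` (`ts_pts`). -/

namespace Pool.Agent.Work.MP_bc729a_al.CG

open Module

universe u v

variable {K : Type u} {V : Type v} [Field K] [AddCommGroup V] [Module K V] [Finite K] [Finite V]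

namespace PS

variable {Φ : PS K V}

private theorem sub_mem_orth_of_fix {x : Submodule K V} {g : V ≃ₗ[K] V} (hg : g ∈ Φ.Iso)
    (h : ∀ v ∈ x, g v = v) (v : V) : g v - v ∈ Φ.orth x := by
  intro w hw
  rw [B_sub_left]
  have h1 := hg.1 v w
  rw [h w hw] at h1
  rw [h1, sub_self]

private theorem ic_sd_mp {D : Subgroup (V ≃ₗ[K] V)} (hD : Φ.Grp D) {p : ℕ} [Fact p.Prime] [CharP K p]
    (hn : finrank K V = 8) (ht : Φ.t = 1) {M : Set (Submodule K V)} (hM : Φ.Fam D M)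
    {E ℓ : Submodule K V} (hE : Φ.IsSd E) (hℓ : Φ.IsLn ℓ) (hle : ℓ ≤ E) :
    ¬ p ∣ (stE D ℓ ⊓ stE D E).index := by
  have e1 : (stE D ℓ ⊓ stE D E).index = (stE D ℓ).relIndex (stE D E) * (stE D E).index := by
    rw [← Subgroup.relIndex_mul_index (inf_le_right : stE D ℓ ⊓ stE D E ≤ stE D E),
      Subgroup.inf_relIndex_right]
  have e2 : (stE D ℓ).relIndex (stE D E) = Nat.card {m : Submodule K V // Φ.IsLn m ∧ m ≤ E} := by
    rw [relIndex_stE]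
    apply Nat.card_congr
    apply Equiv.subtypeEquivRight
    intro m
    constructor
    · rintro ⟨s, hs, rfl⟩
      obtain ⟨g, hg, rfl⟩ := exists_toPG s
      refine ⟨⟨?_, ?_⟩, ?_⟩
      · rw [toPG_apply]
        exact hℓ.1.map (hD.le hg)
      · rw [toPG_apply, finrank_map_eq]
        exact hℓ.2
      · have h1 : (toPG hg).1 E = E := hs
        calc (toPG hg).1 ℓ ≤ (toPG hg).1 E := (toPG hg).1.monotone hle
          _ = E := h1
    · rintro ⟨hm, hmE⟩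
      obtain ⟨g, hg, h1, h2⟩ := sub_trans hD hE.1 hle hmE (hℓ.2.trans hm.2.symm)
      exact ⟨toPG hg, h1, h2⟩
  have e3 := card_lines_sd (Φ := Φ) (p := p) hE
  have e4 : Φ.pn ⊤ ≡ 1 [MOD p] := by
    apply pn_mod
    rw [finrank_top, hn]
    have := Φ.c_le
    omega
  have e5 : (stE D ℓ ⊓ stE D E).index ≡ 1 [MOD p] := by
    rw [e1, e2, index_sd hD hn ht hM hE]
    simpa using e3.mul e4
  intro hd
  have h1 : (1 : ℕ) ≡ 0 [MOD p] := e5.symm.trans ((Nat.modEq_zero_iff_dvd).2 hd)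
  have h2 : p ∣ 1 := (Nat.modEq_zero_iff_dvd).1 h1
  exact (Fact.out : p.Prime).one_lt.ne' (Nat.dvd_one.1 h2)

private theorem ic_sd_mpr {D : Subgroup (V ≃ₗ[K] V)} (hD : Φ.Grp D) {p : ℕ} [Fact p.Prime] [CharP K p]
    (hn : finrank K V = 8)
    {E ℓ : Submodule K V} (hE : Φ.IsSd E) (hℓ : Φ.IsLn ℓ)
    (hp : ¬ p ∣ (stE D ℓ ⊓ stE D E).index) : ℓ ≤ E := by
  obtain ⟨x, hx, hxℓ, hpx⟩ := fix_pt hD hℓ (H := stE D ℓ ⊓ stE D E) inf_le_left hp
  have key : ∀ g : V ≃ₗ[K] V, Φ.IsF x ℓ g → g ∈ D → E.map (g : V →ₗ[K] V) = E := by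
    intro g hg hgD
    have h := flg_le hD hx hℓ hxℓ (H := (stE D ℓ ⊓ stE D E) ⊓ stE D x) inf_le_right
      (inf_le_left.trans inf_le_left) hpx hgD hg
    exact h.1.2
  have hℓo : ℓ ≤ Φ.orth ℓ := hℓ.1.2
  have hoℓ : Φ.orth ℓ ≤ Φ.orth x := Φ.orth_anti hxℓ
  have hE0 : E ≠ ⊥ := by
    rintro rfl
    have := hE.2
    rw [finrank_bot] at this
    omega
  -- (a)
  have hxE : x ≤ E := by
    by_contra hc
    obtain ⟨g, hg, -, hne⟩ := mv_in (W := ⊤) Φ.ND_top (by rw [finrank_top, hn]; omega) hE.1 le_top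
      hE0 hx le_top hc
    apply hne
    apply key g _ (hD.u x hx hg)
    refine ⟨hg.1, hg.2.1, fun v hv => hg.2.2 v (hoℓ (hℓo hv)), fun v hv => hxℓ (hg.2.2 v (hoℓ hv)),
      fun v hv => hℓo (hxℓ (hg.2.2 v hv)), fun v => sub_mem_orth_of_fix hg.1 hg.2.1 v⟩
  -- (b)
  rw [ts_pts hℓ.1]
  apply sSup_le
  rintro y ⟨hy, hyℓ⟩
  by_contra hyE
  have hyx : y ≠ x := by
    rintro rfl
    exact hyE hxE
  obtain ⟨z, hz, -, hzy, hzx⟩ := sep (W := ⊤) (E := y) (z := x) Φ.ND_top hy.ts le_top hx le_top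
    (fun h => hyx (hx.eq_of_le hy h).symm)
  obtain ⟨hnd, hd2⟩ := hyp_nd hx hz hzx
  have hW := hnd.orth
  have hW6 : finrank K ↥(Φ.orth (x ⊔ z)) = 6 := by
    have := Φ.finrank_orth (x ⊔ z)
    omega
  have hyW : y ≤ Φ.orth (x ⊔ z) := by
    rw [orth_sup]
    exact le_inf (hyℓ.trans (hℓo.trans hoℓ)) (Φ.le_orth_comm.1 hzy)
  have hoW : Φ.orth (Φ.orth (x ⊔ z)) = x ⊔ z := Φ.orth_orth _
  have hE' : Φ.TS (E ⊓ Φ.orth (x ⊔ z)) := hE.1.mono inf_le_left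
  have hE'0 : E ⊓ Φ.orth (x ⊔ z) ≠ ⊥ := by
    intro h
    have h1 := Submodule.finrank_sup_add_finrank_inf_eq E (Φ.orth (x ⊔ z))
    rw [h, finrank_bot, hE.2, hW6] at h1
    have h2 := Submodule.finrank_le (E ⊔ Φ.orth (x ⊔ z))
    omega
  obtain ⟨g, hg, hgW, hne⟩ := mv_in hW (by omega) hE' inf_le_right hE'0 hy hyW
    (fun h => hyE (h.trans inf_le_left))
  rw [hoW] at hgW
  have hgx : ∀ v ∈ x, g v = v := fun v hv => hgW v (le_sup_left (a := x) (b := z) hv)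
  have hxy : ℓ = x ⊔ y := by
    have h0 : x ⊓ y = ⊥ := hx.inf_eq_bot (fun h => hyx (hx.eq_of_le hy h).symm)
    have h1 := Submodule.finrank_sup_add_finrank_inf_eq x y
    rw [h0, finrank_bot, hx.finrank, hy.finrank] at h1
    symm
    apply Submodule.eq_of_le_of_finrank_le (sup_le hxℓ hyℓ)
    rw [hℓ.2]
    omega
  have hgℓ : ∀ v ∈ ℓ, g v = v := by
    intro v hv
    rw [hxy] at hv
    obtain ⟨a, ha, b, hb, rfl⟩ := Submodule.mem_sup.1 hv
    rw [map_add, hgx a ha, hg.2.1 b hb]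
  have hF : Φ.IsF x ℓ g := by
    refine ⟨hg.1, hgx, ?_, ?_, ?_, ?_⟩
    · intro v hv
      rw [hgℓ v hv, sub_self]
      exact x.zero_mem
    · intro v hv
      exact hyℓ (hg.2.2 v (Φ.orth_anti hyℓ hv))
    · intro v _
      exact sub_mem_orth_of_fix hg.1 hgℓ v
    · intro v
      exact sub_mem_orth_of_fix hg.1 hgx v
  have h1 := key g hF (hD.u y hy hg)
  have h2 : (Φ.orth (x ⊔ z)).map (g : V →ₗ[K] V) = Φ.orth (x ⊔ z) := by
    rw [← orth_map hg.1]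
    congr 1
    apply le_antisymm
    · rintro _ ⟨v, hv, rfl⟩
      have h3 : (g : V →ₗ[K] V) v = v := hgW v hv
      rw [h3]
      exact hv
    · intro v hv
      exact ⟨v, hv, hgW v hv⟩
  apply hne
  rw [Submodule.map_inf _ g.injective, h1, h2]

theorem ic_sd {D : Subgroup (V ≃ₗ[K] V)} (hD : Φ.Grp D) {p : ℕ} [Fact p.Prime] [CharP K p]
    (hn : finrank K V = 8) (ht : Φ.t = 1) {M : Set (Submodule K V)} (hM : Φ.Fam D M)
    {E ℓ : Submodule K V} (hE : Φ.IsSd E) (hℓ : Φ.IsLn ℓ) :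
    ℓ ≤ E ↔ ¬ p ∣ (stE D ℓ ⊓ stE D E).index :=
  ⟨fun h => ic_sd_mp hD hn ht hM hE hℓ h, fun h => ic_sd_mpr hD hn hE hℓ h⟩

end PS

end Pool.Agent.Work.MP_bc729a_al.CG
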