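import Pool.Agent.Work.MP_bc729a_al.CO.Obi
import Pool.Agent.Work.MP_bc729a_al.CO.IcS
import Pool.Agent.Work.MP_bc729a_al.CO.FmO
import Pool.Agent.Work.MP_bc729a_al.CO.Mvi
import Pool.Agent.Work.MP_bc729a_al.CR.Inc
import Pool.Agent.Work.MP_bc729a_al.CG.Idxp
import Pool.Agent.Work.MP_bc729a_al.CG.TrnA

/-! # Module Ac (M): automorphisms act on points, solids and lines

Let `p` be the characteristic. `f`: for `a : Ob` the subgroup `(stE D a).map α` has index `(stE D a).index = pn ⊤` (`index_pt`, `index_sd`), so it is `stE D a'` for an `a' : Ob` (`ob_idx`); `f a = a'`. `f` is injective (`Subgroup.map_injective`, `stE_ts_inj`; points and solids are totally singular, `≠ ⊥`), so bijective (`Ob` is finite). `g` in the same way with `ln_img`.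
`inc`: for `a : Ob`, `ℓ` a line: `Ic a ℓ ↔ ¬ p ∣ (stE D a ⊓ stE D ℓ).index`: for a point `Ic a ℓ ↔ a ≤ ℓ` (dimensions) and `inc_iff` (CR/Inc, `c + 2 ≤ 8`); for a solid `Ic a ℓ ↔ ℓ ≤ a` and `ic_sd`, `inf_comm`. The index is preserved by `α` (`Subgroup.map_inf` for the injective `α`, `Subgroup.index_map_equiv`).
`cls`, `cls'`: let `C` be one of the three classes. It is preserved by `D` and `D` is transitive on it (points: `IsPt.map`, `trans_pt` with `W = ⊤`; `M`: `hM`; `oth M`: `oth_fam`), it has `pn ⊤` elements, and every `a : Ob` is in exactly one class (a solid is not a point; `M`, `oth M` are disjoint and contain all solids). (*) Let `a₀ : Ob`, `a₀ ∈ C`, `f a₀ ∈ C'`. For every `a ∈ C` there is `s : PG D`, `a = s.1 a₀`, so `stE D a = (stE D a₀).map (conj s)` (`stE_conj`),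
so `stE D (f a) = (stE D (f a₀)).map (conj (α s)) = stE D ((α s).1 (f a₀))`, `f a = (α s).1 (f a₀) ∈ C'` (`stE_ts_inj`). So `f` maps `C` into `C'`; both have `pn ⊤` elements and `f` is injective, so `f a ∈ C' ↔ a ∈ C` for all `a`. `cls`: take any `a₀ ∈ C` and the class `C'` of `f a₀`. `cls'`: take `b ∈ C'`, `a₀ = f⁻¹ b`, `C` the class of `a₀`. -/

namespace Pool.Agent.Work.MP_bc729a_al.CG

open Module

universe u v

variable {K : Type u} {V : Type v} [Field K] [AddCommGroup V] [Module K V] [Finite K] [Finite V]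

namespace PS

variable {Φ : PS K V}

private theorem ac_perm {X : Type v} [Finite X] {G : Type v} [Group G] (S : X → Subgroup G)
    (hS : Function.Injective S) (α : MulAut G)
    (h : ∀ a, ∃ b, (S a).map α.toMonoidHom = S b) :
    ∃ f : Equiv.Perm X, ∀ a, (S a).map α.toMonoidHom = S (f a) := by
  choose f hf using h
  have hinj : Function.Injective f := by
    intro a b hab
    apply hS
    have h1 : (S a).map α.toMonoidHom = (S b).map α.toMonoidHom := by rw [hf a, hf b, hab]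
    exact Subgroup.map_injective (f := α.toMonoidHom) α.injective h1
  exact ⟨Equiv.ofBijective f (Finite.injective_iff_bijective.1 hinj), hf⟩

omit [Finite K] [Finite V] in
private theorem ac_ts (a : Φ.Ob) : Φ.TS a.1 ∧ a.1 ≠ ⊥ := by
  obtain ⟨a, ha | ha⟩ := a
  · exact ⟨ha.ts, ha.ne_bot⟩
  · refine ⟨ha.1, ?_⟩
    intro h
    have h1 := ha.2
    change a = ⊥ at h
    rw [h, finrank_bot] at h1
    omega

private theorem ac_inj {D : Subgroup (V ≃ₗ[K] V)} (hD : Φ.Grp D) (hn : finrank K V = 8)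
    {a b : Φ.Ob} (h : stE D a.1 = stE D b.1) : a = b :=
  Subtype.ext (stE_ts_inj hD (by omega) (ac_ts a).1 (ac_ts b).1 (ac_ts a).2 (ac_ts b).2 h)

private theorem ac_idx {D : Subgroup (V ≃ₗ[K] V)} (hD : Φ.Grp D) (hn : finrank K V = 8)
    (ht : Φ.t = 1) {M : Set (Submodule K V)} (hM : Φ.Fam D M) (a : Φ.Ob) :
    (stE D a.1).index = Φ.pn ⊤ := by
  obtain ⟨a, ha | ha⟩ := a
  · exact index_pt hD (by omega) ha
  · exact index_sd hD hn ht hM ha

omit [Finite V] in
private theorem ac_c (ht : Φ.t = 1) : Φ.c = 3 := by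
  have hQ : 1 < Nat.card K := Finite.one_lt_card
  rcases Φ.typ with ⟨h, -⟩ | ⟨-, h⟩ | ⟨-, h⟩
  · exact h
  · rw [ht] at h
    omega
  · rw [ht] at h
    omega

private theorem ac_ic {D : Subgroup (V ≃ₗ[K] V)} (hD : Φ.Grp D) {p : ℕ} [Fact p.Prime]
    [CharP K p] (hn : finrank K V = 8)
    (ht : Φ.t = 1) {M : Set (Submodule K V)} (hM : Φ.Fam D M) (a : Φ.Ob) (ℓ : Φ.Lx) :
    Ic a.1 ℓ.1 ↔ ¬ p ∣ (stE D a.1 ⊓ stE D ℓ.1).index := by
  obtain ⟨ℓ, hℓ⟩ := ℓ
  obtain ⟨a, ha | ha⟩ := a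
  · change Ic a ℓ ↔ ¬ p ∣ (stE D a ⊓ stE D ℓ).index
    rw [← inc_iff hD (by rw [ac_c ht, hn]; omega) ha hℓ]
    constructor
    · rintro (h | h)
      · exact h
      · have h1 := Submodule.finrank_mono h
        rw [hℓ.2, ha.finrank] at h1
        omega
    · exact Or.inl
  · change Ic a ℓ ↔ ¬ p ∣ (stE D a ⊓ stE D ℓ).index
    rw [inf_comm, ← ic_sd hD hn ht hM ha hℓ]
    constructor
    · rintro (h | h)
      · have h1 := Submodule.finrank_mono h
        rw [hℓ.2, ha.2] at h1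
        omega
      · exact h
    · exact Or.inr

private theorem ac_map_index {G : Type v} [Group G] (H L : Subgroup G) (α : MulAut G) :
    (H.map α.toMonoidHom ⊓ L.map α.toMonoidHom).index = (H ⊓ L).index := by
  rw [← Subgroup.map_inf H L α.toMonoidHom α.injective]
  exact Subgroup.index_map_equiv (H ⊓ L) α

private structure AcC (Φ : PS K V) (D : Subgroup (V ≃ₗ[K] V)) (C : Set (Submodule K V)) :
    Prop where
  ob : ∀ a ∈ C, Φ.IsPt a ∨ Φ.IsSd a
  tr : ∀ a ∈ C, ∀ b ∈ C, ∃ s : ↥(PG D), s.1 a = b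
  inv : ∀ (s : ↥(PG D)), ∀ a ∈ C, s.1 a ∈ C
  card : Nat.card C = Φ.pn ⊤

omit [Finite K] [Finite V] in
private theorem ac_fam {D : Subgroup (V ≃ₗ[K] V)} {M : Set (Submodule K V)}
    (hM : Φ.Fam D M) : AcC Φ D M where
  ob a ha := Or.inr (hM.sd a ha)
  tr a ha b hb := by
    obtain ⟨g, hg, h⟩ := hM.trans a ha b hb
    exact ⟨toPG hg, h⟩
  inv s a ha := by
    obtain ⟨g, hg, rfl⟩ := exists_toPG s
    exact hM.inv g hg a ha
  card := hM.card

private theorem ac_cls {D : Subgroup (V ≃ₗ[K] V)} (hD : Φ.Grp D) (hn : finrank K V = 8)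
    (ht : Φ.t = 1) {M : Set (Submodule K V)} (hM : Φ.Fam D M) {C : Set (Submodule K V)}
    (hC : Φ.IsC M C) : AcC Φ D C := by
  rcases hC with h | h | h
  · rw [h]
    refine ⟨fun a ha => Or.inl ha, ?_, ?_, ?_⟩
    · intro a ha b hb
      have hnd : Φ.ND (⊤ : Submodule K V) := by
        unfold ND
        rw [orth_top, inf_bot_eq]
      obtain ⟨g, hg, -, h1⟩ := trans_pt hD hnd (Or.inl (by rw [finrank_top]; omega)) ha le_top hb
        le_top
      exact ⟨toPG hg, h1⟩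
    · intro s a ha
      obtain ⟨g, hg, rfl⟩ := exists_toPG s
      exact IsPt.map ha (hD.le hg)
    · unfold pn
      refine Nat.card_congr (Equiv.subtypeEquivRight ?_)
      intro x
      exact ⟨fun h1 => ⟨h1, le_top⟩, fun h1 => h1.1⟩
  · rw [h]
    exact ac_fam hM
  · rw [h]
    exact ac_fam (oth_fam hD hn ht hM).1

omit [Finite K] [Finite V] in
private theorem ac_ex (M : Set (Submodule K V)) (a : Φ.Ob) : ∃ C, Φ.IsC M C ∧ a.1 ∈ C := by
  obtain ⟨a, ha | ha⟩ := a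
  · exact ⟨_, Or.inl rfl, ha⟩
  · by_cases h : a ∈ M
    · exact ⟨M, Or.inr (Or.inl rfl), h⟩
    · exact ⟨Φ.oth M, Or.inr (Or.inr rfl), ha, h⟩

omit [Finite K] [Finite V] in
private theorem ac_card {D : Subgroup (V ≃ₗ[K] V)} {C : Set (Submodule K V)}
    (hC : AcC Φ D C) : {a : Φ.Ob | a.1 ∈ C}.ncard = Φ.pn ⊤ := by
  rw [← Nat.card_coe_set_eq, ← hC.card]
  exact Nat.card_congr ⟨fun a => ⟨a.1.1, a.2⟩, fun a => ⟨⟨a.1, hC.ob a.1 a.2⟩, a.2⟩,
    fun _ => rfl, fun _ => rfl⟩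

private theorem ac_key {D : Subgroup (V ≃ₗ[K] V)} (hD : Φ.Grp D) (hn : finrank K V = 8)
    {C C' : Set (Submodule K V)} (hC : AcC Φ D C) (hC' : AcC Φ D C') (α : MulAut ↥(PG D))
    (f : Equiv.Perm Φ.Ob) (hf : ∀ a : Φ.Ob, (stE D a.1).map α.toMonoidHom = stE D (f a).1)
    {a₀ : Φ.Ob} (h0 : a₀.1 ∈ C) (h0' : (f a₀).1 ∈ C') (a : Φ.Ob) :
    (f a).1 ∈ C' ↔ a.1 ∈ C := by
  have hfin : Finite (Submodule K V) :=
    Finite.of_injective (fun W : Submodule K V => (W : Set V)) SetLike.coe_injective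
  have key : ∀ a : Φ.Ob, a.1 ∈ C → (f a).1 ∈ C' := by
    intro a ha
    obtain ⟨s, hs⟩ := hC.tr a₀.1 h0 a.1 ha
    have h1 : (stE D a.1).map α.toMonoidHom = stE D ((α s).1 (f a₀).1) := by
      rw [← stE_conj D (α s) (f a₀).1, ← hf a₀, ← hs, ← stE_conj D s a₀.1, Subgroup.map_map,
        Subgroup.map_map]
      congr 1
      ext x : 1
      change α (s * x * s⁻¹) = α s * α x * (α s)⁻¹
      rw [map_mul, map_mul, map_inv]
    have h2 := hC'.inv (α s) (f a₀).1 h0'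
    have h3 : f a = ⟨(α s).1 (f a₀).1, hC'.ob _ h2⟩ := by
      apply ac_inj hD hn
      rw [← hf a, h1]
    rw [h3]
    exact h2
  constructor
  · intro h
    have h1 : f '' {a : Φ.Ob | a.1 ∈ C} ⊆ {a : Φ.Ob | a.1 ∈ C'} := by
      rintro _ ⟨b, hb, rfl⟩
      exact key b hb
    have h2 : f '' {a : Φ.Ob | a.1 ∈ C} = {a : Φ.Ob | a.1 ∈ C'} := by
      apply Set.eq_of_subset_of_ncard_le h1
      rw [Set.ncard_image_of_injective _ f.injective, ac_card hC, ac_card hC']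
    have h3 : f a ∈ f '' {a : Φ.Ob | a.1 ∈ C} := by
      rw [h2]
      exact h
    obtain ⟨b, hb, hba⟩ := h3
    rw [← f.injective hba]
    exact hb
  · exact key a

theorem exists_act {D : Subgroup (V ≃ₗ[K] V)} (hD : Φ.Grp D) [IsSimpleGroup ↥(PG D)]
    (hn : finrank K V = 8) (ht : Φ.t = 1) {M : Set (Submodule K V)} (hM : Φ.Fam D M)
    (α : MulAut ↥(PG D)) : ∃ f g, Φ.Act D M α f g := by
  obtain ⟨p, hp⟩ := CharP.exists K
  have hpf : Fact p.Prime := ⟨CharP.char_is_prime K p⟩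
  have hfin : Finite (Submodule K V) :=
    Finite.of_injective (fun W : Submodule K V => (W : Set V)) SetLike.coe_injective
  obtain ⟨f, hf⟩ := ac_perm (fun a : Φ.Ob => stE D a.1) (fun a b h => ac_inj hD hn h) α (by
    intro a
    have h1 : ((stE D a.1).map α.toMonoidHom).index = Φ.pn ⊤ := by
      rw [← ac_idx hD hn ht hM a]
      exact Subgroup.index_map_equiv (stE D a.1) α
    exact ob_idx (p := p) hD hn ht hM h1)
  obtain ⟨g, hg⟩ := ac_perm (fun ℓ : Φ.Lx => stE D ℓ.1)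
    (fun a b h => Subtype.ext (stE_ln_inj hD a.2 b.2 h)) α (by
    intro ℓ
    obtain ⟨ℓ', h1, h2⟩ := ln_img (p := p) hD hn ht hM α ℓ.2
    exact ⟨⟨ℓ', h1⟩, h2⟩)
  have hpn : Φ.pn ⊤ ≠ 0 := by
    obtain ⟨E, hE⟩ := hM.ne
    have hG := finite_PG D
    rw [← index_sd hD hn ht hM (hM.sd E hE)]
    exact Subgroup.index_ne_zero_of_finite
  refine ⟨f, g, hf, hg, ?_, ?_, ?_⟩
  · intro a ℓ
    rw [ac_ic (p := p) hD hn ht hM, ac_ic (p := p) hD hn ht hM a ℓ]
    have h1 : (stE D (f a).1 ⊓ stE D (g ℓ).1).index = (stE D a.1 ⊓ stE D ℓ.1).index := by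
      have h2 := hf a
      have h3 := hg ℓ
      rw [← h2, ← h3]
      exact ac_map_index _ _ α
    rw [h1]
  · intro C hC
    have hA := ac_cls hD hn ht hM hC
    obtain ⟨⟨a₀, h0⟩⟩ : Nonempty C := by
      by_contra h
      have h1 : IsEmpty C := not_nonempty_iff.1 h
      exact hpn (by rw [← hA.card, Nat.card_of_isEmpty])
    obtain ⟨C', hC', h1⟩ := ac_ex M (f ⟨a₀, hA.ob a₀ h0⟩)
    exact ⟨C', hC', fun a => ac_key hD hn hA (ac_cls hD hn ht hM hC') α f hf
      (a₀ := ⟨a₀, hA.ob a₀ h0⟩) h0 h1 a⟩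
  · intro C' hC'
    have hA := ac_cls hD hn ht hM hC'
    obtain ⟨⟨b, hb⟩⟩ : Nonempty C' := by
      by_contra h
      have h1 : IsEmpty C' := not_nonempty_iff.1 h
      exact hpn (by rw [← hA.card, Nat.card_of_isEmpty])
    obtain ⟨C, hC, h1⟩ := ac_ex M (f.symm ⟨b, hA.ob b hb⟩)
    refine ⟨C, hC, fun a => ac_key hD hn (ac_cls hD hn ht hM hC) hA α f hf
      (a₀ := f.symm ⟨b, hA.ob b hb⟩) h1 ?_ a⟩
    rw [Equiv.apply_symm_apply]
    exact hb

end PS

end Pool.Agent.Work.MP_bc729a_al.CG
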