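import Pool.Agent.Work.MP_bc729a_al.CO.Mxl
import Pool.Agent.Work.MP_bc729a_al.CG.Dsc
import Pool.Agent.Work.MP_bc729a_al.CG.Pts

/-! # Module CtR (M-L): counting maximal totally singular subspaces: the recursion

PROOF. Count the pairs `(x, E)`: `x` a point, `TS E`, `E ≤ W`, `finrank E = m + 1`, `x ≤ E`. For given `E` the number of `x` is `pn E = ∑ i ∈ range (m + 1), |K| ^ i` (`pn_ts`). For a given point `x ≤ W` choose `y ≤ W` opposite to `x` (`exists_opp`), `W' = W ⊓ orth (x ⊔ y)`. By `ts_le_max` (with the space from `hex`) there is a totally singular `F ≤ W` of dimension `m + 1` with `x ≤ F`; `dsc`: `W'` is nondegenerate of dimension `2 m`, `F ⊓ orth y ≤ W'` is totally singular of dimension `m`,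
so `mx W' m = N` (`hN`). `E ↦ E ⊓ orth y` and `F' ↦ x ⊔ F'` are inverse bijections between `{E | TS E, x ≤ E ≤ W, finrank E = m + 1}` and `{F' | TS F', F' ≤ W', finrank F' = m}`: `dsc` gives `x ⊔ E ⊓ orth y = E`; for `F' ≤ W'`: `x ⊔ F'` is totally singular (`TS.sup`, `F' ≤ orth x`), `≤ W`, of dimension `m + 1` (`¬ x ≤ F'`, as `F' ≤ orth y`), and `(x ⊔ F') ⊓ orth y = F'` (`a + b ∈ orth y` with `a ∈ x`, `b ∈ F' ≤ orth y` gives `a ∈ orth y`, `a = 0`).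
So the number of `E ∋ x` is `N`, and the number of pairs is `pn W * N` (e.g. `Nat.card` of sigma types, or `Finset.sum_comm'`). -/

namespace Pool.Agent.Work.MP_bc729a_al.CG

open Module

universe u v

variable {K : Type u} {V : Type v} [Field K] [AddCommGroup V] [Module K V] [Finite K] [Finite V]

namespace PS

variable {Φ : PS K V}

private theorem ctr_sigma {ι : Type v} [Finite ι] {β : ι → Type v} [∀ i, Finite (β i)] {n : ℕ}
    (h : ∀ i, Nat.card (β i) = n) : Nat.card (Σ i, β i) = Nat.card ι * n := by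
  have := Fintype.ofFinite ι
  rw [Nat.card_sigma, Finset.sum_congr rfl fun i _ => h i, Finset.sum_const, smul_eq_mul,
    Finset.card_univ, Nat.card_eq_fintype_card]

/-- the number of totally singular subspaces of dimension `m + 1` through a point -/
private theorem ctr_pt {W : Submodule K V} (hW : Φ.ND W) {m N : ℕ}
    (h : finrank K W = 2 * (m + 1))
    (hex : ∃ E, Φ.TS E ∧ E ≤ W ∧ finrank K E = m + 1)
    (hN : ∀ W', Φ.ND W' → W' ≤ W → finrank K W' = 2 * m →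
      (∃ E, Φ.TS E ∧ E ≤ W' ∧ finrank K E = m) → Φ.mx W' m = N)
    {x : Submodule K V} (hx : Φ.IsPt x) (hxW : x ≤ W) :
    Nat.card {E : Submodule K V // Φ.TS E ∧ E ≤ W ∧ finrank K E = m + 1 ∧ x ≤ E} = N := by
  obtain ⟨y, hy, hyW, hyx⟩ := exists_opp hW hx hxW
  obtain ⟨E₀, hE₀, hE₀W, hE₀d⟩ := hex
  obtain ⟨F, hF, hFW, hxF, hFd⟩ := ts_le_max hW hE₀ hE₀W (by rw [h, hE₀d]) hx.ts hxW
  obtain ⟨h1, h2, h3, h4, h5, -⟩ := dsc hW hF hFW hx hxF hy hyW hyx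
  have h6 := hN (W ⊓ Φ.orth (x ⊔ y)) h1 inf_le_left (by omega)
    ⟨F ⊓ Φ.orth y, h3, h5, by omega⟩
  rw [← h6]
  have hxy : ¬ x ≤ Φ.orth y := fun hh => hyx (Φ.le_orth_comm.1 hh)
  have hinf : x ⊓ Φ.orth y = ⊥ := hx.inf_eq_bot hxy
  have hbwd : ∀ F' : Submodule K V, Φ.TS F' → F' ≤ W ⊓ Φ.orth (x ⊔ y) → finrank K F' = m →
      Φ.TS (x ⊔ F') ∧ x ⊔ F' ≤ W ∧ finrank K ↥(x ⊔ F') = m + 1 ∧
        (x ⊔ F') ⊓ Φ.orth y = F' := by
    intro F' hF' hF'W hF'd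
    have h7 : F' ≤ Φ.orth x := hF'W.trans (inf_le_right.trans (Φ.orth_anti le_sup_left))
    have h8 : F' ≤ Φ.orth y := hF'W.trans (inf_le_right.trans (Φ.orth_anti le_sup_right))
    refine ⟨hx.ts.sup hF' (Φ.le_orth_comm.1 h7), sup_le hxW (hF'W.trans inf_le_left), ?_, ?_⟩
    · have h9 := Submodule.finrank_sup_add_finrank_inf_eq x F'
      rw [hx.inf_eq_bot fun h10 => hxy (h10.trans h8), finrank_bot, hx.finrank, hF'd] at h9
      omega
    · rw [sup_comm, sup_inf_assoc_of_le x h8, hinf, sup_bot_eq]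
  apply Nat.card_congr
  refine
    { toFun := fun E => ⟨E.1 ⊓ Φ.orth y, ?_⟩
      invFun := fun F' => ⟨x ⊔ F'.1, ?_⟩
      left_inv := ?_
      right_inv := ?_ }
  · obtain ⟨-, -, h7, h8, h9, -⟩ := dsc hW E.2.1 E.2.2.1 hx E.2.2.2.2 hy hyW hyx
    have h10 := E.2.2.2.1
    exact ⟨h7, h9, by omega⟩
  · obtain ⟨h7, h8, h9, -⟩ := hbwd F'.1 F'.2.1 F'.2.2.1 F'.2.2.2
    exact ⟨h7, h8, h9, le_sup_left⟩
  · intro E
    obtain ⟨-, -, -, -, -, h7⟩ := dsc hW E.2.1 E.2.2.1 hx E.2.2.2.2 hy hyW hyx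
    exact Subtype.ext h7
  · intro F'
    exact Subtype.ext (hbwd F'.1 F'.2.1 F'.2.2.1 F'.2.2.2).2.2.2

theorem ct_rec {W : Submodule K V} (hW : Φ.ND W) {m N : ℕ} (hm : 1 ≤ m)
    (h : finrank K W = 2 * (m + 1))
    (hex : ∃ E, Φ.TS E ∧ E ≤ W ∧ finrank K E = m + 1)
    (hN : ∀ W', Φ.ND W' → W' ≤ W → finrank K W' = 2 * m →
      (∃ E, Φ.TS E ∧ E ≤ W' ∧ finrank K E = m) → Φ.mx W' m = N) :
    Φ.mx W (m + 1) * ∑ i ∈ Finset.range (m + 1), Nat.card K ^ i = Φ.pn W * N := by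
  have hfin : Finite (Submodule K V) :=
    Finite.of_injective (fun U : Submodule K V => (U : Set V)) SetLike.coe_injective
  have h1 : Nat.card (Σ E : {E : Submodule K V // Φ.TS E ∧ E ≤ W ∧ finrank K E = m + 1},
      {x : Submodule K V // Φ.IsPt x ∧ x ≤ E.1}) =
      Φ.mx W (m + 1) * ∑ i ∈ Finset.range (m + 1), Nat.card K ^ i := by
    apply ctr_sigma
    intro E
    have h2 := pn_ts E.2.1
    rw [E.2.2.2] at h2
    exact h2
  have h2 : Nat.card (Σ x : {x : Submodule K V // Φ.IsPt x ∧ x ≤ W},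
      {E : Submodule K V // Φ.TS E ∧ E ≤ W ∧ finrank K E = m + 1 ∧ x.1 ≤ E}) =
      Φ.pn W * N := by
    apply ctr_sigma
    intro x
    exact ctr_pt hW h hex hN x.2.1 x.2.2
  rw [← h1, ← h2]
  apply Nat.card_congr
  exact
    { toFun := fun p => ⟨⟨p.2.1, p.2.2.1, p.2.2.2.trans p.1.2.2.1⟩,
        ⟨p.1.1, p.1.2.1, p.1.2.2.1, p.1.2.2.2, p.2.2.2⟩⟩
      invFun := fun p => ⟨⟨p.2.1, p.2.2.1, p.2.2.2.1, p.2.2.2.2.1⟩,
        ⟨p.1.1, p.1.2.1, p.2.2.2.2.2⟩⟩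
      left_inv := fun _ => rfl
      right_inv := fun _ => rfl }

end PS

end Pool.Agent.Work.MP_bc729a_al.CG
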