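import Pool.Agent.Work.MP_bc729a_al.CO.CtR
import Pool.Agent.Work.MP_bc729a_al.CG.BnO
import Pool.Agent.Work.MP_bc729a_al.CG.Dsc
import Pool.Agent.Work.MP_bc729a_al.CG.Pts

/-! # Module CtS (S-M): the number of solids

PROOF. Write `q = |K|`. (1) `W` nondegenerate of dimension `2` with a totally singular `E ≤ W`, `finrank E = 1`: `E` is a point (`TS.isPt`), `TS E` with `finrank E = 1` is the same as `IsPt E`, so `mx W 1 = pn W = 1 + t = 2` (`pn_two`). (2) Dimension `4`, `ct_rec` with `m = 1`, `N = 2`: `mx W 2 * (1 + q) = pn W * 2 = (1 + q) ^ 2 * 2` (`pn_o4`), so `mx W 2 = 2 * (1 + q)`. (3) Dimension `6`, `m = 2`: `mx W 3 * (1 + q + q ^ 2) = pn W * (2 * (1 + q))`, `pn_o6`: `mx W 3 = 2 * (1 + q) * (1 + q ^ 2)`.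
(4) `W = ⊤`, `m = 3`: `mx ⊤ 4 * (1 + q + q ^ 2 + q ^ 3) = pn ⊤ * (2 * (1 + q) * (1 + q ^ 2))` and `1 + q + q ^ 2 + q ^ 3 = (1 + q) * (1 + q ^ 2)`, so `mx ⊤ 4 = 2 * pn ⊤`; `mx ⊤ 4` is the number of solids. -/

namespace Pool.Agent.Work.MP_bc729a_al.CG

open Module

universe u v

variable {K : Type u} {V : Type v} [Field K] [AddCommGroup V] [Module K V] [Finite K] [Finite V]

namespace PS

variable {Φ : PS K V}

private theorem ctS_pt {E : Submodule K V} (hE : Φ.TS E) (h : finrank K E = 1) : Φ.IsPt E := by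
  obtain ⟨v, hv0, hv⟩ := finrank_eq_one_iff'.1 h
  have h0 : (v : V) ≠ 0 := fun h' => hv0 (Subtype.ext h')
  have h1 : E = Submodule.span K {(v : V)} := by
    apply le_antisymm
    · intro w hw
      obtain ⟨c, hc⟩ := hv ⟨w, hw⟩
      rw [Submodule.mem_span_singleton]
      exact ⟨c, congrArg Subtype.val hc⟩
    · rw [Submodule.span_singleton_le_iff_mem]
      exact v.2
  exact ⟨v, h0, hE.1 _ v.2, h1⟩

private theorem ctS_one (ht : Φ.t = 1) {W : Submodule K V} (hW : Φ.ND W)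
    (h2 : finrank K W = 2) (hex : ∃ E, Φ.TS E ∧ E ≤ W ∧ finrank K E = 1) : Φ.mx W 1 = 2 := by
  obtain ⟨E, hE, hEW, hE1⟩ := hex
  have h3 := pn_two hW h2 (ctS_pt hE hE1) hEW
  rw [ht] at h3
  have h4 : Φ.mx W 1 = Φ.pn W := by
    apply Nat.card_congr
    exact Equiv.subtypeEquivRight fun F =>
      ⟨fun h => ⟨ctS_pt h.1 h.2.2, h.2.1⟩, fun h => ⟨h.1.ts, h.2, h.1.finrank⟩⟩
  rw [h4, h3]

private theorem ctS_two (ht : Φ.t = 1) {W : Submodule K V} (hW : Φ.ND W)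
    (h2 : finrank K W = 4) (hex : ∃ E, Φ.TS E ∧ E ≤ W ∧ finrank K E = 2) :
    Φ.mx W 2 = 2 * (1 + Nat.card K) := by
  have h3 := ct_rec hW (m := 1) (N := 2) le_rfl (by omega) hex
    (fun W' hW' _ h hx => ctS_one ht hW' (by omega) hx)
  obtain ⟨E, hE, hEW, hE2⟩ := hex
  rw [pn_o4 ht hW hE hEW hE2 h2] at h3
  simp only [Finset.sum_range_succ, Finset.sum_range_zero, pow_zero, zero_add, pow_one,
    Nat.reduceAdd] at h3
  apply Nat.eq_of_mul_eq_mul_right (show 0 < 1 + Nat.card K by omega)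
  rw [h3]
  ring

private theorem ctS_three (ht : Φ.t = 1) {W : Submodule K V} (hW : Φ.ND W)
    (h2 : finrank K W = 6) (hex : ∃ E, Φ.TS E ∧ E ≤ W ∧ finrank K E = 3) :
    Φ.mx W 3 = 2 * (1 + Nat.card K) * (1 + Nat.card K ^ 2) := by
  have h3 := ct_rec hW (m := 2) (N := 2 * (1 + Nat.card K)) (by omega) (by omega) hex
    (fun W' hW' _ h hx => ctS_two ht hW' (by omega) hx)
  obtain ⟨E, hE, hEW, hE2⟩ := hex
  rw [pn_o6 ht hW hE hEW hE2 h2] at h3
  simp only [Finset.sum_range_succ, Finset.sum_range_zero, pow_zero, zero_add, pow_one,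
    Nat.reduceAdd] at h3
  apply Nat.eq_of_mul_eq_mul_right (show 0 < 1 + Nat.card K + Nat.card K ^ 2 by positivity)
  rw [h3]
  ring

theorem card_sd (hn : finrank K V = 8) (ht : Φ.t = 1) (h4 : ∃ E, Φ.IsSd E) :
    Nat.card {E : Submodule K V // Φ.IsSd E} = 2 * Φ.pn ⊤ := by
  obtain ⟨E, hE⟩ := h4
  have h3 := ct_rec Φ.ND_top (m := 3) (N := 2 * (1 + Nat.card K) * (1 + Nat.card K ^ 2))
    (by omega) (by rw [finrank_top, hn]) ⟨E, hE.1, le_top, hE.2⟩
    (fun W' hW' _ h hx => ctS_three ht hW' (by omega) hx)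
  have h5 : Φ.mx ⊤ (3 + 1) = Nat.card {E : Submodule K V // Φ.IsSd E} := by
    apply Nat.card_congr
    exact Equiv.subtypeEquivRight fun F =>
      ⟨fun h => ⟨h.1, h.2.2⟩, fun h => ⟨h.1, le_top, h.2⟩⟩
  rw [h5] at h3
  simp only [Finset.sum_range_succ, Finset.sum_range_zero, pow_zero, zero_add, pow_one,
    Nat.reduceAdd] at h3
  apply Nat.eq_of_mul_eq_mul_right
    (show 0 < 1 + Nat.card K + Nat.card K ^ 2 + Nat.card K ^ 3 by positivity)
  rw [h3]
  ring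

end PS

end Pool.Agent.Work.MP_bc729a_al.CG
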