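import Pool.Agent.Work.MP_bc729a_al.CR.Defs

/-! # Orthogonal groups of dimension eight with totally singular solids: definitions -/

namespace Pool.Agent.Work.MP_bc729a_al.CG

open Module

universe u v

variable {K : Type u} {V : Type v} [Field K] [AddCommGroup V] [Module K V]

namespace PS

/-- incidence (of a point or a solid `a` and a line `ℓ`) -/
def Ic (a ℓ : Submodule K V) : Prop := a ≤ ℓ ∨ ℓ ≤ a

variable (Φ : PS K V)

/-- solids: totally singular subspaces of dimension four -/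
def IsSd (E : Submodule K V) : Prop := Φ.TS E ∧ finrank K E = 4

/-- a family of solids: an orbit of `D` which contains exactly one of any two adjacent solids -/
structure Fam (D : Subgroup (V ≃ₗ[K] V)) (M : Set (Submodule K V)) : Prop where
  sd : ∀ E ∈ M, Φ.IsSd E
  ne : M.Nonempty
  inv : ∀ g ∈ D, ∀ E ∈ M, E.map (g : V →ₗ[K] V) ∈ M
  trans : ∀ E ∈ M, ∀ F ∈ M, ∃ g ∈ D, E.map (g : V →ₗ[K] V) = F
  adj : ∀ E F, Φ.IsSd E → Φ.IsSd F → finrank K ↥(E ⊓ F) = 3 → (E ∈ M ↔ F ∉ M)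
  card : Nat.card M = Φ.pn ⊤

/-- the other family -/
def oth (M : Set (Submodule K V)) : Set (Submodule K V) := {E | Φ.IsSd E ∧ E ∉ M}

/-- the three classes: the points and the two families of solids -/
def IsC (M C : Set (Submodule K V)) : Prop := C = {z | Φ.IsPt z} ∨ C = M ∨ C = Φ.oth M

/-- points and solids -/
abbrev Ob : Type v := {a : Submodule K V // Φ.IsPt a ∨ Φ.IsSd a}

/-- lines -/
abbrev Lx : Type v := {ℓ : Submodule K V // Φ.IsLn ℓ}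

/-- equal or incident with a common line -/
def Cl (a b : Submodule K V) : Prop := a = b ∨ ∃ ℓ, Φ.IsLn ℓ ∧ Ic a ℓ ∧ Ic b ℓ

/-- `a` is `Cl` with all elements of the class `C` incident with `ℓ` -/
def Nr (C : Set (Submodule K V)) (a ℓ : Submodule K V) : Prop := ∀ b ∈ C, Ic b ℓ → Φ.Cl a b

/-- the regulus of two opposite lines -/
def Rg (M : Set (Submodule K V)) (ℓ m : Submodule K V) : Set (Submodule K V) :=
  {k | Φ.IsLn k ∧ ∀ C, Φ.IsC M C → ∀ a ∈ C, Φ.Nr C a ℓ → Φ.Nr C a m → Φ.Nr C a k}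

/-- the action of an automorphism on points, solids and lines -/
structure Act (D : Subgroup (V ≃ₗ[K] V)) (M : Set (Submodule K V)) (α : MulAut ↥(PG D))
    (f : Equiv.Perm Φ.Ob) (g : Equiv.Perm Φ.Lx) : Prop where
  ob : ∀ a : Φ.Ob, (stE D a.1).map α.toMonoidHom = stE D (f a).1
  ln : ∀ ℓ : Φ.Lx, (stE D ℓ.1).map α.toMonoidHom = stE D (g ℓ).1
  inc : ∀ (a : Φ.Ob) (ℓ : Φ.Lx), Ic (f a).1 (g ℓ).1 ↔ Ic a.1 ℓ.1
  cls : ∀ C, Φ.IsC M C → ∃ C', Φ.IsC M C' ∧ ∀ a : Φ.Ob, (f a).1 ∈ C' ↔ a.1 ∈ C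
  cls' : ∀ C', Φ.IsC M C' → ∃ C, Φ.IsC M C ∧ ∀ a : Φ.Ob, (f a).1 ∈ C' ↔ a.1 ∈ C

/-- involutions of the set of points and solids and of the set of lines preserving incidence -/
structure Ivn (f : Equiv.Perm Φ.Ob) (g : Equiv.Perm Φ.Lx) : Prop where
  ff : ∀ a, f (f a) = a
  gg : ∀ ℓ, g (g ℓ) = ℓ
  inc : ∀ (a : Φ.Ob) (ℓ : Φ.Lx), Ic (f a).1 (g ℓ).1 ↔ Ic a.1 ℓ.1

/-- elements of the unipotent radical of the stabiliser of the flag `x ≤ ℓ` -/
def IsF (x ℓ : Submodule K V) (g : V ≃ₗ[K] V) : Prop :=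
  g ∈ Φ.Iso ∧ (∀ v ∈ x, g v = v) ∧ (∀ v ∈ ℓ, g v - v ∈ x) ∧ (∀ v ∈ Φ.orth ℓ, g v - v ∈ ℓ) ∧
    (∀ v ∈ Φ.orth x, g v - v ∈ Φ.orth ℓ) ∧ ∀ v, g v - v ∈ Φ.orth x

/-- the solid spanned by the line `k` of a solid and the line of `F'` perpendicular to it -/
def gk (F' k : Submodule K V) : Submodule K V := k ⊔ (F' ⊓ Φ.orth k)

/-- the number of totally singular subspaces of `W` of dimension `m` -/
noncomputable def mx (W : Submodule K V) (m : ℕ) : ℕ :=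
  Nat.card {E : Submodule K V // Φ.TS E ∧ E ≤ W ∧ finrank K E = m}

theorem Rg_comm (M : Set (Submodule K V)) (ℓ m : Submodule K V) : Φ.Rg M ℓ m = Φ.Rg M m ℓ := by
  ext k
  exact ⟨fun h => ⟨h.1, fun C hC a ha h1 h2 => h.2 C hC a ha h2 h1⟩,
    fun h => ⟨h.1, fun C hC a ha h1 h2 => h.2 C hC a ha h2 h1⟩⟩

end PS

end Pool.Agent.Work.MP_bc729a_al.CG
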