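import Pool.Agent.Work.MP_bc729a_al.CO.Mxl

/-! # Module FmC (M): two classes of solids have the same size

PROOF. Let `P` be the set of the totally singular spaces of dimension `3` and `s` the number of the subspaces of dimension `3` of a space of dimension `4` (the same for all solids, as they are isomorphic vector spaces; `s > 0`). Every `π ∈ P` is contained in exactly two solids `E, F` (`two_sd`), `E ⊓ F = π` (dimensions), so by `hadj` exactly one of them is in `M`. So the number of pairs `(π, E)`, `π ≤ E ∈ M`, is `|P|`, and it is `|M| * s`; in the same way `|oth M| * s = |P|`.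
So `|M| = |oth M|`. The second statement: the solids are the disjoint union of `M` and `oth M`. -/

namespace Pool.Agent.Work.MP_bc729a_al.CG

open Module

universe u v

variable {K : Type u} {V : Type v} [Field K] [AddCommGroup V] [Module K V] [Finite K] [Finite V]

namespace PS

variable {Φ : PS K V}

/-- the number of the hyperplanes of a space of dimension four -/
private noncomputable def sN (K : Type u) [Field K] : ℕ :=
  Nat.card {π : Submodule K (Fin 4 → K) // finrank K π = 3}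

omit [Finite V] in
private theorem sN_pos : 0 < sN K := by
  have hN : Nonempty {π : Submodule K (Fin 4 → K) // finrank K π = 3} := by
    refine ⟨⟨LinearMap.ker (LinearMap.proj 0 : (Fin 4 → K) →ₗ[K] K), ?_⟩⟩
    have h1 := LinearMap.finrank_range_add_finrank_ker (LinearMap.proj 0 : (Fin 4 → K) →ₗ[K] K)
    have h2 : LinearMap.range (LinearMap.proj 0 : (Fin 4 → K) →ₗ[K] K) = ⊤ := by
      rw [LinearMap.range_eq_top]
      intro a
      exact ⟨fun _ => a, rfl⟩
    rw [h2, finrank_top, finrank_self, finrank_fin_fun] at h1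
    omega
  have hF : Finite {π : Submodule K (Fin 4 → K) // finrank K π = 3} := inferInstance
  exact Nat.card_pos

private theorem card_sub {E : Submodule K V} (h : finrank K E = 4) :
    Nat.card {π : Submodule K V // π ≤ E ∧ finrank K π = 3} = sN K := by
  have e : (Fin 4 → K) ≃ₗ[K] E := LinearEquiv.ofFinrankEq _ _ (by rw [h, finrank_fin_fun])
  have hf : Function.Injective (E.subtype ∘ₗ e.toLinearMap) :=
    E.injective_subtype.comp e.injective
  have hr : LinearMap.range (E.subtype ∘ₗ e.toLinearMap) = E := by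
    rw [LinearMap.range_comp, LinearEquiv.range, Submodule.map_top, Submodule.range_subtype]
  generalize E.subtype ∘ₗ e.toLinearMap = f at hf hr
  have hfr : ∀ π : Submodule K (Fin 4 → K), finrank K ↥(π.map f) = finrank K π := fun π =>
    (LinearEquiv.finrank_eq (Submodule.equivMapOfInjective f hf π)).symm
  refine (Nat.card_congr (Equiv.ofBijective
    (fun π : {π : Submodule K (Fin 4 → K) // finrank K π = 3} =>
      (⟨π.1.map f, hr ▸ LinearMap.map_le_range, (hfr π.1).trans π.2⟩ :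
        {π : Submodule K V // π ≤ E ∧ finrank K π = 3})) ⟨?_, ?_⟩)).symm
  · rintro ⟨π, h1⟩ ⟨ρ, h2⟩ hh
    have h3 : π.map f = ρ.map f := congrArg Subtype.val hh
    exact Subtype.ext (Submodule.map_injective_of_injective hf h3)
  · rintro ⟨π, h1, h2⟩
    have h3 : (π.comap f).map f = π := Submodule.map_comap_eq_of_le (hr.symm ▸ h1)
    refine ⟨⟨π.comap f, ?_⟩, Subtype.ext h3⟩
    rw [← hfr, h3]
    exact h2

private theorem count {C : Set (Submodule K V)} (hC : ∀ E ∈ C, Φ.IsSd E)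
    (h : ∀ π, Φ.TS π → finrank K π = 3 → ∃! E, E ∈ C ∧ π ≤ E) :
    Nat.card C * sN K = Nat.card {π : Submodule K V // Φ.TS π ∧ finrank K π = 3} := by
  classical
  have hfC : Finite C := inferInstance
  have := Fintype.ofFinite C
  have h1 : Nat.card (Σ E : C, {π : Submodule K V // π ≤ E.1 ∧ finrank K π = 3}) =
      Nat.card C * sN K := by
    rw [Nat.card_sigma, Finset.sum_congr rfl (fun E _ => card_sub (hC E.1 E.2).2),
      Finset.sum_const, Finset.card_univ, Nat.card_eq_fintype_card, smul_eq_mul]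
  rw [← h1]
  refine Nat.card_congr (Equiv.ofBijective
    (fun s => ⟨s.2.1, (hC s.1.1 s.1.2).1.mono s.2.2.1, s.2.2.2⟩) ⟨?_, ?_⟩)
  · rintro ⟨⟨E, hE⟩, ⟨π, h1, h2⟩⟩ ⟨⟨F, hF⟩, ⟨ρ, h3, h4⟩⟩ hh
    have h5 : π = ρ := congrArg Subtype.val hh
    subst h5
    have h6 : E = F := (h π ((hC E hE).1.mono h1) h2).unique ⟨hE, h1⟩ ⟨hF, h3⟩
    subst h6
    rfl
  · rintro ⟨π, h1, h2⟩
    obtain ⟨E, ⟨hE, h3⟩, -⟩ := h π h1 h2
    exact ⟨⟨⟨E, hE⟩, ⟨π, h3, h2⟩⟩, rfl⟩

theorem fam_card (hn : finrank K V = 8) (ht : Φ.t = 1) (h4 : ∃ E, Φ.IsSd E)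
    {M : Set (Submodule K V)} (hsd : ∀ E ∈ M, Φ.IsSd E)
    (hadj : ∀ E F, Φ.IsSd E → Φ.IsSd F → finrank K ↥(E ⊓ F) = 3 → (E ∈ M ↔ F ∉ M)) :
    Nat.card M = Nat.card (Φ.oth M) ∧
      Nat.card M + Nat.card (Φ.oth M) = Nat.card {E : Submodule K V // Φ.IsSd E} := by
  have key : ∀ π, Φ.TS π → finrank K π = 3 → ∃ E F, Φ.IsSd E ∧ Φ.IsSd F ∧ π ≤ E ∧ π ≤ F ∧
      (∀ G, Φ.IsSd G → π ≤ G → G = E ∨ G = F) ∧ E ∈ M ∧ F ∉ M := by
    intro π hπ h3
    obtain ⟨E, F, hE, hF, hne, h1, h2, hu⟩ := two_sd hn ht h4 hπ h3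
    have h5 : finrank K ↥(E ⊓ F) = 3 := by
      have ha : 3 ≤ finrank K ↥(E ⊓ F) := by
        rw [← h3]
        exact Submodule.finrank_mono (le_inf h1 h2)
      have hb : finrank K ↥(E ⊓ F) ≤ 4 := by
        rw [← hE.2]
        exact Submodule.finrank_mono inf_le_left
      have hc : finrank K ↥(E ⊓ F) ≠ 4 := by
        intro hc
        apply hne
        rw [← Submodule.eq_of_le_of_finrank_eq (inf_le_left : E ⊓ F ≤ E) (hc.trans hE.2.symm)]
        exact Submodule.eq_of_le_of_finrank_eq (inf_le_right : E ⊓ F ≤ F) (hc.trans hF.2.symm)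
      omega
    have h6 := hadj E F hE hF h5
    by_cases hEM : E ∈ M
    · exact ⟨E, F, hE, hF, h1, h2, hu, hEM, h6.1 hEM⟩
    · have hFM : F ∈ M := by
        by_contra hFM
        exact hEM (h6.2 hFM)
      exact ⟨F, E, hF, hE, h2, h1, fun G hG hp => (hu G hG hp).symm, hFM, hEM⟩
  have hc1 := count (Φ := Φ) (C := M) hsd (fun π hπ h3 => by
    obtain ⟨E, F, hE, hF, h1, h2, hu, hEM, hFM⟩ := key π hπ h3
    refine ⟨E, ⟨hEM, h1⟩, ?_⟩
    rintro G ⟨hG, hp⟩
    rcases hu G (hsd G hG) hp with h | h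
    · exact h
    · rw [h] at hG
      exact absurd hG hFM)
  have hc2 := count (Φ := Φ) (C := Φ.oth M) (fun E hE => hE.1) (fun π hπ h3 => by
    obtain ⟨E, F, hE, hF, h1, h2, hu, hEM, hFM⟩ := key π hπ h3
    refine ⟨F, ⟨⟨hF, hFM⟩, h2⟩, ?_⟩
    rintro G ⟨hG, hp⟩
    rcases hu G hG.1 hp with h | h
    · rw [h] at hG
      exact absurd hEM hG.2
    · exact h)
  refine ⟨Nat.eq_of_mul_eq_mul_right (sN_pos (K := K)) (hc1.trans hc2.symm), ?_⟩
  have h7 : M ∪ Φ.oth M = {E | Φ.IsSd E} := by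
    ext E
    constructor
    · rintro (h | h)
      · exact hsd E h
      · exact h.1
    · intro h
      by_cases hE : E ∈ M
      · exact Or.inl hE
      · exact Or.inr ⟨h, hE⟩
  have h8 : Disjoint M (Φ.oth M) := by
    rw [Set.disjoint_left]
    intro E hE hE'
    exact hE'.2 hE
  have h9 := Set.ncard_union_eq h8 (Set.toFinite _) (Set.toFinite _)
  rw [h7] at h9
  rw [Nat.card_coe_set_eq, Nat.card_coe_set_eq, ← h9]
  exact Nat.card_coe_set_eq {E | Φ.IsSd E}

end PS

end Pool.Agent.Work.MP_bc729a_al.CG
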