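import Pool.Agent.Work.MP_bc729a_al.CO.FmC
import Pool.Agent.Work.MP_bc729a_al.CO.TrP
import Pool.Agent.Work.MP_bc729a_al.CO.CtS

/-! # Module FmE (M): existence of a family

PROOF. Suppose that `D` is not transitive on the solids. Let `π₀` be totally singular of dimension `3` (in some solid), `E₀, F₀` the two solids on it (`two_sd`). Every solid `E` has a subspace `π` of dimension `3`, `π.map g = π₀` for some `g ∈ D` (`trans_plane`), so `E.map g = E₀` or `= F₀`. So `F₀` is not in the orbit `M` of `E₀`: `M = {E | ∃ g ∈ D, E₀.map g = E}`. `sd`, `ne`, `inv`, `trans`: clear. `adj`: let `E, F` be solids, `π = E ⊓ F` of dimension `3`, `g ∈ D` with `π.map g = π₀`; `E.map g ≠ F.map g` are the two solids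
`E₀, F₀` on `π₀` in some order, so exactly one of `E, F` is in `M`. `card`: `fam_card` and `card_sd`: `2 * |M| = 2 * pn ⊤`. -/

namespace Pool.Agent.Work.MP_bc729a_al.CG

open Module

universe u v

variable {K : Type u} {V : Type v} [Field K] [AddCommGroup V] [Module K V] [Finite K] [Finite V]

namespace PS

variable {Φ : PS K V}

omit [Finite K] [Finite V] in
private theorem ex_hyp {E : Submodule K V} (h : finrank K E = 4) :
    ∃ π, π ≤ E ∧ finrank K π = 3 := by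
  have e : (Fin 4 → K) ≃ₗ[K] E := by
    have : Module.Finite K E := Module.finite_of_finrank_pos (by omega)
    exact LinearEquiv.ofFinrankEq _ _ (by rw [h, finrank_fin_fun])
  have hf : Function.Injective (E.subtype ∘ₗ e.toLinearMap) :=
    E.injective_subtype.comp e.injective
  have hr : LinearMap.range (E.subtype ∘ₗ e.toLinearMap) = E := by
    rw [LinearMap.range_comp, LinearEquiv.range, Submodule.map_top, Submodule.range_subtype]
  generalize E.subtype ∘ₗ e.toLinearMap = f at hf hr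
  have h1 := LinearMap.finrank_range_add_finrank_ker (LinearMap.proj 0 : (Fin 4 → K) →ₗ[K] K)
  have h2 : LinearMap.range (LinearMap.proj 0 : (Fin 4 → K) →ₗ[K] K) = ⊤ := by
    rw [LinearMap.range_eq_top]
    intro a
    exact ⟨fun _ => a, rfl⟩
  rw [h2, finrank_top, finrank_self, finrank_fin_fun] at h1
  refine ⟨(LinearMap.ker (LinearMap.proj 0 : (Fin 4 → K) →ₗ[K] K)).map f,
    hr ▸ LinearMap.map_le_range, ?_⟩
  rw [← LinearEquiv.finrank_eq (Submodule.equivMapOfInjective f hf _)]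
  omega

omit [Finite K] [Finite V] in
private theorem rel_trans {D : Subgroup (V ≃ₗ[K] V)} {E F G : Submodule K V}
    (h : ∃ g ∈ D, E.map (g : V →ₗ[K] V) = F) (h' : ∃ g ∈ D, F.map (g : V →ₗ[K] V) = G) :
    ∃ g ∈ D, E.map (g : V →ₗ[K] V) = G := by
  obtain ⟨g, hg, hg1⟩ := h
  obtain ⟨g', hg', hg2⟩ := h'
  refine ⟨g' * g, D.mul_mem hg' hg, ?_⟩
  have e : ((g' * g : V ≃ₗ[K] V) : V →ₗ[K] V) = (g' : V →ₗ[K] V) ∘ₗ (g : V →ₗ[K] V) := rfl
  rw [e, Submodule.map_comp, hg1, hg2]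

omit [Finite K] [Finite V] in
private theorem rel_symm {D : Subgroup (V ≃ₗ[K] V)} {E F : Submodule K V}
    (h : ∃ g ∈ D, E.map (g : V →ₗ[K] V) = F) : ∃ g ∈ D, F.map (g : V →ₗ[K] V) = E := by
  obtain ⟨g, hg, hg1⟩ := h
  refine ⟨g⁻¹, D.inv_mem hg, ?_⟩
  rw [← hg1, ← Submodule.map_comp]
  have e : ((g⁻¹ : V ≃ₗ[K] V) : V →ₗ[K] V) ∘ₗ (g : V →ₗ[K] V) = LinearMap.id := by
    ext v
    exact g.symm_apply_apply v
  rw [e, Submodule.map_id]

theorem fam_or {D : Subgroup (V ≃ₗ[K] V)} (hD : Φ.Grp D) (hn : finrank K V = 8)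
    (ht : Φ.t = 1) (h4 : ∃ E, Φ.IsSd E) :
    (∀ E F, Φ.IsSd E → Φ.IsSd F → ∃ g ∈ D, E.map (g : V →ₗ[K] V) = F) ∨
      ∃ M, Φ.Fam D M := by
  by_cases htr : ∀ E F, Φ.IsSd E → Φ.IsSd F → ∃ g ∈ D, E.map (g : V →ₗ[K] V) = F
  · exact Or.inl htr
  right
  obtain ⟨E₁, hE₁⟩ := h4
  have h4 : ∃ E, Φ.IsSd E := ⟨E₁, hE₁⟩
  obtain ⟨π₀, hπ₀, hπ3⟩ := ex_hyp hE₁.2
  have hπT : Φ.TS π₀ := hE₁.1.mono hπ₀
  obtain ⟨E₀, F₀, hE₀, hF₀, hne, hπE, hπF, hu⟩ := two_sd hn ht h4 hπT hπ3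
  have hmap : ∀ g ∈ D, ∀ E, Φ.IsSd E → Φ.IsSd (E.map (g : V →ₗ[K] V)) := fun g hg E hE =>
    ⟨hE.1.map (hD.le hg), finrank_map_eq.trans hE.2⟩
  -- moving a plane
  have hmv : ∀ π, Φ.TS π → finrank K π = 3 → ∃ g ∈ D, ∀ E, Φ.IsSd E → π ≤ E →
      E.map (g : V →ₗ[K] V) = E₀ ∨ E.map (g : V →ₗ[K] V) = F₀ := by
    intro π hπ h3
    obtain ⟨g, hg, hg1⟩ := trans_plane hD hn h4 hπ hπT h3 hπ3
    refine ⟨g, hg, fun E hE hπE => hu _ (hmap g hg E hE) ?_⟩
    rw [← hg1]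
    exact Submodule.map_mono hπE
  have hF₀M : ¬ ∃ g ∈ D, E₀.map (g : V →ₗ[K] V) = F₀ := by
    intro hEF
    apply htr
    have key : ∀ E, Φ.IsSd E → ∃ g ∈ D, E.map (g : V →ₗ[K] V) = F₀ := by
      intro E hE
      obtain ⟨π, hπ, h3⟩ := ex_hyp hE.2
      obtain ⟨g, hg, hg1⟩ := hmv π (hE.1.mono hπ) h3
      rcases hg1 E hE hπ with h | h
      · exact rel_trans ⟨g, hg, h⟩ hEF
      · exact ⟨g, hg, h⟩
    intro E F hE hF
    exact rel_trans (key E hE) (rel_symm (key F hF))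
  have hsd : ∀ E ∈ {E | ∃ g ∈ D, E₀.map (g : V →ₗ[K] V) = E}, Φ.IsSd E := by
    rintro _ ⟨g, hg, rfl⟩
    exact hmap g hg E₀ hE₀
  have hadj : ∀ E F, Φ.IsSd E → Φ.IsSd F → finrank K ↥(E ⊓ F) = 3 →
      (E ∈ {E | ∃ g ∈ D, E₀.map (g : V →ₗ[K] V) = E} ↔
        F ∉ {E | ∃ g ∈ D, E₀.map (g : V →ₗ[K] V) = E}) := by
    intro E F hE hF h3
    obtain ⟨g, hg, hg1⟩ := hmv (E ⊓ F) (hE.1.mono inf_le_left) h3
    have hEF : E.map (g : V →ₗ[K] V) ≠ F.map (g : V →ₗ[K] V) := by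
      intro hh
      have h5 : E = F :=
        le_antisymm (map_le_map.1 hh.le) (map_le_map.1 hh.ge)
      rw [h5, inf_idem, hF.2] at h3
      omega
    rcases hg1 E hE inf_le_left with h | h
    · rcases hg1 F hF inf_le_right with h' | h'
      · exact absurd (h.trans h'.symm) hEF
      · constructor
        · intro _ hFM
          exact hF₀M (rel_trans hFM ⟨g, hg, h'⟩)
        · intro _
          exact rel_symm ⟨g, hg, h⟩
    · rcases hg1 F hF inf_le_right with h' | h'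
      · constructor
        · intro hEM
          exact absurd (rel_trans hEM ⟨g, hg, h⟩) hF₀M
        · intro hFM
          exact absurd (rel_symm ⟨g, hg, h'⟩) hFM
      · exact absurd (h.trans h'.symm) hEF
  refine ⟨{E | ∃ g ∈ D, E₀.map (g : V →ₗ[K] V) = E}, hsd, ?_, ?_, ?_, hadj, ?_⟩
  · refine ⟨E₀, 1, D.one_mem, ?_⟩
    have e : ((1 : V ≃ₗ[K] V) : V →ₗ[K] V) = LinearMap.id := rfl
    rw [e, Submodule.map_id]
  · intro g hg E hE
    exact rel_trans hE ⟨g, hg, rfl⟩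
  · intro E hE F hF
    exact rel_trans (rel_symm hE) hF
  · obtain ⟨h5, h6⟩ := fam_card hn ht h4 hsd hadj
    rw [card_sd hn ht h4] at h6
    omega

end PS

end Pool.Agent.Work.MP_bc729a_al.CG
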