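import Pool.Agent.Work.MP_bc729a_al.CO.Lop

/-! # Module Gk (M): solids meeting two opposite solids

`gk F' k = k ⊔ (F' ⊓ orth k)`. For `k ≤ F` of dimension `2`: `F' ⊓ orth k` has dimension `2`: its `orth` is `F' ⊔ k` (`orth_inf`, `orth_orth`, `orth F' = F'`), of dimension `6` (`k ⊓ F' = ⊥`).
PROOF of `gk_sd`. `gk F' k` is totally singular (`TS.sup`) of dimension `4` (`k ⊓ F' = ⊥`). `gk F' k ⊓ F = k ⊔ (F' ⊓ orth k) ⊓ F = k` (modular law, `k ≤ F`, `F' ⊓ F = ⊥`). By `fam_even` (dimension `2`, `F ∈ M`) `gk F' k ∈ M`.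
PROOF of `gk_inf`. `←`: `k ⊓ k₁ ≤` both. `→`: let `k ⊓ k₁ = ⊥`, so `k ⊔ k₁ = F` (dimension `4`). `v = a + b = a₁ + b₁`, `a ∈ k`, `b ∈ F' ⊓ orth k`, `a₁ ∈ k₁`, `b₁ ∈ F' ⊓ orth k₁`: `a - a₁ = b₁ - b ∈ F ⊓ F' = ⊥`, so `a = a₁ ∈ k ⊓ k₁`, `a = 0`, and `b = b₁` is in `F' ⊓ orth (k ⊔ k₁) = F' ⊓ orth F = F' ⊓ F = ⊥`, so `v = 0`.
PROOF of `gk_of`. `G ≠ F` (`G ⊓ F' ≠ ⊥`), `G ≠ F'`, so `k = G ⊓ F` and `k' = G ⊓ F'` have dimension `2` (`fam_two`); `k ⊓ k' = ⊥`, so `G = k ⊔ k'`; `k' ≤ F' ⊓ orth k` (`G ≤ orth G`), both of dimension `2`. -/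

namespace Pool.Agent.Work.MP_bc729a_al.CG

open Module

universe u v

variable {K : Type u} {V : Type v} [Field K] [AddCommGroup V] [Module K V] [Finite K] [Finite V]

namespace PS

variable {Φ : PS K V}

private theorem gk_orth (hn : finrank K V = 8) {F : Submodule K V} (hF : Φ.IsSd F) :
    Φ.orth F = F := by
  symm
  apply Submodule.eq_of_le_of_finrank_eq hF.1.2
  have h := finrank_orth (Φ := Φ) F
  rw [hF.2, hn] at h
  rw [hF.2]
  omega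

private theorem gk_fr (hn : finrank K V = 8) {F F' k : Submodule K V} (hF' : Φ.IsSd F')
    (h : F ⊓ F' = ⊥) (hk : k ≤ F) (h2 : finrank K k = 2) :
    finrank K ↥(F' ⊓ Φ.orth k) = 2 := by
  have h3 := finrank_orth (Φ := Φ) (F' ⊓ Φ.orth k)
  rw [orth_inf, orth_orth, gk_orth hn hF', hn] at h3
  have h4 := Submodule.finrank_sup_add_finrank_inf_eq F' k
  have h5 : F' ⊓ k = ⊥ := by
    rw [eq_bot_iff, ← h]
    exact le_inf (inf_le_right.trans hk) inf_le_left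
  rw [h5, finrank_bot, hF'.2, h2] at h4
  omega

private theorem gk_isSd (hn : finrank K V = 8) {F F' k : Submodule K V} (hF : Φ.IsSd F)
    (hF' : Φ.IsSd F') (h : F ⊓ F' = ⊥) (hk : k ≤ F) (h2 : finrank K k = 2) :
    Φ.IsSd (Φ.gk F' k) := by
  have h3 := gk_fr hn hF' h hk h2
  refine ⟨(hF.1.mono hk).sup (hF'.1.mono inf_le_left) (Φ.le_orth_comm.1 inf_le_right), ?_⟩
  have h4 := Submodule.finrank_sup_add_finrank_inf_eq k (F' ⊓ Φ.orth k)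
  have h5 : k ⊓ (F' ⊓ Φ.orth k) = ⊥ := by
    rw [eq_bot_iff, ← h]
    exact inf_le_inf hk inf_le_left
  rw [h5, finrank_bot, h2, h3] at h4
  exact h4

omit [Finite K] [Finite V] in
private theorem gk_infF {F F' k : Submodule K V} (h : F ⊓ F' = ⊥) (hk : k ≤ F) :
    Φ.gk F' k ⊓ F = k := by
  unfold gk
  rw [sup_inf_assoc_of_le _ hk]
  have h5 : F' ⊓ Φ.orth k ⊓ F = ⊥ := by
    rw [eq_bot_iff, ← h]
    exact le_inf inf_le_right (inf_le_left.trans inf_le_left)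
  rw [h5, sup_bot_eq]

theorem gk_sd (hn : finrank K V = 8) {D : Subgroup (V ≃ₗ[K] V)}
    {M : Set (Submodule K V)} (hM : Φ.Fam D M) {F F' k : Submodule K V} (hF : F ∈ M)
    (hF' : F' ∈ M) (h : F ⊓ F' = ⊥) (hk : k ≤ F) (h2 : finrank K k = 2) :
    Φ.gk F' k ∈ M ∧ Φ.gk F' k ⊓ F = k ∧ Φ.gk F' k ⊓ F' ≠ ⊥ := by
  have hFs := hM.sd F hF
  have hFs' := hM.sd F' hF'
  have hi := gk_infF (Φ := Φ) h hk
  refine ⟨?_, hi, ?_⟩
  · have h3 := fam_even hn hM (gk_isSd hn hFs hFs' h hk h2) hFs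
    rw [hi, h2] at h3
    exact (h3.2 even_two).2 hF
  · intro h3
    have h4 : F' ⊓ Φ.orth k ≤ Φ.gk F' k ⊓ F' := le_inf le_sup_right inf_le_left
    have h5 := Submodule.finrank_mono h4
    rw [gk_fr hn hFs' h hk h2, h3, finrank_bot] at h5
    omega

theorem gk_inf (hn : finrank K V = 8) {D : Subgroup (V ≃ₗ[K] V)}
    {M : Set (Submodule K V)} (hM : Φ.Fam D M) {F F' k k₁ : Submodule K V} (hF : F ∈ M)
    (hF' : F' ∈ M) (h : F ⊓ F' = ⊥) (hk : k ≤ F) (h2 : finrank K k = 2) (hk₁ : k₁ ≤ F)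
    (h2₁ : finrank K k₁ = 2) : Φ.gk F' k ⊓ Φ.gk F' k₁ ≠ ⊥ ↔ k ⊓ k₁ ≠ ⊥ := by
  have hFs := hM.sd F hF
  constructor
  · intro h3 h4
    apply h3
    have h5 : k ⊔ k₁ = F := by
      apply Submodule.eq_of_le_of_finrank_eq (sup_le hk hk₁)
      have h6 := Submodule.finrank_sup_add_finrank_inf_eq k k₁
      rw [h4, finrank_bot, h2, h2₁] at h6
      rw [hFs.2]
      exact h6
    rw [eq_bot_iff]
    rintro v ⟨hv1, hv2⟩
    obtain ⟨a, ha, b, hb, hab⟩ := Submodule.mem_sup.1 hv1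
    obtain ⟨a₁, ha₁, b₁, hb₁, hab₁⟩ := Submodule.mem_sup.1 hv2
    have h6 : a - a₁ = b₁ - b := by
      rw [sub_eq_sub_iff_add_eq_add, hab, add_comm, hab₁]
    have h7 : a - a₁ ∈ F ⊓ F' :=
      ⟨F.sub_mem (hk ha) (hk₁ ha₁), by
        rw [h6]
        exact F'.sub_mem hb₁.1 hb.1⟩
    rw [h, Submodule.mem_bot] at h7
    have h8 : a = a₁ := sub_eq_zero.1 h7
    have h9 : a ∈ k ⊓ k₁ := ⟨ha, by
      rw [h8]
      exact ha₁⟩
    rw [h4, Submodule.mem_bot] at h9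
    have h10 : b = b₁ := by
      rw [h7] at h6
      exact (sub_eq_zero.1 h6.symm).symm
    have h11 : b ∈ F ⊓ F' := by
      refine ⟨?_, hb.1⟩
      rw [← gk_orth hn hFs, ← h5, Φ.orth_sup]
      refine ⟨hb.2, ?_⟩
      rw [h10]
      exact hb₁.2
    rw [h, Submodule.mem_bot] at h11
    rw [Submodule.mem_bot, ← hab, h9, h11, add_zero]
  · intro h3 h4
    apply h3
    rw [eq_bot_iff, ← h4]
    exact inf_le_inf le_sup_left le_sup_left

theorem gk_of (hn : finrank K V = 8) {D : Subgroup (V ≃ₗ[K] V)}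
    {M : Set (Submodule K V)} (hM : Φ.Fam D M) {F F' G : Submodule K V} (hF : F ∈ M)
    (hF' : F' ∈ M) (h : F ⊓ F' = ⊥) (hG : G ∈ M) (h1 : G ⊓ F ≠ ⊥) (h2 : G ⊓ F' ≠ ⊥) :
    finrank K ↥(G ⊓ F) = 2 ∧ G = Φ.gk F' (G ⊓ F) := by
  have hFs := hM.sd F hF
  have hFs' := hM.sd F' hF'
  have hGs := hM.sd G hG
  have hne : G ≠ F := by
    rintro rfl
    exact h2 h
  have hne' : G ≠ F' := by
    rintro rfl
    apply h1
    rw [inf_comm]
    exact h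
  have hk := fam_two hn hM hG hF hne h1
  have hk' := fam_two hn hM hG hF' hne' h2
  refine ⟨hk.2, ?_⟩
  have h3 : G ⊓ F' = F' ⊓ Φ.orth (G ⊓ F) := by
    apply Submodule.eq_of_le_of_finrank_eq
    · exact le_inf inf_le_right (inf_le_left.trans (hGs.1.2.trans (Φ.orth_anti inf_le_left)))
    · rw [hk'.2, gk_fr hn hFs' h inf_le_right hk.2]
  unfold gk
  rw [← h3]
  symm
  apply Submodule.eq_of_le_of_finrank_eq (sup_le inf_le_left inf_le_left)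
  have h4 := Submodule.finrank_sup_add_finrank_inf_eq (G ⊓ F) (G ⊓ F')
  have h5 : (G ⊓ F) ⊓ (G ⊓ F') = ⊥ := by
    rw [eq_bot_iff, ← h]
    exact inf_le_inf inf_le_right inf_le_right
  rw [h5, finrank_bot, hk.2, hk'.2] at h4
  rw [hGs.2]
  exact h4

end PS

end Pool.Agent.Work.MP_bc729a_al.CG
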