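import Pool.Agent.Work.MP_bc729a_al.CO.Fb
import Pool.Agent.Work.MP_bc729a_al.CO.Stp

/-! # Module Lop (M): opposite lines from solids

For a solid `E`: `orth E = E` (dimensions).
PROOF of `sd_opp`. `ℓ = A ⊓ B`, `orth ℓ = orth A ⊔ orth B = A ⊔ B` (`orth_inf`). `finrank (A' ⊓ orth ℓ) = 2`: `orth (A' ⊓ orth ℓ) = A' ⊔ ℓ` (`orth_inf`, `orth_orth`) has dimension `4 + 2` (`A' ⊓ ℓ ≤ A ⊓ A' = ⊥`), `finrank_orth`. `A' ⊓ B ≤ A' ⊓ orth ℓ` has dimension `2`, so they are equal. `(A' ⊓ B') ⊓ orth ℓ ≤ (A' ⊓ orth ℓ) ⊓ B' = A' ⊓ B ⊓ B' = ⊥`.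
PROOF of `fam_two`. `finrank (E ⊓ F)` is even (`fam_even`), not `0`, not `4` (`E ≠ F`), so it is `2`; `TS.mono`.
PROOF of `fam_sep`. `ℓ = F ⊓ F₀` is a line (`fam_two`); let `m ≤ F₀` be a complement of `ℓ` in `F₀` (dimension `2`), `m ⊓ F = m ⊓ (F ⊓ F₀) = ⊥`. `ext_sd`: a solid `G ≥ m`, `G ⊓ F = ⊥`; `G ∈ M` by `fam_even` (dimension `0`), `G ⊓ F₀ ≥ m`. -/

namespace Pool.Agent.Work.MP_bc729a_al.CG

open Module

universe u v

variable {K : Type u} {V : Type v} [Field K] [AddCommGroup V] [Module K V] [Finite K] [Finite V]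

namespace PS

variable {Φ : PS K V}

private theorem lop_orth (hn : finrank K V = 8) {F : Submodule K V} (hF : Φ.IsSd F) :
    Φ.orth F = F := by
  symm
  apply Submodule.eq_of_le_of_finrank_eq hF.1.2
  have h := finrank_orth (Φ := Φ) F
  rw [hF.2, hn] at h
  rw [hF.2]
  omega

theorem sd_opp (hn : finrank K V = 8) {A B A' B' : Submodule K V} (hA : Φ.IsSd A)
    (hB : Φ.IsSd B) (hA' : Φ.IsSd A') (hB' : Φ.IsSd B') (h1 : A ⊓ A' = ⊥) (h2 : B ⊓ B' = ⊥)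
    (h3 : finrank K ↥(A ⊓ B) = 2) (h4 : finrank K ↥(A' ⊓ B) = 2) :
    (A' ⊓ B') ⊓ Φ.orth (A ⊓ B) = ⊥ := by
  have e1 : Φ.orth (A' ⊓ Φ.orth (A ⊓ B)) = A' ⊔ (A ⊓ B) := by
    rw [orth_inf, orth_orth, lop_orth hn hA']
  have e2 : A' ⊓ (A ⊓ B) = ⊥ := by
    rw [eq_bot_iff, ← h1]
    exact le_inf (inf_le_right.trans inf_le_left) inf_le_left
  have e3 := Submodule.finrank_sup_add_finrank_inf_eq A' (A ⊓ B)
  have e4 := finrank_orth (Φ := Φ) (A' ⊓ Φ.orth (A ⊓ B))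
  have e5 := hA'.2
  rw [e2, finrank_bot] at e3
  rw [e1, hn] at e4
  have e6 : Φ.orth (A ⊓ B) = A ⊔ B := by
    rw [orth_inf, lop_orth hn hA, lop_orth hn hB]
  have e7 : A' ⊓ B ≤ A' ⊓ Φ.orth (A ⊓ B) := by
    rw [e6]
    exact inf_le_inf_left _ le_sup_right
  have e8 : A' ⊓ B = A' ⊓ Φ.orth (A ⊓ B) :=
    Submodule.eq_of_le_of_finrank_eq e7 (by omega)
  rw [eq_bot_iff, ← h2]
  have e9 : (A' ⊓ B') ⊓ Φ.orth (A ⊓ B) ≤ A' ⊓ Φ.orth (A ⊓ B) :=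
    inf_le_inf_right _ inf_le_left
  rw [← e8] at e9
  exact le_inf (e9.trans inf_le_right) (inf_le_left.trans inf_le_right)

theorem fam_two (hn : finrank K V = 8) {D : Subgroup (V ≃ₗ[K] V)}
    {M : Set (Submodule K V)} (hM : Φ.Fam D M) {E F : Submodule K V} (hE : E ∈ M)
    (hF : F ∈ M) (hne : E ≠ F) (h : E ⊓ F ≠ ⊥) : Φ.IsLn (E ⊓ F) := by
  have hE' := hM.sd E hE
  have hF' := hM.sd F hF
  refine ⟨hE'.1.mono inf_le_left, ?_⟩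
  have h1 := (fam_even hn hM hE' hF').1 ⟨fun _ => hF, fun _ => hE⟩
  have h2 : finrank K ↥(E ⊓ F) ≠ 0 := fun h0 => h (Submodule.finrank_eq_zero.1 h0)
  have h3 : finrank K ↥(E ⊓ F) ≤ finrank K E := Submodule.finrank_mono inf_le_left
  have hE2 := hE'.2
  have hF2 := hF'.2
  have h4 : finrank K ↥(E ⊓ F) ≠ 4 := by
    intro h10
    have h11 : E ⊓ F = E := Submodule.eq_of_le_of_finrank_eq inf_le_left (by rw [h10, hE2])
    have h12 : E ⊓ F = F := Submodule.eq_of_le_of_finrank_eq inf_le_right (by rw [h10, hF2])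
    exact hne (h11.symm.trans h12)
  obtain ⟨k, hk⟩ := h1
  omega

theorem fam_sep (hn : finrank K V = 8) {D : Subgroup (V ≃ₗ[K] V)}
    {M : Set (Submodule K V)} (hM : Φ.Fam D M) {F F₀ : Submodule K V} (hF : F ∈ M)
    (hF₀ : F₀ ∈ M) (hne : F ≠ F₀) (h : F ⊓ F₀ ≠ ⊥) : ∃ G ∈ M, G ⊓ F₀ ≠ ⊥ ∧ G ⊓ F = ⊥ := by
  have h1 := fam_two hn hM hF hF₀ hne h
  have hF' := hM.sd F hF
  have hF₀' := hM.sd F₀ hF₀
  obtain ⟨m', hm'⟩ := Submodule.exists_isCompl (F ⊓ F₀)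
  have h2 : (m' ⊓ F₀) ⊓ F = ⊥ := by
    rw [eq_bot_iff, ← hm'.inf_eq_bot]
    exact le_inf (le_inf inf_le_right (inf_le_left.trans inf_le_right))
      (inf_le_left.trans inf_le_left)
  have h3 : (F ⊓ F₀) ⊔ (m' ⊓ F₀) = F₀ := by
    rw [← sup_inf_assoc_of_le m' (inf_le_right : F ⊓ F₀ ≤ F₀), hm'.sup_eq_top, top_inf_eq]
  have h4 : m' ⊓ F₀ ≠ ⊥ := by
    intro h0
    rw [h0, sup_bot_eq] at h3
    have h5 := h1.2
    rw [h3, hF₀'.2] at h5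
    omega
  obtain ⟨G, hG, hmG, hGF⟩ := ext_sd hn hF' (hF₀'.1.mono inf_le_right) h2
  have h6 := fam_even hn hM hG hF'
  rw [hGF, finrank_bot] at h6
  have h7 : G ∈ M := (h6.2 (by decide)).2 hF
  refine ⟨G, h7, ?_, hGF⟩
  intro h0
  apply h4
  rw [eq_bot_iff, ← h0]
  exact le_inf hmG inf_le_right

end PS

end Pool.Agent.Work.MP_bc729a_al.CG
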