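import Pool.Agent.Work.MP_bc729a_al.CO.Fb
import Pool.Agent.Work.MP_bc729a_al.CO.FmO
import Pool.Agent.Work.MP_bc729a_al.CO.Stp
import Pool.Agent.Work.MP_bc729a_al.CG.Mst

/-! # Module Nr (M): the relation Nr

`Ic b ℓ` for a point `b` and a line `ℓ` means `b ≤ ℓ`, for a solid `b` it means `ℓ ≤ b` (dimensions).
PROOF of `nr_pt`. For points `x, b`: `Cl x b ↔ x ≤ orth b`: `→` clear (`IsPt.self`; two points of a line are perpendicular); `←`: if `x ≠ b` then `x ⊔ b` is a line (`TS.sup`, dimension `2`). So `Nr` says that `x ≤ orth b` for all points `b ≤ ℓ`, i.e. `x ≤ orth ℓ` (`ts_pts`).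
PROOF of `nr_sd`. `→`: let `E ⊓ ℓ = ⊥`. `ext_sd` (`F := E`, `m := ℓ`): a solid `G ≥ ℓ`, `G ⊓ E = ⊥`; `G ∈ M` by `fam_even` (dimension `0`). So `Cl E G`: `E = G` is impossible (dimension `4`), and a common line would be `≤ E ⊓ G = ⊥`. `←`: let `E ⊓ ℓ ≠ ⊥`, `b ∈ M`, `ℓ ≤ b`. If `b ≠ E` then `E ⊓ b ≠ ⊥` has even dimension (`fam_even`), not `0`, not `4`, so it is a line (`TS.mono`) incident with both.
PROOF of `opp_cls`. Note `m ⊓ orth ℓ ≠ ⊥ ↔ ℓ ⊓ orth m ≠ ⊥` (dimensions: `finrank (ℓ ⊓ orth m) = finrank (m ⊓ orth ℓ)` by `orth_inf`, `orth_orth`, `finrank_orth`). `C` the points: `a ≤ ℓ` and `a ≤ orth m` (`nr_pt`) for a point `a` iff `ℓ ⊓ orth m ≠ ⊥` (`TS.isPt`). `C = M`: `→`: `a ∈ M`, `ℓ ≤ a`, `a ⊓ m ≠ ⊥` (`nr_sd`): a vector `v ≠ 0` of `a ⊓ m` is in `m ⊓ orth ℓ` (`a ≤ orth a ≤ orth ℓ`). `←`: `v ∈ m ⊓ orth ℓ`, `v ≠ 0`;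
`ℓ ⊔ span {v}` is totally singular of dimension `≤ 3`, so it is `≤ a ∈ M` (`ts_le_fam`); `Ic a ℓ`, `a ⊓ m ≠ ⊥`. `C = oth M`: the same with `oth_fam`. -/

namespace Pool.Agent.Work.MP_bc729a_al.CG

open Module

universe u v

variable {K : Type u} {V : Type v} [Field K] [AddCommGroup V] [Module K V] [Finite K] [Finite V]

namespace PS

variable {Φ : PS K V}

omit [Finite K] in
private theorem nr_ic_pt {b ℓ : Submodule K V} (hb : Φ.IsPt b) (hℓ : Φ.IsLn ℓ) :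
    Ic b ℓ ↔ b ≤ ℓ := by
  constructor
  · rintro (h | h)
    · exact h
    · have h1 := Submodule.finrank_mono h
      rw [hℓ.2, hb.finrank] at h1
      omega
  · exact Or.inl

omit [Finite K] in
private theorem nr_ic_sd {b ℓ : Submodule K V} (hb : Φ.IsSd b) (hℓ : Φ.IsLn ℓ) :
    Ic b ℓ ↔ ℓ ≤ b := by
  constructor
  · rintro (h | h)
    · have h1 := Submodule.finrank_mono h
      rw [hℓ.2, hb.2] at h1
      omega
    · exact h
  · exact Or.inr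

omit [Finite K] in
private theorem nr_cl_pt {x b : Submodule K V} (hx : Φ.IsPt x) (hb : Φ.IsPt b) :
    Φ.Cl x b ↔ x ≤ Φ.orth b := by
  constructor
  · rintro (rfl | ⟨ℓ, hℓ, h1, h2⟩)
    · exact hx.self
    · exact ((nr_ic_pt hx hℓ).1 h1).trans (hℓ.1.2.trans (Φ.orth_anti ((nr_ic_pt hb hℓ).1 h2)))
  · intro h
    by_cases hxb : x = b
    · exact Or.inl hxb
    · refine Or.inr ⟨x ⊔ b, ⟨hx.ts.sup hb.ts h, ?_⟩, Or.inl le_sup_left, Or.inl le_sup_right⟩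
      have h1 := Submodule.finrank_sup_add_finrank_inf_eq x b
      rw [hx.inf_eq_bot (fun h2 => hxb (hx.eq_of_le hb h2)), finrank_bot, hx.finrank,
        hb.finrank] at h1
      omega

theorem nr_pt {x ℓ : Submodule K V} (hx : Φ.IsPt x) (hℓ : Φ.IsLn ℓ) :
    Φ.Nr {z | Φ.IsPt z} x ℓ ↔ x ≤ Φ.orth ℓ := by
  constructor
  · intro h
    rw [Φ.le_orth_comm]
    have h1 : sSup {z | Φ.IsPt z ∧ z ≤ ℓ} ≤ Φ.orth x := by
      refine sSup_le ?_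
      rintro z ⟨hz, hzℓ⟩
      exact Φ.le_orth_comm.1 ((nr_cl_pt hx hz).1 (h z hz (Or.inl hzℓ)))
    rwa [← ts_pts hℓ.1] at h1
  · intro h b hb hic
    exact (nr_cl_pt hx hb).2 (h.trans (Φ.orth_anti ((nr_ic_pt hb hℓ).1 hic)))

theorem nr_sd (hn : finrank K V = 8) {D : Subgroup (V ≃ₗ[K] V)} {M : Set (Submodule K V)}
    (hM : Φ.Fam D M) {E ℓ : Submodule K V} (hE : E ∈ M) (hℓ : Φ.IsLn ℓ) :
    Φ.Nr M E ℓ ↔ E ⊓ ℓ ≠ ⊥ := by
  constructor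
  · intro h h0
    obtain ⟨G, hG, hℓG, hGE⟩ := ext_sd hn (hM.sd E hE) hℓ.1 (by rw [inf_comm]; exact h0)
    have h1 : G ∈ M := by
      have h2 := fam_even hn hM hG (hM.sd E hE)
      rw [hGE, finrank_bot] at h2
      exact (h2.2 (by decide)).2 hE
    rcases h G h1 (Or.inr hℓG) with h2 | ⟨k, hk, h3, h4⟩
    · rw [← h2, inf_idem] at hGE
      have h5 := (hM.sd E hE).2
      rw [hGE, finrank_bot] at h5
      omega
    · have h5 : k ≤ G ⊓ E := le_inf ((nr_ic_sd hG hk).1 h4) ((nr_ic_sd (hM.sd E hE) hk).1 h3)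
      rw [hGE, le_bot_iff] at h5
      have h6 := hk.2
      rw [h5, finrank_bot] at h6
      omega
  · intro h b hb hic
    by_cases hbE : E = b
    · exact Or.inl hbE
    · have hℓb := (nr_ic_sd (hM.sd b hb) hℓ).1 hic
      have h1 : E ⊓ b ≠ ⊥ := fun h2 => h (le_bot_iff.1 ((inf_le_inf_left E hℓb).trans h2.le))
      have h2 : Even (finrank K ↥(E ⊓ b)) :=
        (fam_even hn hM (hM.sd E hE) (hM.sd b hb)).1 ⟨fun _ => hb, fun _ => hE⟩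
      have h3 : finrank K ↥(E ⊓ b) ≠ 0 := fun h4 => h1 (Submodule.finrank_eq_zero.1 h4)
      have h4 : finrank K ↥(E ⊓ b) ≤ 4 := by
        rw [← (hM.sd E hE).2]
        exact Submodule.finrank_mono inf_le_left
      have h5 : finrank K ↥(E ⊓ b) ≠ 4 := by
        intro h6
        apply hbE
        have h7 : E ⊓ b = E :=
          Submodule.eq_of_le_of_finrank_eq inf_le_left (h6.trans (hM.sd E hE).2.symm)
        have h8 : E ⊓ b = b :=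
          Submodule.eq_of_le_of_finrank_eq inf_le_right (h6.trans (hM.sd b hb).2.symm)
        exact h7.symm.trans h8
      obtain ⟨j, hj⟩ := h2
      exact Or.inr ⟨E ⊓ b, ⟨(hM.sd E hE).1.mono inf_le_left, by omega⟩, Or.inr inf_le_left,
        Or.inr inf_le_right⟩

private theorem nr_sym {ℓ m : Submodule K V} (hℓ : Φ.IsLn ℓ) (hm : Φ.IsLn m) :
    m ⊓ Φ.orth ℓ ≠ ⊥ ↔ ℓ ⊓ Φ.orth m ≠ ⊥ := by
  have h1 := finrank_orth (Φ := Φ) (ℓ ⊓ Φ.orth m)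
  rw [orth_inf, orth_orth] at h1
  have h2 := Submodule.finrank_sup_add_finrank_inf_eq (Φ.orth ℓ) m
  have h3 := finrank_orth (Φ := Φ) ℓ
  rw [hℓ.2] at h3
  rw [hm.2] at h2
  have h4 : finrank K ↥(Φ.orth ℓ ⊓ m) = finrank K ↥(ℓ ⊓ Φ.orth m) := by omega
  have h5 : m ⊓ Φ.orth ℓ = ⊥ ↔ ℓ ⊓ Φ.orth m = ⊥ := by
    rw [inf_comm m, ← Submodule.finrank_eq_zero (R := K), ← Submodule.finrank_eq_zero (R := K), h4]
  exact not_congr h5

private theorem nr_fam (hn : finrank K V = 8) (ht : Φ.t = 1) {D : Subgroup (V ≃ₗ[K] V)}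
    {M : Set (Submodule K V)} (hM : Φ.Fam D M) {ℓ m : Submodule K V} (hℓ : Φ.IsLn ℓ)
    (hm : Φ.IsLn m) : (∃ a ∈ M, Ic a ℓ ∧ Φ.Nr M a m) ↔ ℓ ⊓ Φ.orth m ≠ ⊥ := by
  rw [← nr_sym hℓ hm]
  constructor
  · rintro ⟨a, ha, h1, h2⟩
    have hℓa := (nr_ic_sd (hM.sd a ha) hℓ).1 h1
    obtain ⟨v, hv, hv0⟩ := (Submodule.ne_bot_iff _).1 ((nr_sd hn hM ha hm).1 h2)
    refine (Submodule.ne_bot_iff _).2 ⟨v, ⟨hv.2, ?_⟩, hv0⟩
    exact Φ.orth_anti hℓa ((hM.sd a ha).1.2 hv.1)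
  · intro h
    obtain ⟨v, ⟨hv1, hv2⟩, hv0⟩ := (Submodule.ne_bot_iff _).1 h
    have hp : Φ.IsPt (Submodule.span K {v}) := hm.1.isPt hv1 hv0
    have h1 : Submodule.span K {v} ≤ Φ.orth ℓ := by
      rw [Submodule.span_singleton_le_iff_mem]
      exact hv2
    have h2 : Φ.TS (ℓ ⊔ Submodule.span K {v}) := hℓ.1.sup hp.ts (Φ.le_orth_comm.1 h1)
    have h3 : finrank K ↥(ℓ ⊔ Submodule.span K {v}) ≤ 3 := by
      have h4 := Submodule.finrank_sup_add_finrank_inf_eq ℓ (Submodule.span K {v})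
      rw [hℓ.2, hp.finrank] at h4
      omega
    obtain ⟨F, hF, hle⟩ := ts_le_fam hn ht hM h2 h3
    refine ⟨F, hF, Or.inr (le_sup_left.trans hle), (nr_sd hn hM hF hm).2 ?_⟩
    exact (Submodule.ne_bot_iff _).2
      ⟨v, ⟨hle (Submodule.mem_sup_right (Submodule.mem_span_singleton_self v)), hv1⟩, hv0⟩

theorem opp_cls {D : Subgroup (V ≃ₗ[K] V)} (hD : Φ.Grp D) (hn : finrank K V = 8)
    (ht : Φ.t = 1) {M : Set (Submodule K V)} (hM : Φ.Fam D M) {C : Set (Submodule K V)}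
    (hC : Φ.IsC M C) {ℓ m : Submodule K V} (hℓ : Φ.IsLn ℓ) (hm : Φ.IsLn m) :
    (∃ a ∈ C, Ic a ℓ ∧ Φ.Nr C a m) ↔ ℓ ⊓ Φ.orth m ≠ ⊥ := by
  rcases hC with h | h | h
  · rw [h]
    constructor
    · rintro ⟨a, ha, h1, h2⟩
      have h3 : a ≤ ℓ ⊓ Φ.orth m := le_inf ((nr_ic_pt ha hℓ).1 h1) ((nr_pt ha hm).1 h2)
      intro h4
      rw [h4, le_bot_iff] at h3
      exact ha.ne_bot h3
    · intro h1
      obtain ⟨v, ⟨hv1, hv2⟩, hv0⟩ := (Submodule.ne_bot_iff _).1 h1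
      have hp : Φ.IsPt (Submodule.span K {v}) := hℓ.1.isPt hv1 hv0
      refine ⟨Submodule.span K {v}, hp, Or.inl ?_, (nr_pt hp hm).2 ?_⟩
      · rw [Submodule.span_singleton_le_iff_mem]
        exact hv1
      · rw [Submodule.span_singleton_le_iff_mem]
        exact hv2
  · rw [h]
    exact nr_fam hn ht hM hℓ hm
  · rw [h]
    exact nr_fam hn ht (oth_fam hD hn ht hM).1 hℓ hm

end PS

end Pool.Agent.Work.MP_bc729a_al.CG
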