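import Pool.Agent.Work.MP_bc729a_al.CO.Fb
import Pool.Agent.Work.MP_bc729a_al.CO.Mvi
import Pool.Agent.Work.MP_bc729a_al.CG.Bt
import Pool.Agent.Work.MP_bc729a_al.CG.Bnd
import Pool.Agent.Work.MP_bc729a_al.CG.Maxl
import Pool.Agent.Work.MP_bc729a_al.CG.Lns
import Pool.Agent.Work.MP_bc729a_al.CG.Pts

/-! # Module Obi (M): subgroups of the index of a point stabiliser; images of line stabilisers

`c = 3` (`typ`, `ht`: the other cases give `|K| = 1`), so `c + 4 ≤ 8`. `pn ⊤ ≡ 1` mod `p` (`pn_mod`).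
PROOF of `ob_idx`. (Compare `eq_stE'` in CR/Gr.) `¬ p ∣ R.index`, `R ≠ ⊤`; `bt` (`R₀ = R`, `Z` all points) gives a point `x` and `E`, `TS E`, `x ≤ E`, `R ≤ stE D E`; `(stE D E).index ∣ R.index = pn ⊤`, so `(stE D E).index = bn D ⊤ E ≤ pn ⊤` (`index_stE`). `finrank E ≤ 4` (`ts_dim`). By `idx_bound` `finrank E` is not `2` or `3`. If `finrank E = 1` then `E = x`, `(stE D E).index = pn ⊤` (`index_pt`); if `finrank E = 4` then `(stE D E).index = pn ⊤` (`index_sd`). In both cases `R = stE D E` (equal index).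
PROOF of `ln_img`. `R = (stE D ℓ).map α`, `R.index = (stE D ℓ).index` is the number of lines (`index_ln`), `≡ 1` mod `p` (`card_lines_mod`), and `> pn ⊤` (`idx_bound`, `index_stE`). If `R ≤ R' ≠ ⊤` then `stE D ℓ ≤ R'.map α⁻¹ ≠ ⊤`, so they are equal (`eq_stE_line`) and `R' = R`. `bt` (`R₀ = R`) gives a point `x` and `E`, `TS E`, `x ≤ E`, `R ≤ stE D E`; `stE D E ≠ ⊤` (otherwise `bn D ⊤ E = 1`, but `bn_ge`, `idx_bound`, `index_pt`, `index_sd` give `≥ pn ⊤ > 1`); so `R = stE D E`. `finrank E = 1` is impossible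
(`index_pt`: index `pn ⊤`), `finrank E = 4` too (`index_sd`). If `finrank E = 3`: `ts_le_fam` gives `F ∈ M`, `E ≤ F`; `stE D E ≤ stE D F`: let `s = toPG g` fix `E`, then `F.map g ∈ M` contains `E`, and `F ⊓ F.map g ≥ E` has even dimension `≥ 3` (`fam_even`), so it is `4`, `F.map g = F`. So `stE D E = stE D F` by maximality (`stE D F ≠ ⊤`), contradiction to `stE_ts_inj`. So `finrank E = 2`. -/

namespace Pool.Agent.Work.MP_bc729a_al.CG

open Module

universe u v

variable {K : Type u} {V : Type v} [Field K] [AddCommGroup V] [Module K V] [Finite K] [Finite V]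

namespace PS

variable {Φ : PS K V}

omit [Finite V] in
private theorem obi_c (ht : Φ.t = 1) : Φ.c = 3 := by
  have hQ : 1 < Nat.card K := Finite.one_lt_card
  rcases Φ.typ with ⟨h, -⟩ | ⟨-, h⟩ | ⟨-, h⟩
  · exact h
  · rw [ht] at h
    omega
  · rw [ht] at h
    omega

private theorem obi_ndvd {p : ℕ} [Fact p.Prime] {n : ℕ} (h : n ≡ 1 [MOD p]) : ¬ p ∣ n := by
  intro hdvd
  have h1 : n ≡ 0 [MOD p] := (Nat.modEq_zero_iff_dvd).2 hdvd
  have h2 : 1 ≡ 0 [MOD p] := h.symm.trans h1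
  have h3 := (Nat.modEq_zero_iff_dvd).1 h2
  exact (Fact.out : p.Prime).one_lt.ne' (Nat.dvd_one.1 h3)

private theorem obi_pn {p : ℕ} [Fact p.Prime] [CharP K p] (hn : finrank K V = 8)
    (ht : Φ.t = 1) : Φ.pn ⊤ ≡ 1 [MOD p] := by
  apply pn_mod
  rw [finrank_top, hn, obi_c ht]
  omega

private theorem obi_one (hn : finrank K V = 8) (ht : Φ.t = 1) : 1 < Φ.pn ⊤ := by
  have hct : Φ.c ≤ finrank K (⊤ : Submodule K V) := by
    rw [finrank_top, hn, obi_c ht]
    omega
  have hfin : Finite (Submodule K V) :=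
    Finite.of_injective (fun W : Submodule K V => (W : Set V)) SetLike.coe_injective
  obtain ⟨x, hx, -⟩ := exists_pt hct
  obtain ⟨y, hy, -, hxy⟩ := exists_opp ND_top hx le_top
  have h0 := pn_pos_of hx (le_top : x ≤ ⊤)
  by_contra hcon
  have h1 : Nat.card {x : Submodule K V // Φ.IsPt x ∧ x ≤ ⊤} = 1 := by
    have h2 : Φ.pn ⊤ = 1 := by omega
    exact h2
  have h2 := (Nat.card_eq_one_iff_unique.1 h1).1
  have h3 := congrArg Subtype.val (h2.elim ⟨x, hx, le_top⟩ ⟨y, hy, le_top⟩)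
  have h4 : x = y := h3
  apply hxy
  rw [← h4]
  exact hx.self

private theorem obi_bt {D : Subgroup (V ≃ₗ[K] V)} (hD : Φ.Grp D) [IsSimpleGroup ↥(PG D)]
    {p : ℕ} [Fact p.Prime] [CharP K p] (hn : finrank K V = 8) (ht : Φ.t = 1)
    {R : Subgroup ↥(PG D)} (hR : ¬ p ∣ R.index) (hRt : R ≠ ⊤) :
    ∃ E, Φ.TS E ∧ 1 ≤ finrank K E ∧ R ≤ stE D E := by
  have hcard : Nat.card {z : Submodule K V | Φ.IsPt z} = Φ.pn ⊤ :=
    Nat.card_congr (Equiv.subtypeEquivRight fun z => ⟨fun h => ⟨h, le_top⟩, fun h => h.1⟩)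
  obtain ⟨x, hx, E, hE, hxE, hRE⟩ := bt hD (by omega) (le_refl R) hR hRt
    (Z := {z : Submodule K V | Φ.IsPt z}) (fun z hz => hz)
    (by rw [hcard]; exact obi_ndvd (obi_pn hn ht)) (by
      intro s _ z hz
      obtain ⟨g, hg, rfl⟩ := exists_toPG s
      rw [toPG_apply]
      exact IsPt.map (Φ := Φ) hz (hD.le hg))
  have hx' : Φ.IsPt x := hx
  refine ⟨E, hE, ?_, hRE⟩
  have h1 := Submodule.finrank_mono hxE
  rw [hx'.finrank] at h1
  exact h1

private theorem obi_idx {D : Subgroup (V ≃ₗ[K] V)} (hD : Φ.Grp D) (hn : finrank K V = 8)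
    (ht : Φ.t = 1) {M : Set (Submodule K V)} (hM : Φ.Fam D M) {E : Submodule K V}
    (hE : Φ.TS E) (h1 : 1 ≤ finrank K E) :
    ((Φ.IsPt E ∨ Φ.IsSd E) ∧ (stE D E).index = Φ.pn ⊤) ∨
      ((finrank K E = 2 ∨ finrank K E = 3) ∧ Φ.pn ⊤ < (stE D E).index) := by
  have hdim := ts_dim ND_top hE le_top
  rw [finrank_top, hn] at hdim
  by_cases h4 : finrank K E = 4
  · exact Or.inl ⟨Or.inr ⟨hE, h4⟩, index_sd hD hn ht hM ⟨hE, h4⟩⟩
  by_cases h2 : finrank K E = 1
  · left
    have hEb : E ≠ ⊥ := by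
      rintro rfl
      rw [finrank_bot] at h2
      omega
    obtain ⟨v, hv, hv0⟩ := Submodule.exists_mem_ne_zero_of_ne_bot hEb
    have hp := hE.isPt hv hv0
    have h3 : Submodule.span K {v} = E := by
      refine Submodule.eq_of_le_of_finrank_le ?_ ?_
      · rw [Submodule.span_singleton_le_iff_mem]
        exact hv
      · rw [hp.finrank, h2]
    rw [h3] at hp
    exact ⟨Or.inl hp, index_pt hD (by omega) hp⟩
  · right
    refine ⟨by omega, ?_⟩
    rw [index_stE (Φ := Φ)]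
    refine idx_bound hD ?_ hE (by omega) ?_
    · rw [obi_c ht, hn]
      omega
    · rintro ⟨-, -, h⟩
      exact h4 h

theorem ob_idx {D : Subgroup (V ≃ₗ[K] V)} (hD : Φ.Grp D) [IsSimpleGroup ↥(PG D)] {p : ℕ}
    [Fact p.Prime] [CharP K p] (hn : finrank K V = 8) (ht : Φ.t = 1)
    {M : Set (Submodule K V)} (hM : Φ.Fam D M) {R : Subgroup ↥(PG D)}
    (hR : R.index = Φ.pn ⊤) : ∃ a : Φ.Ob, R = stE D a.1 := by
  have hR1 : R ≠ ⊤ := by
    intro h
    rw [h, Subgroup.index_top] at hR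
    have h1 := obi_one (Φ := Φ) hn ht
    omega
  obtain ⟨E, hE, hE1, hRE⟩ := obi_bt (p := p) hD hn ht
    (by rw [hR]; exact obi_ndvd (obi_pn hn ht)) hR1
  have hpos : 0 < Φ.pn ⊤ := by
    have h1 := obi_one (Φ := Φ) hn ht
    omega
  have hle : (stE D E).index ≤ Φ.pn ⊤ := by
    rw [← hR]
    exact Nat.le_of_dvd (by rw [hR]; exact hpos) (Subgroup.index_dvd_of_le hRE)
  rcases obi_idx hD hn ht hM hE hE1 with ⟨hob, hidx⟩ | ⟨-, hidx⟩
  · refine ⟨⟨E, hob⟩, le_antisymm hRE ?_⟩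
    have h5 := Subgroup.relIndex_mul_index hRE
    rw [hidx, hR] at h5
    have h6 : R.relIndex (stE D E) = 1 :=
      Nat.eq_of_mul_eq_mul_right hpos (by rw [h5, one_mul])
    exact Subgroup.relIndex_eq_one.1 h6
  · omega

theorem ln_img {D : Subgroup (V ≃ₗ[K] V)} (hD : Φ.Grp D) [IsSimpleGroup ↥(PG D)] {p : ℕ}
    [Fact p.Prime] [CharP K p] (hn : finrank K V = 8) (ht : Φ.t = 1)
    {M : Set (Submodule K V)} (hM : Φ.Fam D M) (α : MulAut ↥(PG D)) {ℓ : Submodule K V}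
    (hℓ : Φ.IsLn ℓ) : ∃ ℓ', Φ.IsLn ℓ' ∧ (stE D ℓ).map α.toMonoidHom = stE D ℓ' := by
  have hc : Φ.c + 4 ≤ finrank K V := by
    rw [obi_c ht, hn]
    omega
  have hone := obi_one (Φ := Φ) hn ht
  have hlidx : (stE D ℓ).index = Nat.card {ℓ : Submodule K V // Φ.IsLn ℓ} :=
    index_ln hD (by omega) hℓ
  have hlbig : Φ.pn ⊤ < (stE D ℓ).index := by
    rw [index_stE (Φ := Φ)]
    refine idx_bound hD hc hℓ.1 (by rw [hℓ.2]) ?_
    rintro ⟨-, -, h⟩
    rw [hℓ.2] at h
    omega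
  obtain ⟨R, hRe⟩ : ∃ R, R = (stE D ℓ).map α.toMonoidHom := ⟨_, rfl⟩
  rw [← hRe]
  have hRidx : R.index = (stE D ℓ).index := by
    rw [hRe]
    exact Subgroup.index_map_equiv (stE D ℓ) α
  have hRt : R ≠ ⊤ := by
    intro h
    rw [h, Subgroup.index_top] at hRidx
    omega
  have hRp : ¬ p ∣ R.index := by
    rw [hRidx, hlidx]
    exact obi_ndvd (card_lines_mod (Φ := Φ) (p := p) hc)
  have hmax : ∀ R' : Subgroup ↥(PG D), R ≤ R' → R' ≠ ⊤ → R = R' := by
    intro R' hRR' hR't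
    have hsurj : Function.Surjective α.toMonoidHom := α.surjective
    have h1 : stE D ℓ ≤ R'.comap α.toMonoidHom := by
      rw [← Subgroup.map_le_iff_le_comap, ← hRe]
      exact hRR'
    have h2 : R'.comap α.toMonoidHom ≠ ⊤ := by
      intro h
      apply hR't
      rw [← Subgroup.map_comap_eq_self_of_surjective hsurj R', h]
      exact Subgroup.map_top_of_surjective _ hsurj
    have h3 := eq_stE_line (p := p) hD hc hℓ h1 h2
    rw [hRe, ← h3]
    exact Subgroup.map_comap_eq_self_of_surjective hsurj R'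
  obtain ⟨E, hE, hE1, hRE⟩ := obi_bt (p := p) hD hn ht hRp hRt
  have hnt : ∀ F : Submodule K V, Φ.TS F → 1 ≤ finrank K F → stE D F ≠ ⊤ := by
    intro F hF hF1 h
    have h1 : (stE D F).index = 1 := by
      rw [h, Subgroup.index_top]
    rcases obi_idx hD hn ht hM hF hF1 with ⟨-, h2⟩ | ⟨-, h2⟩ <;> omega
  have hEq := hmax _ hRE (hnt E hE hE1)
  rcases obi_idx hD hn ht hM hE hE1 with ⟨-, hidx⟩ | ⟨h23, -⟩
  · rw [← hEq, hRidx] at hidx
    omega
  · rcases h23 with h2 | h3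
    · exact ⟨E, ⟨hE, h2⟩, hEq⟩
    · exfalso
      obtain ⟨F, hF, hEF⟩ := ts_le_fam hn ht hM hE (by omega)
      have hFsd := hM.sd F hF
      have hle : stE D E ≤ stE D F := by
        intro s hs
        obtain ⟨g, hg, rfl⟩ := exists_toPG s
        rw [mem_stE, toPG_apply] at hs ⊢
        have hgF := hM.inv g hg F hF
        have hgsd := hM.sd _ hgF
        have hE2 : E ≤ F ⊓ F.map (g : V →ₗ[K] V) := by
          refine le_inf hEF ?_
          calc E = E.map (g : V →ₗ[K] V) := hs.symm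
            _ ≤ F.map (g : V →ₗ[K] V) := Submodule.map_mono hEF
        have hev : Even (finrank K ↥(F ⊓ F.map (g : V →ₗ[K] V))) :=
          (fam_even hn hM hFsd hgsd).1 ⟨fun _ => hgF, fun _ => hF⟩
        have h5 := Submodule.finrank_mono hE2
        have h6 : finrank K ↥(F ⊓ F.map (g : V →ₗ[K] V)) ≤ finrank K F :=
          Submodule.finrank_mono inf_le_left
        have h7 := hFsd.2
        have h8 := hgsd.2
        have h9 : finrank K ↥(F ⊓ F.map (g : V →ₗ[K] V)) = 4 := by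
          obtain ⟨k, hk⟩ := hev
          omega
        have h10 : F ⊓ F.map (g : V →ₗ[K] V) = F :=
          Submodule.eq_of_le_of_finrank_le inf_le_left (by omega)
        have h11 : F ⊓ F.map (g : V →ₗ[K] V) = F.map (g : V →ₗ[K] V) :=
          Submodule.eq_of_le_of_finrank_le inf_le_right (by omega)
        exact h11.symm.trans h10
      have hEq2 := hmax _ (hRE.trans hle) (hnt F hFsd.1 (by rw [hFsd.2]; omega))
      have hne : ∀ G : Submodule K V, 1 ≤ finrank K G → G ≠ ⊥ := by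
        rintro G hG rfl
        rw [finrank_bot] at hG
        omega
      have h12 := stE_ts_inj hD (by omega) hE hFsd.1 (hne E hE1)
        (hne F (by rw [hFsd.2]; omega)) (hEq.symm.trans hEq2)
      rw [h12, hFsd.2] at h3
      omega

end PS

end Pool.Agent.Work.MP_bc729a_al.CG
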