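import Pool.Agent.Work.MP_bc729a_al.CO.Defs
import Pool.Agent.Work.MP_bc729a_al.CG.TrnC
import Pool.Agent.Work.MP_bc729a_al.CG.Exq
import Pool.Agent.Work.MP_bc729a_al.CG.Dsc

/-! # Module Opl (M): opposite lines

PROOF of `opp_nd`. `ℓ ⊓ orth m = ⊥`; `finrank (m ⊓ orth ℓ) = finrank (ℓ ⊓ orth m) = 0` (`orth_inf`, `orth_orth`, `finrank_orth`, `Submodule.finrank_sup_add_finrank_inf_eq`). `ℓ ⊓ m ≤ ℓ ⊓ orth m = ⊥`, so `finrank (ℓ ⊔ m) = 4`. `ND`: let `v = a + b ∈ orth (ℓ ⊔ m) = orth ℓ ⊓ orth m`, `a ∈ ℓ`, `b ∈ m`: `b = v - a ∈ orth ℓ`, so `b = 0`, `a ∈ orth m`, `a = 0`. `(ℓ ⊔ m) ⊓ orth ℓ = ℓ`: `a + b ∈ orth ℓ` gives `b ∈ orth ℓ`.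
PROOF of `opp_quad`. Let `x ≤ ℓ` be a point (`TS.isPt`). `m ⊓ orth x` has dimension `1` (`≥ 1`, and `m ≤ orth x` would give `x ≤ ℓ ⊓ orth m`): a point `y'`. Let `y ≤ m` be a point, `y ≠ y'`; then `¬ y ≤ orth x`. `ℓ ⊓ orth y` has dimension `1` in the same way: a point `x'`; `x' ≠ x`. `x', y'` are opposite: otherwise `y'` is perpendicular to `x ⊔ x' = ℓ`. The other conditions of `Quad` are clear; `ℓ = x ⊔ x'`, `m = y ⊔ y'` (dimensions).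
PROOF of `quad_opp`. `x ⊔ x'`, `y ⊔ y'` are lines (`TS.sup`; dimension `2`, as `x ≠ x'`: `x'` is perpendicular to `y` and `x` is not). `v = a • x₀ + b • x₀' ∈ orth (y ⊔ y')`: `0 = B v y₀ = a * B x₀ y₀`, `0 = B v y₀' = b * B x₀' y₀'`, so `v = 0`. `trans_opp`: `opp_quad` twice and `trans_quad`, `Submodule.map_sup`. -/

namespace Pool.Agent.Work.MP_bc729a_al.CG

open Module

universe u v

variable {K : Type u} {V : Type v} [Field K] [AddCommGroup V] [Module K V] [Finite K] [Finite V]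

namespace PS

variable {Φ : PS K V}

private theorem oplDim (U W : Submodule K V) :
    finrank K ↥(W ⊓ Φ.orth U) + finrank K U = finrank K ↥(U ⊓ Φ.orth W) + finrank K W := by
  have h1 := Φ.finrank_orth (U ⊓ Φ.orth W)
  rw [Φ.orth_inf, Φ.orth_orth] at h1
  have h2 := Submodule.finrank_sup_add_finrank_inf_eq (Φ.orth U) W
  have h3 := Φ.finrank_orth U
  rw [inf_comm (Φ.orth U) W] at h2
  omega

private theorem oplPt {W : Submodule K V} (hW : Φ.TS W) (h : finrank K W = 1) : Φ.IsPt W := by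
  have hne : W ≠ ⊥ := by
    intro h0
    rw [h0, finrank_bot] at h
    omega
  obtain ⟨v, hv, h0⟩ := Submodule.exists_mem_ne_zero_of_ne_bot hne
  have hp := hW.isPt hv h0
  have he : Submodule.span K {v} = W := by
    refine Submodule.eq_of_le_of_finrank_eq ?_ ?_
    · rw [Submodule.span_singleton_le_iff_mem]
      exact hv
    · rw [hp.finrank, h]
  rw [← he]
  exact hp

private theorem oplSup {x x' : Submodule K V} (hx : Φ.IsPt x) (hx' : Φ.IsPt x')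
    (h : ¬ x ≤ x') : finrank K ↥(x ⊔ x') = 2 := by
  have h1 := Submodule.finrank_sup_add_finrank_inf_eq x x'
  rw [hx.inf_eq_bot h, finrank_bot, hx.finrank, hx'.finrank] at h1
  omega

private theorem oplSym {ℓ m : Submodule K V} (hℓ : Φ.IsLn ℓ) (hm : Φ.IsLn m)
    (h : ℓ ⊓ Φ.orth m = ⊥) : m ⊓ Φ.orth ℓ = ⊥ := by
  have h1 := oplDim (Φ := Φ) ℓ m
  rw [h, finrank_bot, hℓ.2, hm.2] at h1
  exact Submodule.finrank_eq_zero.1 (by omega)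

private theorem oplOne {ℓ m x : Submodule K V} (hm : Φ.IsLn m)
    (h : ℓ ⊓ Φ.orth m = ⊥) (hx : Φ.IsPt x) (hxℓ : x ≤ ℓ) : Φ.IsPt (m ⊓ Φ.orth x) := by
  refine oplPt (hm.1.mono inf_le_left) ?_
  have h1 := oplDim (Φ := Φ) x m
  have h2 : x ⊓ Φ.orth m = ⊥ := le_bot_iff.1 (h ▸ inf_le_inf_right _ hxℓ)
  rw [h2, finrank_bot, hx.finrank, hm.2] at h1
  omega

theorem opp_nd {ℓ m : Submodule K V} (hℓ : Φ.IsLn ℓ) (hm : Φ.IsLn m)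
    (h : ℓ ⊓ Φ.orth m = ⊥) :
    Φ.ND (ℓ ⊔ m) ∧ finrank K ↥(ℓ ⊔ m) = 4 ∧ m ⊓ Φ.orth ℓ = ⊥ ∧ ℓ ⊓ m = ⊥ ∧
      (ℓ ⊔ m) ⊓ Φ.orth ℓ = ℓ := by
  have h1 := oplSym hℓ hm h
  have h2 : ℓ ⊓ m = ⊥ := le_bot_iff.1 (h ▸ inf_le_inf_left _ hm.1.2)
  have h3 : (ℓ ⊔ m) ⊓ Φ.orth ℓ = ℓ := by
    refine le_antisymm ?_ (le_inf le_sup_left hℓ.1.2)
    rintro v ⟨hv, hv'⟩
    obtain ⟨a, ha, b, hb, rfl⟩ := Submodule.mem_sup.1 hv
    have hb' : b ∈ Φ.orth ℓ := by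
      have := (Φ.orth ℓ).sub_mem hv' (hℓ.1.2 ha)
      rwa [add_sub_cancel_left] at this
    have hb0 : b ∈ m ⊓ Φ.orth ℓ := ⟨hb, hb'⟩
    rw [h1, Submodule.mem_bot] at hb0
    rw [hb0, add_zero]
    exact ha
  refine ⟨?_, ?_, h1, h2, h3⟩
  · unfold ND
    rw [eq_bot_iff, ← h, Φ.orth_sup]
    refine le_inf ?_ (inf_le_right.trans inf_le_right)
    calc (ℓ ⊔ m) ⊓ (Φ.orth ℓ ⊓ Φ.orth m) ≤ (ℓ ⊔ m) ⊓ Φ.orth ℓ := inf_le_inf_left _ inf_le_left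
      _ = ℓ := h3
  · have h4 := Submodule.finrank_sup_add_finrank_inf_eq ℓ m
    rw [h2, finrank_bot, hℓ.2, hm.2] at h4
    omega

theorem opp_quad {ℓ m : Submodule K V} (hℓ : Φ.IsLn ℓ) (hm : Φ.IsLn m)
    (h : ℓ ⊓ Φ.orth m = ⊥) :
    ∃ x y x' y', Φ.Quad x y x' y' ∧ ℓ = x ⊔ x' ∧ m = y ⊔ y' := by
  have h1 := oplSym hℓ hm h
  have hne : ℓ ≠ ⊥ := by
    intro h0
    have := hℓ.2
    rw [h0, finrank_bot] at this
    omega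
  obtain ⟨v, hv, hv0⟩ := Submodule.exists_mem_ne_zero_of_ne_bot hne
  obtain ⟨x, hx, hxℓ⟩ : ∃ x, Φ.IsPt x ∧ x ≤ ℓ :=
    ⟨_, hℓ.1.isPt hv hv0, by rw [Submodule.span_singleton_le_iff_mem]; exact hv⟩
  have hy' : Φ.IsPt (m ⊓ Φ.orth x) := oplOne hm h hx hxℓ
  obtain ⟨u, hu, hu'⟩ : ∃ u ∈ m, u ∉ m ⊓ Φ.orth x := by
    by_contra hc
    push Not at hc
    have h2 : m ≤ m ⊓ Φ.orth x := hc
    have h3 := Submodule.finrank_mono h2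
    rw [hy'.finrank, hm.2] at h3
    omega
  have hu0 : u ≠ 0 := fun h0 => hu' (h0 ▸ Submodule.zero_mem _)
  obtain ⟨y, hy, hym, hyx⟩ : ∃ y, Φ.IsPt y ∧ y ≤ m ∧ ¬ y ≤ Φ.orth x := by
    refine ⟨_, hm.1.isPt hu hu0, by rw [Submodule.span_singleton_le_iff_mem]; exact hu, ?_⟩
    rw [Submodule.span_singleton_le_iff_mem]
    exact fun h2 => hu' ⟨hu, h2⟩
  have hxy : ¬ x ≤ Φ.orth y := fun h2 => hyx (Φ.le_orth_comm.1 h2)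
  have hx' : Φ.IsPt (ℓ ⊓ Φ.orth y) := oplOne hℓ h1 hy hym
  have e1 : ℓ = x ⊔ ℓ ⊓ Φ.orth y := by
    symm
    refine Submodule.eq_of_le_of_finrank_eq (sup_le hxℓ inf_le_left) ?_
    rw [hℓ.2]
    exact oplSup hx hx' fun h2 => hxy (h2.trans inf_le_right)
  have e2 : m = y ⊔ m ⊓ Φ.orth x := by
    symm
    refine Submodule.eq_of_le_of_finrank_eq (sup_le hym inf_le_left) ?_
    rw [hm.2]
    exact oplSup hy hy' fun h2 => hyx (h2.trans inf_le_right)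
  refine ⟨x, y, ℓ ⊓ Φ.orth y, m ⊓ Φ.orth x, ⟨hx, hy, hx', hy', hyx, ?_, ?_, inf_le_right,
    inf_le_right, ?_⟩, e1, e2⟩
  · intro h2
    have h3 : m ⊓ Φ.orth x ≤ Φ.orth ℓ := by
      rw [e1, Φ.orth_sup]
      exact le_inf inf_le_right h2
    have h4 : m ⊓ Φ.orth x ≤ m ⊓ Φ.orth ℓ := le_inf inf_le_left h3
    rw [h1] at h4
    exact hy'.ne_bot (le_bot_iff.1 h4)
  · exact inf_le_left.trans (hℓ.1.2.trans (Φ.orth_anti hxℓ))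
  · exact inf_le_left.trans (hm.1.2.trans (Φ.orth_anti hym))

theorem quad_opp {x y x' y' : Submodule K V} (h : Φ.Quad x y x' y') :
    Φ.IsLn (x ⊔ x') ∧ Φ.IsLn (y ⊔ y') ∧ (x ⊔ x') ⊓ Φ.orth (y ⊔ y') = ⊥ := by
  obtain ⟨px, py, px', py', xy, xy', xx, yx, xy1, yy⟩ := h
  have hxy : ¬ x ≤ Φ.orth y := fun h2 => xy (Φ.le_orth_comm.1 h2)
  have hxy' : ¬ x' ≤ Φ.orth y' := fun h2 => xy' (Φ.le_orth_comm.1 h2)
  have hxy1 : x ≤ Φ.orth y' := Φ.le_orth_comm.1 xy1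
  refine ⟨⟨px.ts.sup px'.ts (Φ.le_orth_comm.1 xx), oplSup px px' fun h2 => hxy (h2.trans yx)⟩,
    ⟨py.ts.sup py'.ts (Φ.le_orth_comm.1 yy), oplSup py py' fun h2 => xy (h2.trans xy1)⟩, ?_⟩
  rw [eq_bot_iff, Φ.orth_sup]
  rintro v ⟨hv, hv1, hv2⟩
  obtain ⟨a, ha, b, hb, rfl⟩ := Submodule.mem_sup.1 hv
  have ha' : a ∈ x ⊓ Φ.orth y := by
    refine ⟨ha, ?_⟩
    have := (Φ.orth y).sub_mem hv1 (yx hb)
    rwa [add_sub_cancel_right] at this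
  have hb' : b ∈ x' ⊓ Φ.orth y' := by
    refine ⟨hb, ?_⟩
    have := (Φ.orth y').sub_mem hv2 (hxy1 ha)
    rwa [add_sub_cancel_left] at this
  rw [px.inf_eq_bot hxy, Submodule.mem_bot] at ha'
  rw [px'.inf_eq_bot hxy', Submodule.mem_bot] at hb'
  rw [ha', hb', add_zero]
  exact Submodule.zero_mem _

theorem trans_opp {D : Subgroup (V ≃ₗ[K] V)} (hD : Φ.Grp D) (hn : 5 ≤ finrank K V)
    {ℓ m ℓ₁ m₁ : Submodule K V} (hℓ : Φ.IsLn ℓ) (hm : Φ.IsLn m) (h : ℓ ⊓ Φ.orth m = ⊥)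
    (hℓ₁ : Φ.IsLn ℓ₁) (hm₁ : Φ.IsLn m₁) (h₁ : ℓ₁ ⊓ Φ.orth m₁ = ⊥) :
    ∃ g ∈ D, ℓ.map (g : V →ₗ[K] V) = ℓ₁ ∧ m.map (g : V →ₗ[K] V) = m₁ := by
  obtain ⟨x, y, x', y', hQ, e1, e2⟩ := opp_quad hℓ hm h
  obtain ⟨x₁, y₁, x₁', y₁', hQ₁, e3, e4⟩ := opp_quad hℓ₁ hm₁ h₁
  obtain ⟨g, hg, g1, g2, g3, g4⟩ := trans_quad hD hn hQ hQ₁
  refine ⟨g, hg, ?_, ?_⟩
  · rw [e1, Submodule.map_sup, g1, g3, ← e3]
  · rw [e2, Submodule.map_sup, g2, g4, ← e4]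

end PS

end Pool.Agent.Work.MP_bc729a_al.CG
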