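import Pool.Agent.Work.MP_bc729a_al.CO.Nr
import Pool.Agent.Work.MP_bc729a_al.CO.Opl
import Pool.Agent.Work.MP_bc729a_al.CG.Hyp
import Pool.Agent.Work.MP_bc729a_al.CG.Dsc

/-! # Module Rgd (M): reguli

`A = ℓ ⊔ m` (`opp_nd`): nondegenerate of dimension `4`, `C = orth A` nondegenerate of dimension `4`, spanned by its points (`exists_pt`: `c ≤ 3`, `span_pts`). A totally singular subspace of `A` has dimension `≤ 2` (`ts_dim`).
PROOF of `two_lines`. `finrank (A ⊓ orth y) = 3` (`ND.finrank_inf_orth`), so `A ⊓ orth y = ℓ ⊔ k` (both lines are `≤ orth y`). `u = span {u₀}`, `u₀ = a + b`, `a ∈ ℓ`, `b ∈ k`, singular. If `B b a ≠ 0`: `S (b + 0 • a)` and `S (b + 1 • a)` contradict `card_t` (`t = 1`). So `B b a = 0`. If `a ∈ y ≤ k` then `u₀ ∈ k`. Otherwise `ℓ = y ⊔ span {a}`, `b ∈ A ⊓ orth ℓ`, and this space has dimension `2` (`ND.finrank_inf_orth`) and contains `ℓ`, so `b ∈ ℓ`, `u₀ ∈ ℓ`.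
PROOF of `rg_iff`. `→`: let `k ∈ Rg M ℓ m`. (1) For every point `a ≤ C`: `a ≤ orth ℓ`, `a ≤ orth m`, so `a ≤ orth k` (`nr_pt`, class of the points). So `C ≤ orth k`, `k ≤ orth C = A`. (2) Suppose `finrank (k ⊓ ℓ)` is odd, so it is `1`, `k ⊓ ℓ = e`. Let `y ≤ ℓ` be a point, `y ≠ e`, so `¬ y ≤ k`, and `z ≤ m ⊓ orth y` a point; `k' = y ⊔ z` is a line, `≤ A`, `k' ≠ ℓ` (`ℓ ⊓ m = ⊥`), so `k' ⊓ ℓ = y`. `k' ⊓ k = ⊥`: a point `v` of it is perpendicular to `y` and to `e`, so to `ℓ`,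
so `v ≤ A ⊓ orth ℓ = ℓ`, `v ≤ k' ⊓ ℓ = y`, `y = v ≤ k`, contradiction. `ts_le_fam`: `E ∈ M`, `k' ≤ E`. `E ⊓ A = k'` (dimension `≤ 2`). `E ⊓ ℓ ≠ ⊥`, `E ⊓ m ≠ ⊥`, so (`nr_sd`, class `M`) `E ⊓ k ≠ ⊥`, but `E ⊓ k ≤ k' ⊓ k = ⊥`: contradiction.
`←`: let `k` be a line, `k ≤ A`, `finrank (k ⊓ ℓ)` even. Points: `a ≤ orth ℓ`, `a ≤ orth m` give `a ≤ orth A ≤ orth k` (`nr_pt`). Class `M'` (`= M`, or `= oth M` with `oth_fam`): let `E ∈ M'`, `E ⊓ ℓ ≠ ⊥`, `E ⊓ m ≠ ⊥` (`nr_sd`); to show `E ⊓ k ≠ ⊥`. If `k = ℓ` clear. Otherwise `k ⊓ ℓ = ⊥`. Points `y ≤ E ⊓ ℓ`, `z ≤ E ⊓ m`, `k' = y ⊔ z ≤ E` a line `≤ A`, `k' ≠ ℓ`. Suppose `k' ⊓ k = ⊥`. `k ⊓ orth y ≠ ⊥`: a point `u`; `two_lines` (`y`, `ℓ`, `k'`, `u`): `u ≤ ℓ` or `u ≤ k'`, contradiction. So `⊥ ≠ k' ⊓ k ≤ E ⊓ k`. -/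

namespace Pool.Agent.Work.MP_bc729a_al.CG

open Module

universe u v

variable {K : Type u} {V : Type v} [Field K] [AddCommGroup V] [Module K V] [Finite K] [Finite V]

namespace PS

variable {Φ : PS K V}

theorem two_lines (ht : Φ.t = 1) {A y ℓ k u : Submodule K V} (hA : Φ.ND A)
    (h4 : finrank K A = 4) (hy : Φ.IsPt y) (hℓ : Φ.IsLn ℓ) (hk : Φ.IsLn k) (hyℓ : y ≤ ℓ)
    (hyk : y ≤ k) (hℓA : ℓ ≤ A) (hkA : k ≤ A) (hne : ℓ ≠ k) (hu : Φ.IsPt u) (huA : u ≤ A)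
    (huy : u ≤ Φ.orth y) : u ≤ ℓ ∨ u ≤ k := by
  have hky : k ≤ Φ.orth y := hk.1.2.trans (Φ.orth_anti hyk)
  have hℓy : ℓ ≤ Φ.orth y := hℓ.1.2.trans (Φ.orth_anti hyℓ)
  have h3 := hA.finrank_inf_orth (hyℓ.trans hℓA)
  rw [h4, hy.finrank] at h3
  have hinf : finrank K ↥(ℓ ⊓ k) ≤ 1 := by
    by_contra hc
    have h5 : ℓ ⊓ k = ℓ := by
      refine Submodule.eq_of_le_of_finrank_le inf_le_left ?_
      rw [hℓ.2]
      omega
    have h6 : ℓ ⊓ k = k := by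
      refine Submodule.eq_of_le_of_finrank_le inf_le_right ?_
      rw [hk.2]
      omega
    exact hne (h5.symm.trans h6)
  have hsup : ℓ ⊔ k = A ⊓ Φ.orth y := by
    refine Submodule.eq_of_le_of_finrank_le
      (sup_le (le_inf hℓA hℓy) (le_inf hkA hky)) ?_
    have h5 := Submodule.finrank_sup_add_finrank_inf_eq ℓ k
    rw [hℓ.2, hk.2] at h5
    omega
  obtain ⟨w, hw, hw0⟩ := hu.exists
  have hwS := hu.S hw
  have hwk : w ∈ ℓ ⊔ k := by
    rw [hsup]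
    exact ⟨huA hw, huy hw⟩
  obtain ⟨a, ha, b, hb, hab⟩ := Submodule.mem_sup.1 hwk
  have hB : Φ.B b a = 0 := by
    by_contra hc
    have h5 := Φ.card_t a b (hℓ.1.1 a ha) hc
    rw [ht, Nat.card_eq_one_iff_unique] at h5
    obtain ⟨h6, -⟩ := h5
    have s0 : Φ.S (b + (0 : K) • a) := by
      rw [zero_smul, add_zero]
      exact hk.1.1 b hb
    have s1 : Φ.S (b + (1 : K) • a) := by
      rw [one_smul, add_comm, hab]
      exact hwS
    have h7 := h6.elim (⟨0, s0⟩ : {c : K // Φ.S (b + c • a)}) ⟨1, s1⟩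
    exact zero_ne_one (congrArg Subtype.val h7)
  by_cases hay : a ∈ y
  · right
    refine hu.le_of_mem hw hw0 ?_
    rw [← hab]
    exact k.add_mem (hyk hay) hb
  · left
    have ha0 : a ≠ 0 := fun h0 => hay (h0 ▸ y.zero_mem)
    have hpa := hℓ.1.isPt ha ha0
    have hle : ℓ = y ⊔ Submodule.span K {a} := by
      symm
      refine Submodule.eq_of_le_of_finrank_le
        (sup_le hyℓ (by rw [Submodule.span_singleton_le_iff_mem]; exact ha)) ?_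
      have hna : ¬ Submodule.span K {a} ≤ y := by
        rw [Submodule.span_singleton_le_iff_mem]
        exact hay
      have h5 := Submodule.finrank_sup_add_finrank_inf_eq (Submodule.span K {a}) y
      rw [hpa.inf_eq_bot hna, finrank_bot, hpa.finrank, hy.finrank] at h5
      rw [sup_comm, hℓ.2]
      omega
    have hbo : b ∈ Φ.orth ℓ := by
      rw [hle, Φ.orth_sup]
      exact ⟨hky hb, Φ.mem_orth_span.2 hB⟩
    have h5 := hA.finrank_inf_orth hℓA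
    rw [h4, hℓ.2] at h5
    have h6 : ℓ = A ⊓ Φ.orth ℓ := by
      refine Submodule.eq_of_le_of_finrank_le (le_inf hℓA hℓ.1.2) ?_
      rw [hℓ.2]
      omega
    have hbℓ : b ∈ ℓ := by
      rw [h6]
      exact ⟨hkA hb, hbo⟩
    refine hu.le_of_mem hw hw0 ?_
    rw [← hab]
    exact ℓ.add_mem ha hbℓ

private theorem rgdDim (U W : Submodule K V) :
    finrank K ↥(W ⊓ Φ.orth U) + finrank K U = finrank K ↥(U ⊓ Φ.orth W) + finrank K W := by
  have h1 := Φ.finrank_orth (U ⊓ Φ.orth W)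
  rw [Φ.orth_inf, Φ.orth_orth] at h1
  have h2 := Submodule.finrank_sup_add_finrank_inf_eq (Φ.orth U) W
  have h3 := Φ.finrank_orth U
  rw [inf_comm (Φ.orth U) W] at h2
  omega

private theorem rgdEx {W : Submodule K V} (hW : Φ.TS W) (h : W ≠ ⊥) : ∃ x, Φ.IsPt x ∧ x ≤ W := by
  obtain ⟨v, hv, h0⟩ := Submodule.exists_mem_ne_zero_of_ne_bot h
  exact ⟨_, hW.isPt hv h0, by rw [Submodule.span_singleton_le_iff_mem]; exact hv⟩

private theorem rgdNe {W : Submodule K V} (h : 1 ≤ finrank K W) : W ≠ ⊥ := by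
  intro h0
  rw [h0, finrank_bot] at h
  omega

private theorem rgdSup {x x' : Submodule K V} (hx : Φ.IsPt x) (hx' : Φ.IsPt x')
    (h : ¬ x ≤ x') : finrank K ↥(x ⊔ x') = 2 := by
  have h1 := Submodule.finrank_sup_add_finrank_inf_eq x x'
  rw [hx.inf_eq_bot h, finrank_bot, hx.finrank, hx'.finrank] at h1
  omega

/-- the line through a point of `ℓ` and a perpendicular point of `m` -/
private theorem rgdLn {ℓ m y z : Submodule K V} (hlm : ℓ ⊓ m = ⊥) (hy : Φ.IsPt y)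
    (hz : Φ.IsPt z) (hyℓ : y ≤ ℓ) (hzm : z ≤ m) (hyz : y ≤ Φ.orth z) :
    Φ.IsLn (y ⊔ z) ∧ ℓ ≠ y ⊔ z := by
  refine ⟨⟨hy.ts.sup hz.ts hyz, rgdSup hy hz fun h => ?_⟩, fun h => ?_⟩
  · have h1 : y ≤ ℓ ⊓ m := le_inf hyℓ (h.trans hzm)
    rw [hlm] at h1
    exact hy.ne_bot (le_bot_iff.1 h1)
  · have h1 : z ≤ ℓ ⊓ m := by
      refine le_inf ?_ hzm
      rw [h]
      exact le_sup_right
    rw [hlm] at h1
    exact hz.ne_bot (le_bot_iff.1 h1)

/-- the family step of `←` -/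
private theorem rgdFam (ht : Φ.t = 1) {A ℓ m k E : Submodule K V} (hA : Φ.ND A)
    (h4 : finrank K A = 4) (hℓ : Φ.IsLn ℓ) (hk : Φ.IsLn k) (hlm : ℓ ⊓ m = ⊥) (hℓA : ℓ ≤ A)
    (hmA : m ≤ A) (hkA : k ≤ A) (hkl : k ⊓ ℓ = ⊥) (hE : Φ.TS E) (h1 : E ⊓ ℓ ≠ ⊥)
    (h2 : E ⊓ m ≠ ⊥) : E ⊓ k ≠ ⊥ := by
  obtain ⟨y, hy, hyE⟩ := rgdEx (hE.mono inf_le_left) h1
  obtain ⟨z, hz, hzE⟩ := rgdEx (hE.mono inf_le_left) h2
  have hyz : y ≤ Φ.orth z :=
    (hyE.trans inf_le_left).trans (hE.2.trans (Φ.orth_anti (hzE.trans inf_le_left)))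
  obtain ⟨hk', hne⟩ := rgdLn hlm hy hz (hyE.trans inf_le_right) (hzE.trans inf_le_right) hyz
  have hk'E : y ⊔ z ≤ E := sup_le (hyE.trans inf_le_left) (hzE.trans inf_le_left)
  have hk'A : y ⊔ z ≤ A :=
    sup_le ((hyE.trans inf_le_right).trans hℓA) ((hzE.trans inf_le_right).trans hmA)
  intro h0
  have h0' : (y ⊔ z) ⊓ k = ⊥ := le_bot_iff.1 (h0 ▸ inf_le_inf_right _ hk'E)
  have h5 := rgdDim (Φ := Φ) y k
  rw [hy.finrank, hk.2] at h5
  obtain ⟨u, hu, huk⟩ := rgdEx (Φ := Φ) (hk.1.mono (inf_le_left : k ⊓ Φ.orth y ≤ k))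
    (rgdNe (by omega))
  rcases two_lines ht hA h4 hy hℓ hk' (hyE.trans inf_le_right) le_sup_left hℓA hk'A hne hu
    ((huk.trans inf_le_left).trans hkA) (huk.trans inf_le_right) with h6 | h6
  · have h7 : u ≤ k ⊓ ℓ := le_inf (huk.trans inf_le_left) h6
    rw [hkl] at h7
    exact hu.ne_bot (le_bot_iff.1 h7)
  · have h7 : u ≤ (y ⊔ z) ⊓ k := le_inf h6 (huk.trans inf_le_left)
    rw [h0'] at h7
    exact hu.ne_bot (le_bot_iff.1 h7)

theorem rg_iff {D : Subgroup (V ≃ₗ[K] V)} (hD : Φ.Grp D) (hn : finrank K V = 8)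
    (ht : Φ.t = 1) {M : Set (Submodule K V)} (hM : Φ.Fam D M) {ℓ m : Submodule K V}
    (hℓ : Φ.IsLn ℓ) (hm : Φ.IsLn m) (h : ℓ ⊓ Φ.orth m = ⊥) (k : Submodule K V) :
    k ∈ Φ.Rg M ℓ m ↔ Φ.IsLn k ∧ k ≤ ℓ ⊔ m ∧ Even (finrank K ↥(k ⊓ ℓ)) := by
  obtain ⟨hA, h4, hml, hlm, hAℓ⟩ := opp_nd hℓ hm h
  constructor
  · rintro ⟨hk, hC⟩
    have hkA : k ≤ ℓ ⊔ m := by
      have hCo : Φ.orth (ℓ ⊔ m) ≤ Φ.orth k := by
        have hnd := hA.orth
        have hf := Φ.finrank_orth (ℓ ⊔ m)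
        have hc := Φ.c_le
        obtain ⟨x, hx, hxC⟩ := exists_pt (Φ := Φ) (W := Φ.orth (ℓ ⊔ m)) (by omega)
        rw [span_pts hnd hx hxC]
        refine sSup_le ?_
        rintro a ⟨ha, haC⟩
        have ha1 : a ≤ Φ.orth ℓ := haC.trans (Φ.orth_anti le_sup_left)
        have ha2 : a ≤ Φ.orth m := haC.trans (Φ.orth_anti le_sup_right)
        have h5 := hC {z | Φ.IsPt z} (Or.inl rfl) a ha ((nr_pt ha hℓ).2 ha1)
          ((nr_pt ha hm).2 ha2)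
        exact (nr_pt ha hk).1 h5
      have h5 := Φ.le_orth_comm.1 hCo
      rwa [Φ.orth_orth] at h5
    refine ⟨hk, hkA, ?_⟩
    by_contra hodd
    have hle : finrank K ↥(k ⊓ ℓ) ≤ 2 := by
      have := Submodule.finrank_mono (inf_le_left : k ⊓ ℓ ≤ k)
      rwa [hk.2] at this
    have h1 : finrank K ↥(k ⊓ ℓ) = 1 := by
      rcases Nat.lt_or_ge (finrank K ↥(k ⊓ ℓ)) 1 with h5 | h5
      · exact absurd (by rw [Nat.lt_one_iff.1 h5]; exact Even.zero) hodd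
      · rcases Nat.lt_or_ge (finrank K ↥(k ⊓ ℓ)) 2 with h6 | h6
        · omega
        · exact absurd (by rw [le_antisymm hle h6]; exact even_two) hodd
    obtain ⟨e, he, hek⟩ := rgdEx (Φ := Φ) (hk.1.mono (inf_le_left : k ⊓ ℓ ≤ k))
      (rgdNe (by omega))
    obtain ⟨v, hv, hvk⟩ : ∃ v ∈ ℓ, v ∉ k := by
      by_contra hc
      push Not at hc
      have h2 : ℓ ≤ k ⊓ ℓ := le_inf hc le_rfl
      have h3 := Submodule.finrank_mono h2
      rw [h1, hℓ.2] at h3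
      omega
    have hv0 : v ≠ 0 := fun h0 => hvk (h0 ▸ k.zero_mem)
    obtain ⟨y, hy, hyℓ, hyk⟩ : ∃ y, Φ.IsPt y ∧ y ≤ ℓ ∧ ¬ y ≤ k := by
      refine ⟨_, hℓ.1.isPt hv hv0, by rw [Submodule.span_singleton_le_iff_mem]; exact hv, ?_⟩
      rw [Submodule.span_singleton_le_iff_mem]
      exact hvk
    have h5 := rgdDim (Φ := Φ) y m
    rw [hy.finrank, hm.2] at h5
    obtain ⟨z, hz, hzm⟩ := rgdEx (Φ := Φ) (hm.1.mono (inf_le_left : m ⊓ Φ.orth y ≤ m))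
      (rgdNe (by omega))
    have hyz : y ≤ Φ.orth z := Φ.le_orth_comm.1 (hzm.trans inf_le_right)
    obtain ⟨hk', hne⟩ := rgdLn hlm hy hz hyℓ (hzm.trans inf_le_left) hyz
    have hk'A : y ⊔ z ≤ ℓ ⊔ m :=
      sup_le (hyℓ.trans le_sup_left) ((hzm.trans inf_le_left).trans le_sup_right)
    have hk'ℓ : (y ⊔ z) ⊓ ℓ = y := by
      symm
      refine Submodule.eq_of_le_of_finrank_le (le_inf le_sup_left hyℓ) ?_
      rw [hy.finrank]
      by_contra hc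
      have h6 : (y ⊔ z) ⊓ ℓ = ℓ := by
        refine Submodule.eq_of_le_of_finrank_le inf_le_right ?_
        rw [hℓ.2]
        omega
      have h7 : (y ⊔ z) ⊓ ℓ = y ⊔ z := by
        refine Submodule.eq_of_le_of_finrank_le inf_le_left ?_
        rw [hk'.2]
        omega
      exact hne (h6.symm.trans h7)
    have hℓe : ℓ = y ⊔ e := by
      symm
      refine Submodule.eq_of_le_of_finrank_le (sup_le hyℓ (hek.trans inf_le_right)) ?_
      rw [hℓ.2, rgdSup hy he fun h6 => hyk (h6.trans (hek.trans inf_le_left))]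
    have hk'k : (y ⊔ z) ⊓ k = ⊥ := by
      by_contra hc
      obtain ⟨w, hw, hwk⟩ := rgdEx (Φ := Φ) (hk.1.mono (inf_le_right : (y ⊔ z) ⊓ k ≤ k)) hc
      have h6 : w ≤ Φ.orth ℓ := by
        rw [hℓe, Φ.orth_sup]
        refine le_inf ?_ ?_
        · exact (hwk.trans inf_le_left).trans (hk'.1.2.trans (Φ.orth_anti le_sup_left))
        · exact (hwk.trans inf_le_right).trans
            (hk.1.2.trans (Φ.orth_anti (hek.trans inf_le_left)))
      have h7 : w ≤ ℓ := by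
        rw [← hAℓ]
        exact le_inf ((hwk.trans inf_le_left).trans hk'A) h6
      have h8 : w ≤ y := by
        rw [← hk'ℓ]
        exact le_inf (hwk.trans inf_le_left) h7
      have h9 := hw.eq_of_le hy h8
      exact hyk (h9 ▸ hwk.trans inf_le_right)
    obtain ⟨E, hE, hk'E⟩ := ts_le_fam hn ht hM hk'.1 (by rw [hk'.2]; omega)
    have hEA : E ⊓ (ℓ ⊔ m) = y ⊔ z := by
      symm
      refine Submodule.eq_of_le_of_finrank_le (le_inf hk'E hk'A) ?_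
      have h6 := ts_dim hA ((hM.sd E hE).1.mono (inf_le_left : E ⊓ (ℓ ⊔ m) ≤ E)) inf_le_right
      rw [hk'.2]
      omega
    have n1 : E ⊓ ℓ ≠ ⊥ := by
      intro h0
      have h6 : y ≤ E ⊓ ℓ := le_inf (le_sup_left.trans hk'E) hyℓ
      rw [h0] at h6
      exact hy.ne_bot (le_bot_iff.1 h6)
    have n2 : E ⊓ m ≠ ⊥ := by
      intro h0
      have h6 : z ≤ E ⊓ m := le_inf (le_sup_right.trans hk'E) (hzm.trans inf_le_left)
      rw [h0] at h6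
      exact hz.ne_bot (le_bot_iff.1 h6)
    have h6 := hC M (Or.inr (Or.inl rfl)) E hE ((nr_sd hn hM hE hℓ).2 n1)
      ((nr_sd hn hM hE hm).2 n2)
    have h7 := (nr_sd hn hM hE hk).1 h6
    refine h7 (le_bot_iff.1 ?_)
    rw [← hk'k]
    refine le_inf ?_ inf_le_right
    rw [← hEA]
    exact le_inf inf_le_left (inf_le_right.trans hkA)
  · rintro ⟨hk, hkA, hev⟩
    have hfam : ∀ M' : Set (Submodule K V), Φ.Fam D M' → ∀ a ∈ M', Φ.Nr M' a ℓ →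
        Φ.Nr M' a m → Φ.Nr M' a k := by
      intro M' hM' E hE n1 n2
      rw [nr_sd hn hM' hE hℓ] at n1
      rw [nr_sd hn hM' hE hm] at n2
      rw [nr_sd hn hM' hE hk]
      have hle : finrank K ↥(k ⊓ ℓ) ≤ 2 := by
        have := Submodule.finrank_mono (inf_le_left : k ⊓ ℓ ≤ k)
        rwa [hk.2] at this
      by_cases h2 : finrank K ↥(k ⊓ ℓ) = 2
      · have e1 : k ⊓ ℓ = k := Submodule.eq_of_le_of_finrank_le inf_le_left (by rw [h2, hk.2])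
        have e2 : k ⊓ ℓ = ℓ := Submodule.eq_of_le_of_finrank_le inf_le_right (by rw [h2, hℓ.2])
        rw [e1] at e2
        rw [e2]
        exact n1
      · have h0 : finrank K ↥(k ⊓ ℓ) = 0 := by
          obtain ⟨r, hr⟩ := hev
          omega
        exact rgdFam ht hA h4 hℓ hk hlm le_sup_left le_sup_right hkA
          (Submodule.finrank_eq_zero.1 h0) (hM'.sd E hE).1 n1 n2
    refine ⟨hk, ?_⟩
    intro C hC
    rcases hC with rfl | rfl | rfl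
    · intro a ha n1 n2
      have ha' : Φ.IsPt a := ha
      rw [nr_pt ha' hℓ] at n1
      rw [nr_pt ha' hm] at n2
      rw [nr_pt ha' hk]
      refine le_trans ?_ (Φ.orth_anti hkA)
      rw [Φ.orth_sup]
      exact le_inf n1 n2
    · exact hfam _ hM
    · exact hfam _ (oth_fam hD hn ht hM).1

end PS

end Pool.Agent.Work.MP_bc729a_al.CG
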