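import Pool.Agent.Work.MP_bc729a_al.CG.Trl

/-! # Module Tr4 (M): a trace lemma

PROOF. (Compare CG/Trl, whose proof may be copied.) Matrices over `ZMod p` indexed by `P`: `N x y = 1` if `N x y` holds, else `0`, symmetric (`hN`); `A x y = 1` if `r x y`, else `0`; `J` all entries `1`. `(N * N) x y = Nat.card {z | N x z ∧ N y z} = A x y` (`hN`, `h2`, `h3`), so `A` is symmetric, `(A * A) x y = Nat.card {z | r x z ∧ r y z} = 1` (`h4`): `N ^ 4 = A * A = J`. `N * J = J` (`h1`), so `N ^ (4 + j) = J` for all `j`. `J * J = |P| • J` and `J * J = N ^ 8 = J`, so `|P| = 1` in `ZMod p`. `trace N = (trace N) ^ (p ^ k) = trace (N ^ (p ^ k)) = trace J = |P| = 1` for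
`p ^ k ≥ 4` (`ZMod.trace_pow_card`, `ZMod.pow_card`). So some diagonal entry of `N` is not `0`. -/

namespace Pool.Agent.Work.MP_bc729a_al.CG

open Module

universe u v

variable {K : Type u} {V : Type v} [Field K] [AddCommGroup V] [Module K V] [Finite K] [Finite V]

namespace PS

variable {Φ : PS K V}

theorem trace4 {P : Type v} [Finite P] [Nonempty P] {p : ℕ} [Fact p.Prime]
    (N r : P → P → Prop) (hN : ∀ x y, N x y → N y x)
    (h1 : ∀ x, Nat.card {z : P // N x z} ≡ 1 [MOD p])
    (h2 : ∀ x y, r x y → Nat.card {z : P // N x z ∧ N y z} ≡ 1 [MOD p])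
    (h3 : ∀ x y, ¬ r x y → Nat.card {z : P // N x z ∧ N y z} ≡ 0 [MOD p])
    (h4 : ∀ x y, Nat.card {z : P // r x z ∧ r y z} ≡ 1 [MOD p]) : ∃ x, N x x := by
  classical
  haveI : Fintype P := Fintype.ofFinite P
  by_contra hcon
  push Not at hcon
  -- the sum of the products of two indicator functions
  have hsum : ∀ (q s : P → P → Prop) (x y : P),
      ∑ z, (if q x z then (1 : ZMod p) else 0) * (if s y z then (1 : ZMod p) else 0) =
        (Nat.card {z : P // q x z ∧ s y z} : ZMod p) := by
    intro q s x y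
    have e1 : ∀ z, (if q x z then (1 : ZMod p) else 0) * (if s y z then (1 : ZMod p) else 0) =
        if (q x z ∧ s y z) then (1 : ZMod p) else 0 := by
      intro z
      by_cases h : q x z <;> by_cases h' : s y z <;> simp [h, h']
    rw [Finset.sum_congr rfl (fun z _ => e1 z), Finset.sum_boole]
    congr 1
    rw [Nat.card_eq_fintype_card, Fintype.card_subtype]
  have hsym : ∀ (q : P → P → Prop), (∀ x y, q x y → q y x) → ∀ x y,
      (if q x y then (1 : ZMod p) else 0) = if q y x then 1 else 0 := by
    intro q hq x y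
    by_cases h : q x y
    · rw [if_pos h, if_pos (hq x y h)]
    · rw [if_neg h, if_neg (fun h' => h (hq y x h'))]
  let M : Matrix P P (ZMod p) := Matrix.of fun x y => if N x y then 1 else 0
  let A : Matrix P P (ZMod p) := Matrix.of fun x y => if r x y then 1 else 0
  let J : Matrix P P (ZMod p) := Matrix.of fun _ _ => 1
  have hMM : M * M = A := by
    ext x y
    rw [Matrix.mul_apply]
    show ∑ z, (if N x z then (1 : ZMod p) else 0) * (if N z y then (1 : ZMod p) else 0) =
      if r x y then 1 else 0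
    rw [Finset.sum_congr rfl (fun z _ => by rw [hsym N hN z y]), hsum N N x y]
    by_cases h : r x y
    · rw [if_pos h]
      have e := (ZMod.natCast_eq_natCast_iff _ _ _).2 (h2 x y h)
      rw [e, Nat.cast_one]
    · rw [if_neg h]
      have e := (ZMod.natCast_eq_natCast_iff _ _ _).2 (h3 x y h)
      rw [e, Nat.cast_zero]
  have hAsym : ∀ x y, (if r x y then (1 : ZMod p) else 0) = if r y x then 1 else 0 := by
    intro x y
    have e1 : A x y = A y x := by
      rw [← hMM, Matrix.mul_apply, Matrix.mul_apply]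
      refine Finset.sum_congr rfl fun z _ => ?_
      show (if N x z then (1 : ZMod p) else 0) * (if N z y then (1 : ZMod p) else 0) =
        (if N y z then (1 : ZMod p) else 0) * (if N z x then (1 : ZMod p) else 0)
      rw [hsym N hN z y, hsym N hN x z]
      ring
    exact e1
  have hAA : A * A = J := by
    ext x y
    rw [Matrix.mul_apply]
    show ∑ z, (if r x z then (1 : ZMod p) else 0) * (if r z y then (1 : ZMod p) else 0) = 1
    rw [Finset.sum_congr rfl (fun z _ => by rw [hAsym z y]), hsum r r x y]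
    have e := (ZMod.natCast_eq_natCast_iff _ _ _).2 (h4 x y)
    rw [e, Nat.cast_one]
  have hMJ : M * J = J := by
    ext x y
    rw [Matrix.mul_apply]
    show ∑ z, (if N x z then (1 : ZMod p) else 0) * 1 = 1
    rw [Finset.sum_congr rfl (fun z _ => mul_one _), Finset.sum_boole]
    have e := (ZMod.natCast_eq_natCast_iff _ _ _).2 (h1 x)
    rw [Nat.card_eq_fintype_card, Fintype.card_subtype] at e
    rw [e, Nat.cast_one]
  have hM4 : M * M * (M * M) = J := by rw [hMM, hAA]
  have hJM : J * M = J := by
    calc J * M = M * M * (M * M) * M := by rw [hM4]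
      _ = M * (M * M * (M * M)) := by simp only [Matrix.mul_assoc]
      _ = J := by rw [hM4, hMJ]
  have hJJ : J * J = J := by
    calc J * J = M * M * (M * M) * J := by rw [hM4]
      _ = M * (M * (M * (M * J))) := by simp only [Matrix.mul_assoc]
      _ = J := by rw [hMJ, hMJ, hMJ, hMJ]
  have htrJ : Matrix.trace J = 1 := by
    obtain ⟨x0⟩ := (inferInstance : Nonempty P)
    have e1 := congrFun (congrFun hJJ x0) x0
    rw [Matrix.mul_apply] at e1
    have e3 : ∑ _y : P, (1 : ZMod p) * 1 = 1 := e1
    show ∑ _y : P, (1 : ZMod p) = 1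
    simpa using e3
  have hAJ : A * J = J := by rw [← hMM, Matrix.mul_assoc, hMJ, hMJ]
  have hJA : J * A = J := by rw [← hMM, ← Matrix.mul_assoc, hJM, hJM]
  have hD2 : (M - J) * (M - J) = A - J := by
    rw [mul_sub, sub_mul, sub_mul, hMM, hJM, hMJ, hJJ]
    abel
  have hD4 : (A - J) * (A - J) = 0 := by
    rw [mul_sub, sub_mul, sub_mul, hAA, hJA, hAJ, hJJ]
    abel
  have hnil : IsNilpotent (M - J) := ⟨4, by
    rw [show (4 : ℕ) = 2 * 2 from rfl, pow_mul, pow_two (M - J), hD2, pow_two, hD4]⟩
  have htr := Matrix.isNilpotent_trace_of_isNilpotent hnil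
  rw [isNilpotent_iff_eq_zero, Matrix.trace_sub, htrJ] at htr
  have htN : Matrix.trace M = 0 := by
    show ∑ x, (if N x x then (1 : ZMod p) else 0) = 0
    refine Finset.sum_eq_zero fun x _ => ?_
    rw [if_neg (hcon x)]
  rw [htN, zero_sub, neg_eq_zero] at htr
  exact one_ne_zero htr

end PS

end Pool.Agent.Work.MP_bc729a_al.CG
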