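import Pool.Agent.Work.MP_bc729a_al.CO.Gk

/-! # Module Wq (M): quadruples of solids

PROOF of `fam_quad`. Let `e₁, e₂, e₃, e₄` be a basis of `F`, `k = span {e₁, e₂}`, `k' = span {e₃, e₄}`, `n = span {e₁, e₃}`, `n' = span {e₂, e₄}` and `A = gk F' k`, `A' = gk F' k'`, `B = gk F' n`, `B' = gk F' n'` (`gk_sd`, `gk_inf`). `k ⊓ k' = ⊥`, `n ⊓ n' = ⊥`, `k ⊓ n ∋ e₁`, `k' ⊓ n ∋ e₃`, `k' ⊓ n' ∋ e₄`. They are different, as `A ⊓ F = k` etc.
PROOF of `fam_sep_in`. `k = G ⊓ F`, `k₀ = G₀ ⊓ F` of dimension `2`, `G = gk F' k`, `G₀ = gk F' k₀` (`gk_of`), `k ≠ k₀`, `k ⊓ k₀ ≠ ⊥` (`gk_inf`). Let `0 ≠ p ∈ k₀`, `p ∉ k`, and `v ∈ F`, `v ∉ k ⊔ span {p}` (dimension `3`); `k' = span {p, v}`, of dimension `2`. `k' ⊓ k = ⊥`: if `a • p + b • v ∈ k` then `b = 0` (`v ∉ k ⊔ span {p}`), so `a = 0`. `k' ⊓ k₀ ∋ p`. `G' = gk F' k'` (`gk_sd`, `gk_inf`; `G' ⊓ F = k' ≠ ⊥`). -/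

namespace Pool.Agent.Work.MP_bc729a_al.CG

open Module

universe u v

variable {K : Type u} {V : Type v} [Field K] [AddCommGroup V] [Module K V] [Finite K] [Finite V]

namespace PS

variable {Φ : PS K V}

private theorem wq_fin {ι : Type} {w : ι → V} (hw : LinearIndependent K w) {i j : ι} (hij : i ≠ j) :
    finrank K (Submodule.span K (w '' {i, j})) = 2 := by
  classical
  have h1 : LinearIndependent K (fun a : ({i, j} : Set ι) => w a) :=
    hw.comp _ Subtype.val_injective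
  have : Fintype ({i, j} : Set ι) := (Set.toFinite {i, j}).fintype
  have h2 := finrank_span_eq_card h1
  have h3 : Set.range (fun a : ({i, j} : Set ι) => w a) = w '' {i, j} := by
    ext x
    constructor
    · rintro ⟨a, rfl⟩
      exact ⟨a, a.2, rfl⟩
    · rintro ⟨a, ha, rfl⟩
      exact ⟨⟨a, ha⟩, rfl⟩
  rw [h3] at h2
  rw [h2, ← Nat.card_eq_fintype_card, Nat.card_coe_set_eq, Set.ncard_pair hij]

private theorem wq_ne {k : Submodule K V} (h : finrank K k = 2) : k ≠ ⊥ := by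
  rintro rfl
  rw [finrank_bot] at h
  omega

theorem fam_quad (hn : finrank K V = 8) {D : Subgroup (V ≃ₗ[K] V)}
    {M : Set (Submodule K V)} (hM : Φ.Fam D M) {F F' : Submodule K V} (hF : F ∈ M)
    (hF' : F' ∈ M) (h : F ⊓ F' = ⊥) :
    ∃ A B A' B', (A ∈ M ∧ A ⊓ F ≠ ⊥ ∧ A ⊓ F' ≠ ⊥) ∧ (B ∈ M ∧ B ⊓ F ≠ ⊥ ∧ B ⊓ F' ≠ ⊥) ∧
      (A' ∈ M ∧ A' ⊓ F ≠ ⊥ ∧ A' ⊓ F' ≠ ⊥) ∧ (B' ∈ M ∧ B' ⊓ F ≠ ⊥ ∧ B' ⊓ F' ≠ ⊥) ∧
      A ⊓ A' = ⊥ ∧ B ⊓ B' = ⊥ ∧ (A ≠ B ∧ A ⊓ B ≠ ⊥) ∧ (A' ≠ B' ∧ A' ⊓ B' ≠ ⊥) ∧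
      (A' ≠ B ∧ A' ⊓ B ≠ ⊥) := by
  have hfd : Module.Finite K V := inferInstance
  have hF4 := (hM.sd F hF).2
  let b : Basis (Fin 4) K F := Module.finBasisOfFinrankEq K F hF4
  let w : Fin 4 → V := fun i => (b i : V)
  have hw : LinearIndependent K w := by
    have h1 := b.linearIndependent.map' F.subtype (Submodule.ker_subtype F)
    exact h1
  have hle : ∀ s : Set (Fin 4), Submodule.span K (w '' s) ≤ F := by
    intro s
    rw [Submodule.span_le]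
    rintro _ ⟨i, -, rfl⟩
    exact (b i).2
  have hdisj : ∀ s t : Set (Fin 4), Disjoint s t →
      Submodule.span K (w '' s) ⊓ Submodule.span K (w '' t) = ⊥ := fun s t hst =>
    disjoint_iff.1 (hw.disjoint_span_image hst)
  have hmem : ∀ (s : Set (Fin 4)) (i : Fin 4), i ∈ s → w i ∈ Submodule.span K (w '' s) :=
    fun s i hi => Submodule.subset_span ⟨i, hi, rfl⟩
  have hmeet : ∀ (s t : Set (Fin 4)) (i : Fin 4), i ∈ s → i ∈ t →
      Submodule.span K (w '' s) ⊓ Submodule.span K (w '' t) ≠ ⊥ := by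
    intro s t i hs ht h0
    have h1 : w i ∈ Submodule.span K (w '' s) ⊓ Submodule.span K (w '' t) :=
      ⟨hmem s i hs, hmem t i ht⟩
    rw [h0, Submodule.mem_bot] at h1
    exact hw.ne_zero i h1
  have hne : ∀ (s t : Set (Fin 4)) (i : Fin 4), i ∈ s → i ∉ t →
      Submodule.span K (w '' s) ≠ Submodule.span K (w '' t) := by
    intro s t i hs ht h0
    have h1 := hmem s i hs
    rw [h0] at h1
    exact hw.notMem_span_image ht h1
  have d01 : finrank K (Submodule.span K (w '' {0, 1})) = 2 := wq_fin hw (by decide)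
  have d23 : finrank K (Submodule.span K (w '' {2, 3})) = 2 := wq_fin hw (by decide)
  have d02 : finrank K (Submodule.span K (w '' {0, 2})) = 2 := wq_fin hw (by decide)
  have d13 : finrank K (Submodule.span K (w '' {1, 3})) = 2 := wq_fin hw (by decide)
  obtain ⟨a1, a2, a3⟩ := gk_sd hn hM hF hF' h (hle {0, 1}) d01
  obtain ⟨b1, b2, b3⟩ := gk_sd hn hM hF hF' h (hle {0, 2}) d02
  obtain ⟨c1, c2, c3⟩ := gk_sd hn hM hF hF' h (hle {2, 3}) d23
  obtain ⟨e1, e2, e3⟩ := gk_sd hn hM hF hF' h (hle {1, 3}) d13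
  refine ⟨Φ.gk F' (Submodule.span K (w '' {0, 1})), Φ.gk F' (Submodule.span K (w '' {0, 2})),
    Φ.gk F' (Submodule.span K (w '' {2, 3})), Φ.gk F' (Submodule.span K (w '' {1, 3})),
    ⟨a1, by rw [a2]; exact wq_ne d01, a3⟩, ⟨b1, by rw [b2]; exact wq_ne d02, b3⟩,
    ⟨c1, by rw [c2]; exact wq_ne d23, c3⟩, ⟨e1, by rw [e2]; exact wq_ne d13, e3⟩,
    ?_, ?_, ⟨?_, ?_⟩, ⟨?_, ?_⟩, ⟨?_, ?_⟩⟩
  · by_contra hcon
    refine (gk_inf hn hM hF hF' h (hle {0, 1}) d01 (hle {2, 3}) d23).1 hcon (hdisj _ _ ?_)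
    rw [Set.disjoint_left]
    decide
  · by_contra hcon
    refine (gk_inf hn hM hF hF' h (hle {0, 2}) d02 (hle {1, 3}) d13).1 hcon (hdisj _ _ ?_)
    rw [Set.disjoint_left]
    decide
  · intro h0
    rw [h0, b2] at a2
    exact hne {0, 1} {0, 2} 1 (by decide) (by decide) a2.symm
  · exact (gk_inf hn hM hF hF' h (hle {0, 1}) d01 (hle {0, 2}) d02).2
      (hmeet _ _ 0 (by decide) (by decide))
  · intro h0
    rw [h0, e2] at c2
    exact hne {2, 3} {1, 3} 2 (by decide) (by decide) c2.symm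
  · exact (gk_inf hn hM hF hF' h (hle {2, 3}) d23 (hle {1, 3}) d13).2
      (hmeet _ _ 3 (by decide) (by decide))
  · intro h0
    rw [h0, b2] at c2
    exact hne {2, 3} {0, 2} 3 (by decide) (by decide) c2.symm
  · exact (gk_inf hn hM hF hF' h (hle {2, 3}) d23 (hle {0, 2}) d02).2
      (hmeet _ _ 2 (by decide) (by decide))

theorem fam_sep_in (hn : finrank K V = 8) {D : Subgroup (V ≃ₗ[K] V)}
    {M : Set (Submodule K V)} (hM : Φ.Fam D M) {F F' G G₀ : Submodule K V} (hF : F ∈ M)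
    (hF' : F' ∈ M) (h : F ⊓ F' = ⊥) (hG : G ∈ M) (hG1 : G ⊓ F ≠ ⊥) (hG2 : G ⊓ F' ≠ ⊥)
    (hG₀ : G₀ ∈ M) (hG₀1 : G₀ ⊓ F ≠ ⊥) (hG₀2 : G₀ ⊓ F' ≠ ⊥) (hne : G ≠ G₀)
    (h0 : G ⊓ G₀ ≠ ⊥) :
    ∃ G' ∈ M, G' ⊓ F ≠ ⊥ ∧ G' ⊓ F' ≠ ⊥ ∧ G' ⊓ G₀ ≠ ⊥ ∧ G' ⊓ G = ⊥ := by
  have hfd : Module.Finite K V := inferInstance
  have hF4 := (hM.sd F hF).2
  obtain ⟨d1, e1⟩ := gk_of hn hM hF hF' h hG hG1 hG2
  obtain ⟨d2, e2⟩ := gk_of hn hM hF hF' h hG₀ hG₀1 hG₀2
  have hkne : G ⊓ F ≠ G₀ ⊓ F := by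
    intro h1
    apply hne
    rw [e1, e2, h1]
  have hnle : ¬ G₀ ⊓ F ≤ G ⊓ F := by
    intro h1
    exact hkne (Submodule.eq_of_le_of_finrank_eq h1 (by rw [d1, d2])).symm
  obtain ⟨p, hp1, hp2⟩ := SetLike.not_le_iff_exists.1 hnle
  have hp0 : p ≠ 0 := by
    rintro rfl
    exact hp2 (Submodule.zero_mem _)
  have hFn : ¬ F ≤ (G ⊓ F) ⊔ Submodule.span K {p} := by
    intro h1
    have h2 := Submodule.finrank_mono h1
    have h3 := Submodule.finrank_add_le_finrank_add_finrank (G ⊓ F) (Submodule.span K {p})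
    rw [finrank_span_singleton hp0, d1] at h3
    omega
  obtain ⟨v, hv1, hv2⟩ := SetLike.not_le_iff_exists.1 hFn
  have hlin : ∀ a c : K, a • p + c • v ∈ G ⊓ F → a = 0 ∧ c = 0 := by
    intro a c hac
    have hc : c = 0 := by
      by_contra hc
      apply hv2
      have h1 : v = c⁻¹ • (a • p + c • v) + (-(c⁻¹ * a)) • p := by
        rw [smul_add, smul_smul, smul_smul, inv_mul_cancel₀ hc, one_smul, neg_smul]
        abel
      rw [h1]
      exact Submodule.add_mem _ (Submodule.mem_sup_left (Submodule.smul_mem _ _ hac))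
        (Submodule.mem_sup_right (Submodule.smul_mem _ _ (Submodule.mem_span_singleton_self p)))
    refine ⟨?_, hc⟩
    rw [hc, zero_smul, add_zero] at hac
    by_contra ha
    apply hp2
    have h1 : p = a⁻¹ • (a • p) := by
      rw [smul_smul, inv_mul_cancel₀ ha, one_smul]
    rw [h1]
    exact Submodule.smul_mem _ _ hac
  have hd' : finrank K ↥(Submodule.span K {p} ⊔ Submodule.span K {v}) = 2 := by
    have hv0 : v ≠ 0 := by
      rintro rfl
      exact hv2 (Submodule.zero_mem _)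
    have h1 := Submodule.finrank_sup_add_finrank_inf_eq (Submodule.span K {p})
      (Submodule.span K {v})
    have h2 : Submodule.span K {p} ⊓ Submodule.span K {v} = ⊥ := by
      rw [eq_bot_iff]
      rintro z ⟨hz1, hz2⟩
      obtain ⟨a, rfl⟩ := Submodule.mem_span_singleton.1 hz1
      obtain ⟨c, hc⟩ := Submodule.mem_span_singleton.1 hz2
      have h3 : a • p + (-c) • v = 0 := by
        rw [neg_smul, hc]
        abel
      have h4 := hlin a (-c) (by rw [h3]; exact Submodule.zero_mem _)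
      rw [h4.1, zero_smul]
      exact Submodule.zero_mem _
    rw [h2, finrank_bot, finrank_span_singleton hp0, finrank_span_singleton hv0] at h1
    omega
  have hle' : Submodule.span K {p} ⊔ Submodule.span K {v} ≤ F := by
    refine sup_le ?_ ?_
    · rw [Submodule.span_singleton_le_iff_mem]
      exact hp1.2
    · rw [Submodule.span_singleton_le_iff_mem]
      exact hv1
  obtain ⟨g1, g2, g3⟩ := gk_sd hn hM hF hF' h hle' hd'
  refine ⟨_, g1, by rw [g2]; exact wq_ne hd', g3, ?_, ?_⟩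
  · rw [e2]
    refine (gk_inf hn hM hF hF' h hle' hd' inf_le_right d2).2 ?_
    intro h1
    have h2 : p ∈ (Submodule.span K {p} ⊔ Submodule.span K {v}) ⊓ (G₀ ⊓ F) :=
      ⟨Submodule.mem_sup_left (Submodule.mem_span_singleton_self p), hp1⟩
    rw [h1, Submodule.mem_bot] at h2
    exact hp0 h2
  · rw [e1]
    by_contra hcon
    refine (gk_inf hn hM hF hF' h hle' hd' inf_le_right d1).1 hcon ?_
    rw [eq_bot_iff]
    rintro z ⟨hz1, hz2⟩
    obtain ⟨x, hx, y, hy, rfl⟩ := Submodule.mem_sup.1 hz1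
    obtain ⟨a, rfl⟩ := Submodule.mem_span_singleton.1 hx
    obtain ⟨c, rfl⟩ := Submodule.mem_span_singleton.1 hy
    obtain ⟨h4, h5⟩ := hlin a c hz2
    rw [h4, h5, zero_smul, zero_smul, add_zero]
    exact Submodule.zero_mem _

end PS

end Pool.Agent.Work.MP_bc729a_al.CG
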